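import Mathlib

set_option autoImplicit false

/-!
# DF71/Inv2: permutations as products of two involutions  (OPEN MODULE)

Keep the statements exactly; extra lemmas `private`.
-/

namespace Pool.Agent.DF71

universe u

/-- Every permutation `σ` of a (finite) set is a product of two involutions, which moreover fix
every fixed point of `σ`.

PROOF.  Choose a representative `r x` of the cycle of `x`: `σ.SameCycle (r x) x`, and `r x = r y` if
`σ.SameCycle x y` (for example by the quotient by `Equiv.Perm.SameCycle.setoid σ` and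
`Quotient.out`).  For every `x` there is an integer `k` with `(σ ^ k) (r x) = x`; define
`s x = (σ ^ (-k)) (r x)`.  This does not depend on `k`: if `(σ^k) r = (σ^k') r` then
`σ^(k-k')` fixes `r`, hence so does `σ^(k'-k)`, and `(σ^(-k)) r = (σ^(-k')) r`.  So
`s ((σ^k) r) = (σ^(-k)) r` for every representative `r` (that is `r = r x` for some `x`) and every
integer `k`.  Hence `s (s x) = x` and `s (σ x) = σ⁻¹ (s x)` for all `x`.  Let `b = s` as a
permutation and `a = σ * s`; then `b * b = 1`, `a * a = σ (s σ s) = σ σ⁻¹ = 1` and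
`a * b = σ * s * s = σ`.  If `σ x = x` then `r x = x` (the cycle of `x` is `{x}`) and `s x = x`,
so also `a x = σ x = x`. -/
theorem two_involutions {α : Type u} (σ : Equiv.Perm α) :
    ∃ a b : Equiv.Perm α, a * a = 1 ∧ b * b = 1 ∧ σ = a * b ∧
      ∀ x, σ x = x → a x = x ∧ b x = x := by
  classical
  let S := Equiv.Perm.SameCycle.setoid σ
  let r : α → α := fun x => (Quotient.mk S x).out
  have hr1 : ∀ x, ∃ k : ℤ, (σ ^ k) (r x) = x := fun x => Quotient.mk_out (s := S) x
  have hr2 : ∀ x y, σ.SameCycle x y → r x = r y := by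
    intro x y h
    have h1 : Quotient.mk S x = Quotient.mk S y := Quotient.sound h
    show (Quotient.mk S x).out = (Quotient.mk S y).out
    rw [h1]
  choose k hk using hr1
  let s : α → α := fun x => (σ ^ (-(k x))) (r x)
  have hs : ∀ x, ∀ j : ℤ, (σ ^ j) (r x) = x → s x = (σ ^ (-j)) (r x) := by
    intro x j hj
    have h1 : (σ ^ (-j - k x)) ((σ ^ (k x)) (r x)) = (σ ^ (-j - k x)) ((σ ^ j) (r x)) := by
      rw [hk x, hj]
    rw [← Equiv.Perm.mul_apply, ← Equiv.Perm.mul_apply, ← zpow_add, ← zpow_add] at h1
    have e1 : -j - k x + k x = -j := by ring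
    have e2 : -j - k x + j = -(k x) := by ring
    rw [e1, e2] at h1
    exact h1.symm
  have hsame : ∀ x (j : ℤ), r ((σ ^ j) x) = r x := by
    intro x j
    exact (hr2 x _ ⟨j, rfl⟩).symm
  have hrr : ∀ x, r (r x) = r x := by
    intro x
    have h1 := hsame (r x) (k x)
    rw [hk x] at h1
    exact h1.symm
  have hss : ∀ x, s (s x) = x := by
    intro x
    have h1 : r (s x) = r x := by
      show r ((σ ^ (-(k x))) (r x)) = r x
      rw [hsame, hrr]
    have h2 := hs (s x) (-(k x)) (by rw [h1])
    rw [h1, neg_neg, hk x] at h2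
    exact h2
  have hsσ : ∀ x, s (σ x) = σ⁻¹ (s x) := by
    intro x
    have h1 : r (σ x) = r x := by
      have h := hsame x 1
      rw [zpow_one] at h
      exact h
    have h3 : (σ ^ (1 + k x)) (r (σ x)) = σ x := by
      rw [h1, zpow_add, zpow_one, Equiv.Perm.mul_apply, hk x]
    have h2 := hs (σ x) (1 + k x) h3
    rw [h2, h1]
    have e1 : -(1 + k x) = (-1) + -(k x) := by ring
    rw [e1, zpow_add, zpow_neg_one, Equiv.Perm.mul_apply]
  let b : Equiv.Perm α := ⟨s, s, hss, hss⟩
  have hb : ∀ x, b x = s x := fun x => rfl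
  have hbb : b * b = 1 := by
    ext x
    exact hss x
  refine ⟨σ * b, b, ?_, hbb, ?_, ?_⟩
  · ext x
    show σ (s (σ (s x))) = x
    rw [hsσ, hss]
    exact σ.apply_symm_apply x
  · rw [mul_assoc, hbb, mul_one]
  · intro x hx
    have h1 : r x = x := by
      have h := hk x
      have h2 : (σ ^ (-(k x))) x = r x := by
        have h3 := congrArg (σ ^ (-(k x))) h
        rw [← Equiv.Perm.mul_apply, ← zpow_add, neg_add_cancel, zpow_zero] at h3
        exact h3.symm
      rw [← h2]
      exact Equiv.Perm.zpow_apply_eq_self_of_apply_eq_self hx _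
    have h2 : s x = x := by
      show (σ ^ (-(k x))) (r x) = x
      rw [h1]
      exact Equiv.Perm.zpow_apply_eq_self_of_apply_eq_self hx _
    refine ⟨?_, h2⟩
    show σ (s x) = x
    rw [h2, hx]

/-- An even permutation with two different fixed points is a product of two even involutions.

PROOF.  Take `a, b` from `two_involutions`; `sign a = sign b` as `sign (a * b) = 1`.  If the signs
are `1` we are done.  Otherwise replace `a` by `a * swap p q` and `b` by `swap p q * b`: the
transposition commutes with `a` and with `b` since both fix `p` and `q`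
(`Equiv.swap_apply_...`, `Equiv.mul_swap_eq_swap_mul`), so these are involutions; they are even and
the product is unchanged. -/
theorem two_even_involutions {n : ℕ} (σ : alternatingGroup (Fin n)) (p q : Fin n) (hpq : p ≠ q)
    (hp : (σ : Equiv.Perm (Fin n)) p = p) (hq : (σ : Equiv.Perm (Fin n)) q = q) :
    ∃ a b : alternatingGroup (Fin n), a * a = 1 ∧ b * b = 1 ∧ σ = a * b := by
  obtain ⟨a, b, ha, hb, hab, hfix⟩ := two_involutions (σ : Equiv.Perm (Fin n))
  have hσ : Equiv.Perm.sign (σ : Equiv.Perm (Fin n)) = 1 := Equiv.Perm.mem_alternatingGroup.1 σ.2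
  have hmul : Equiv.Perm.sign a * Equiv.Perm.sign b = 1 := by
    rw [← Equiv.Perm.sign_mul, ← hab, hσ]
  rcases Int.units_eq_one_or (Equiv.Perm.sign a) with h1 | h1
  · have h2 : Equiv.Perm.sign b = 1 := by
      rw [h1, one_mul] at hmul
      exact hmul
    refine ⟨⟨a, Equiv.Perm.mem_alternatingGroup.2 h1⟩, ⟨b, Equiv.Perm.mem_alternatingGroup.2 h2⟩,
      Subtype.ext ha, Subtype.ext hb, Subtype.ext hab⟩
  · have h2 : Equiv.Perm.sign b = -1 := by
      rcases Int.units_eq_one_or (Equiv.Perm.sign b) with h2 | h2
      · rw [h1, h2] at hmul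
        exact absurd hmul (by decide)
      · exact h2
    have hap := (hfix p hp).1
    have hbp := (hfix p hp).2
    have haq := (hfix q hq).1
    have hbq := (hfix q hq).2
    have ca : a * Equiv.swap p q = Equiv.swap p q * a := by
      rw [Equiv.mul_swap_eq_swap_mul, hap, haq]
    have cb : b * Equiv.swap p q = Equiv.swap p q * b := by
      rw [Equiv.mul_swap_eq_swap_mul, hbp, hbq]
    have hsw : Equiv.swap p q * Equiv.swap p q = 1 := Equiv.swap_mul_self p q
    have hs1 : Equiv.Perm.sign (a * Equiv.swap p q) = 1 := by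
      rw [Equiv.Perm.sign_mul, h1, Equiv.Perm.sign_swap hpq]
      decide
    have hs2 : Equiv.Perm.sign (Equiv.swap p q * b) = 1 := by
      rw [Equiv.Perm.sign_mul, h2, Equiv.Perm.sign_swap hpq]
      decide
    refine ⟨⟨a * Equiv.swap p q, Equiv.Perm.mem_alternatingGroup.2 hs1⟩,
      ⟨Equiv.swap p q * b, Equiv.Perm.mem_alternatingGroup.2 hs2⟩, Subtype.ext ?_, Subtype.ext ?_,
      Subtype.ext ?_⟩
    · show a * Equiv.swap p q * (a * Equiv.swap p q) = 1
      calc a * Equiv.swap p q * (a * Equiv.swap p q)
          = a * (Equiv.swap p q * a) * Equiv.swap p q := by simp only [mul_assoc]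
        _ = a * (a * Equiv.swap p q) * Equiv.swap p q := by rw [← ca]
        _ = (a * a) * (Equiv.swap p q * Equiv.swap p q) := by simp only [mul_assoc]
        _ = 1 := by rw [ha, hsw, one_mul]
    · show Equiv.swap p q * b * (Equiv.swap p q * b) = 1
      calc Equiv.swap p q * b * (Equiv.swap p q * b)
          = Equiv.swap p q * (b * Equiv.swap p q) * b := by simp only [mul_assoc]
        _ = Equiv.swap p q * (Equiv.swap p q * b) * b := by rw [cb]
        _ = (Equiv.swap p q * Equiv.swap p q) * (b * b) := by simp only [mul_assoc]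
        _ = 1 := by rw [hb, hsw, one_mul]
    · show (σ : Equiv.Perm (Fin n)) = a * Equiv.swap p q * (Equiv.swap p q * b)
      rw [mul_assoc, ← mul_assoc (Equiv.swap p q) (Equiv.swap p q), hsw, one_mul, hab]

end Pool.Agent.DF71
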