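import Mathlib

set_option autoImplicit false

/-!
# DF71/V4: an even involution is a commutator of even permutations  (OPEN MODULE)

Keep the statement exactly; extra lemmas `private`.
-/

namespace Pool.Agent.DF71

open scoped commutatorElement

open Equiv Equiv.Perm

private theorem klein {α : Type*} [DecidableEq α] {a b c d : α} (hab : a ≠ b) (hac : a ≠ c)
    (had : a ≠ d) (hbc : b ≠ c) (hbd : b ≠ d) (hcd : c ≠ d) :
    (swap a b * swap b c) * (swap a b * swap b d) =
      (swap a b * swap c d) * ((swap a b * swap b d) * (swap a b * swap b c)) := by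
  ext z
  by_cases ha : z = a
  · subst ha
    simp [swap_apply_def, hab, hac, had, hbc, hbd, hcd, hab.symm, hac.symm, had.symm, hbc.symm,
      hbd.symm, hcd.symm]
  by_cases hb : z = b
  · subst hb
    simp [swap_apply_def, hab, hac, had, hbc, hbd, hcd, hab.symm, hac.symm, had.symm, hbc.symm,
      hbd.symm, hcd.symm]
  by_cases hc : z = c
  · subst hc
    simp [swap_apply_def, hab, hac, had, hbc, hbd, hcd, hab.symm, hac.symm, had.symm, hbc.symm,
      hbd.symm, hcd.symm]
  by_cases hd : z = d
  · subst hd
    simp [swap_apply_def, hab, hac, had, hbc, hbd, hcd, hab.symm, hac.symm, had.symm, hbc.symm,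
      hbd.symm, hcd.symm]
  simp [swap_apply_def, ha, hb, hc, hd]

private theorem comm_swap {α : Type*} [DecidableEq α] {f : Perm α} {p q : α} (hp : f p = p)
    (hq : f q = q) : f * swap p q = swap p q * f := by
  rw [mul_swap_eq_swap_mul, hp, hq]

private theorem main {α : Type*} [Fintype α] [DecidableEq α] : ∀ N : ℕ, ∀ s : Perm α,
    s.support.card ≤ N → s * s = 1 → sign s = 1 →
    ∃ x y : Perm α, sign x = 1 ∧ sign y = 1 ∧ (∀ z, s z = z → x z = z ∧ y z = z) ∧
      s = x * y * x⁻¹ * y⁻¹ := by
  intro N
  induction N with
  | zero =>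
    intro s hc _ _
    have h1 : s = 1 := by
      rw [← support_eq_empty_iff, ← Finset.card_eq_zero]
      omega
    exact ⟨1, 1, by simp, by simp, fun z _ => by simp, by simp [h1]⟩
  | succ N ih =>
    intro s hcard hs hsg
    by_cases h1 : s = 1
    · exact ⟨1, 1, by simp, by simp, fun z _ => by simp, by simp [h1]⟩
    have hss : ∀ z, s (s z) = z := fun z => by
      rw [← Perm.mul_apply, hs, Perm.one_apply]
    obtain ⟨a, ha⟩ : ∃ a, s a ≠ a := by
      by_contra hne
      push Not at hne
      exact h1 (Perm.ext hne)
    obtain ⟨b, hb⟩ : ∃ b, b = s a := ⟨_, rfl⟩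
    have hsa : s a = b := hb.symm
    have hsb : s b = a := by rw [hb, hss]
    have hab : a ≠ b := by
      intro e
      rw [← e] at hsa
      exact ha hsa
    have hs' : s * swap a b ≠ 1 := by
      intro e
      have h2 := congrArg sign e
      rw [Perm.sign_mul, hsg, sign_swap hab, Perm.sign_one] at h2
      exact absurd h2 (by decide)
    obtain ⟨c, hc⟩ : ∃ c, (s * swap a b) c ≠ c := by
      by_contra hne
      push Not at hne
      exact hs' (Perm.ext hne)
    have hca : c ≠ a := by
      rintro rfl
      apply hc
      rw [Perm.mul_apply, swap_apply_left, hsb]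
    have hcb : c ≠ b := by
      rintro rfl
      apply hc
      rw [Perm.mul_apply, swap_apply_right, hsa]
    rw [Perm.mul_apply, swap_apply_of_ne_of_ne hca hcb] at hc
    obtain ⟨d, hd⟩ : ∃ d, d = s c := ⟨_, rfl⟩
    have hsc : s c = d := hd.symm
    have hsd : s d = c := by rw [hd, hss]
    have hcd : c ≠ d := by
      intro e
      rw [← e] at hsc
      exact hc hsc
    have had : a ≠ d := by
      intro e
      rw [← e, hsa] at hsd
      exact hcb hsd.symm
    have hbd : b ≠ d := by
      intro e
      rw [← e, hsb] at hsd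
      exact hca hsd.symm
    have hac : a ≠ c := hca.symm
    have hbc : b ≠ c := hcb.symm
    set v : Perm α := swap a b * swap c d with hv
    have hva : v a = b := by
      rw [hv, Perm.mul_apply, swap_apply_of_ne_of_ne hac had, swap_apply_left]
    have hvb : v b = a := by
      rw [hv, Perm.mul_apply, swap_apply_of_ne_of_ne hbc hbd, swap_apply_right]
    have hvc : v c = d := by
      rw [hv, Perm.mul_apply, swap_apply_left, swap_apply_of_ne_of_ne had.symm hbd.symm]
    have hvd : v d = c := by
      rw [hv, Perm.mul_apply, swap_apply_right, swap_apply_of_ne_of_ne hca hcb]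
    have hvz : ∀ z, z ≠ a → z ≠ b → z ≠ c → z ≠ d → v z = z := by
      intro z h1 h2 h3 h4
      rw [hv, Perm.mul_apply, swap_apply_of_ne_of_ne h3 h4, swap_apply_of_ne_of_ne h1 h2]
    have hvv : v * v = 1 := by
      ext z
      rw [Perm.mul_apply, Perm.one_apply]
      by_cases h2 : z = a
      · rw [h2, hva, hvb]
      by_cases h3 : z = b
      · rw [h3, hvb, hva]
      by_cases h4 : z = c
      · rw [h4, hvc, hvd]
      by_cases h5 : z = d
      · rw [h5, hvd, hvc]
      rw [hvz z h2 h3 h4 h5, hvz z h2 h3 h4 h5]
    have hsv : s * v = v * s := by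
      calc s * v = (s * swap a b) * swap c d := by rw [hv, mul_assoc]
        _ = (swap a b * s) * swap c d := by
          rw [mul_swap_eq_swap_mul s a b, hsa, hsb, swap_comm b a]
        _ = swap a b * (s * swap c d) := by rw [mul_assoc]
        _ = swap a b * (swap c d * s) := by
          rw [mul_swap_eq_swap_mul s c d, hsc, hsd, swap_comm d c]
        _ = v * s := by rw [hv, mul_assoc]
    set t : Perm α := s * v with ht
    have hta : t a = a := by rw [ht, Perm.mul_apply, hva, hsb]
    have htb : t b = b := by rw [ht, Perm.mul_apply, hvb, hsa]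
    have htc : t c = c := by rw [ht, Perm.mul_apply, hvc, hsd]
    have htd : t d = d := by rw [ht, Perm.mul_apply, hvd, hsc]
    have htz : ∀ z, z ≠ a → z ≠ b → z ≠ c → z ≠ d → t z = s z := by
      intro z h1 h2 h3 h4
      rw [ht, Perm.mul_apply, hvz z h1 h2 h3 h4]
    have htt : t * t = 1 := by
      calc t * t = (s * v) * (v * s) := by rw [← hsv]
        _ = s * (v * v) * s := by group
        _ = 1 := by rw [hvv, mul_one, hs]
    have htsg : sign t = 1 := by
      rw [ht, hv, Perm.sign_mul, Perm.sign_mul, hsg, sign_swap hab, sign_swap hcd]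
      decide
    have hsub : t.support ⊆ s.support.erase a := by
      intro z hz
      rw [mem_support] at hz
      have hza : z ≠ a := by
        rintro rfl
        exact hz hta
      have hzb : z ≠ b := by
        rintro rfl
        exact hz htb
      have hzc : z ≠ c := by
        rintro rfl
        exact hz htc
      have hzd : z ≠ d := by
        rintro rfl
        exact hz htd
      rw [Finset.mem_erase, mem_support]
      exact ⟨hza, by rw [← htz z hza hzb hzc hzd]; exact hz⟩
    have hcard' : t.support.card ≤ N := by
      have h2 := Finset.card_le_card hsub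
      rw [Finset.card_erase_of_mem (mem_support.2 ha)] at h2
      have h3 : 0 < s.support.card := Finset.card_pos.2 ⟨a, mem_support.2 ha⟩
      omega
    obtain ⟨X, Y, hX, hY, hfix, hXY⟩ := ih t hcard' htt htsg
    set x0 : Perm α := swap a b * swap b c with hx0
    set y0 : Perm α := swap a b * swap b d with hy0
    have cm : ∀ f : Perm α, f a = a → f b = b → f c = c → f d = d →
        f * x0 = x0 * f ∧ f * y0 = y0 * f ∧ f * v = v * f := by
      intro f fa fb fc fd
      refine ⟨?_, ?_, ?_⟩
      · rw [hx0, ← mul_assoc, comm_swap fa fb, mul_assoc, comm_swap fb fc, mul_assoc]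
      · rw [hy0, ← mul_assoc, comm_swap fa fb, mul_assoc, comm_swap fb fd, mul_assoc]
      · rw [hv, ← mul_assoc, comm_swap fa fb, mul_assoc, comm_swap fc fd, mul_assoc]
    obtain ⟨_, cXy, cXv⟩ := cm X (hfix a hta).1 (hfix b htb).1 (hfix c htc).1 (hfix d htd).1
    obtain ⟨cYx, _, cYv⟩ := cm Y (hfix a hta).2 (hfix b htb).2 (hfix c htc).2 (hfix d htd).2
    have hk : x0 * y0 = v * (y0 * x0) := klein hab hac had hbc hbd hcd
    refine ⟨X * x0, Y * y0, ?_, ?_, ?_, ?_⟩
    · rw [Perm.sign_mul, hX, hx0, Perm.sign_mul, sign_swap hab, sign_swap hbc]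
      decide
    · rw [Perm.sign_mul, hY, hy0, Perm.sign_mul, sign_swap hab, sign_swap hbd]
      decide
    · intro z hz
      have hza : z ≠ a := by
        rintro rfl
        exact ha hz
      have hzb : z ≠ b := by
        rintro rfl
        exact hab (hsb ▸ hz)
      have hzc : z ≠ c := by
        rintro rfl
        exact hc hz
      have hzd : z ≠ d := by
        rintro rfl
        exact hcd (hsd ▸ hz)
      have h2 := hfix z (by rw [htz z hza hzb hzc hzd]; exact hz)
      constructor
      · rw [hx0, Perm.mul_apply, Perm.mul_apply, swap_apply_of_ne_of_ne hzb hzc,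
          swap_apply_of_ne_of_ne hza hzb]
        exact h2.1
      · rw [hy0, Perm.mul_apply, Perm.mul_apply, swap_apply_of_ne_of_ne hzb hzd,
          swap_apply_of_ne_of_ne hza hzb]
        exact h2.2
    · have e1 : (X * x0) * (Y * y0) = (X * Y) * (x0 * y0) := by
        calc (X * x0) * (Y * y0) = X * (x0 * Y) * y0 := by group
          _ = X * (Y * x0) * y0 := by rw [cYx]
          _ = (X * Y) * (x0 * y0) := by group
      have e2 : (Y * y0) * (X * x0) = (Y * X) * (y0 * x0) := by
        calc (Y * y0) * (X * x0) = Y * (y0 * X) * x0 := by group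
          _ = Y * (X * y0) * x0 := by rw [cXy]
          _ = (Y * X) * (y0 * x0) := by group
      have e3 : X * Y = t * (Y * X) := by
        rw [hXY]
        group
      have e4 : (X * x0) * (Y * y0) = s * ((Y * y0) * (X * x0)) := by
        rw [e1, e2, hk, e3]
        calc t * (Y * X) * (v * (y0 * x0)) = t * Y * (X * v) * (y0 * x0) := by group
          _ = t * (Y * v) * X * (y0 * x0) := by rw [cXv]; group
          _ = (t * v) * (Y * X * (y0 * x0)) := by rw [cYv]; group
          _ = s * (Y * X * (y0 * x0)) := by rw [ht, mul_assoc s v v, hvv, mul_one]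
      calc s = s * ((Y * y0) * (X * x0)) * ((Y * y0) * (X * x0))⁻¹ := by group
        _ = (X * x0) * (Y * y0) * ((Y * y0) * (X * x0))⁻¹ := by rw [e4]
        _ = X * x0 * (Y * y0) * (X * x0)⁻¹ * (Y * y0)⁻¹ := by group

/-- An even permutation `s` with `s * s = 1` is a commutator of two even permutations.

PROOF.  Prove by strong induction on the number of the points moved by `s` the stronger statement:
for every permutation `s` of `Fin n` with `s * s = 1` and `sign s = 1` there are `x, y` with sign `1`
which fix every fixed point of `s` and satisfy `s = ⁅x, y⁆`.  If `s = 1` take `x = y = 1`.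
Otherwise choose `a` with `s a ≠ a` and put `b = s a` (so `s b = a`).  The permutation
`s' = s * swap a b` has sign `-1`, so it is not `1`; it fixes `a` and `b` and agrees with `s`
elsewhere, so there is `c ≠ a, b` with `s c ≠ c`; put `d = s c`, then `a, b, c, d` are distinct.  Let
`v = swap a b * swap c d` and `s'' = s * v`: it fixes `a, b, c, d` and agrees with `s` elsewhere;
`s'' * s'' = 1`, `sign s'' = 1`, and it moves fewer points.  By induction `s'' = ⁅X, Y⁆`, where
`X, Y` are even and fix all the fixed points of `s''`, in particular `a, b, c, d`.  Put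
`x₀ = swap a b * swap b c` and `y₀ = swap a b * swap b d` (3-cycles); a direct computation on
`a, b, c, d` shows that `⁅x₀, y₀⁆` is one of the three nontrivial elements of the Klein group on
`{a, b, c, d}`; choose the order of the letters (rename `b, c, d`) such that it is `v` (for instance
verify the identity in `Fin 4` by `decide` and transport it by an injection `Fin 4 → Fin n`, or check
it pointwise).  The permutations `x₀, y₀` move only `a, b, c, d`, so they commute with `X` and `Y`
(`Equiv.Perm.Disjoint.commute`), hence
`⁅X * x₀, Y * y₀⁆ = ⁅X, Y⁆ * ⁅x₀, y₀⁆ = s'' * v = s * v * v = s`. -/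
theorem even_involution_commutator {n : ℕ} (s : alternatingGroup (Fin n)) (hs : s * s = 1) :
    ∃ x y : alternatingGroup (Fin n), s = ⁅x, y⁆ := by
  have h1 : (s : Perm (Fin n)) * s = 1 := by
    rw [← Subgroup.coe_mul, hs, Subgroup.coe_one]
  obtain ⟨x, y, hx, hy, _, hxy⟩ := main _ (s : Perm (Fin n)) le_rfl h1
    (Equiv.Perm.mem_alternatingGroup.1 s.2)
  refine ⟨⟨x, Equiv.Perm.mem_alternatingGroup.2 hx⟩, ⟨y, Equiv.Perm.mem_alternatingGroup.2 hy⟩, ?_⟩
  apply Subtype.ext
  rw [hxy]
  rfl

end Pool.Agent.DF71
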