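import Pool.Agent.DF71.Ext
import Pool.Agent.DF71.Inv2
import Pool.Agent.DF71.V4

set_option autoImplicit false

/-!
# DF71/Alt4: every element of an alternating group is a product of four commutators  (OPEN MODULE)

Keep the statements exactly; extra lemmas `private`.
-/

namespace Pool.Agent.DF71

open scoped commutatorElement

universe u

/-- If `n ≥ 6` every element of the alternating group of `Fin n` is a product of four
commutators.

PROOF.  Choose distinct `y₁, y₂` (for instance `0, 1`).  The set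
`{y₁, y₂, σ⁻¹ y₁, σ⁻¹ y₂}` has at most four elements, so there are `z₁ ≠ z₂` outside it.  By
`ext_even` with index set `Fin 4`, `p = ![σ⁻¹ y₁, σ⁻¹ y₂, z₁, z₂]`, `q = ![y₁, y₂, z₁, z₂]` (both
injective, `4 + 2 ≤ n`) there is an even `c` with `c (σ⁻¹ y_i) = y_i` and `c z_i = z_i`.  Then `c`
has the fixed points `z₁ ≠ z₂` and `σ' = σ * c⁻¹` has the fixed points `y₁ ≠ y₂`
(`c⁻¹ y_i = σ⁻¹ y_i`).  By `two_even_involutions` both `σ'` and `c` are products of two even
involutions, each of which is a commutator by `even_involution_commutator`; `σ = σ' * c`. -/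
theorem alt4 {n : ℕ} (hn : 6 ≤ n) (σ : alternatingGroup (Fin n)) :
    ∃ a b : Fin 4 → alternatingGroup (Fin n),
      σ = ⁅a 0, b 0⁆ * ⁅a 1, b 1⁆ * ⁅a 2, b 2⁆ * ⁅a 3, b 3⁆ := by
  classical
  set S : Equiv.Perm (Fin n) := (σ : Equiv.Perm (Fin n)) with hS
  obtain ⟨y1, y2, hy⟩ : ∃ y1 y2 : Fin n, y1 ≠ y2 :=
    ⟨⟨0, by omega⟩, ⟨1, by omega⟩, by simp [Fin.ext_iff]⟩
  set B : Finset (Fin n) := {y1, y2, S⁻¹ y1, S⁻¹ y2} with hB
  have hBc : B.card ≤ 4 := Finset.card_le_four
  have hcomp : 1 < (Bᶜ).card := by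
    rw [Finset.card_compl, Fintype.card_fin]
    omega
  obtain ⟨z1, hz1, z2, hz2, hz⟩ := Finset.one_lt_card.1 hcomp
  rw [Finset.mem_compl] at hz1 hz2
  simp only [hB, Finset.mem_insert, Finset.mem_singleton, not_or] at hz1 hz2
  obtain ⟨a1, a2, a3, a4⟩ := hz1
  obtain ⟨b1, b2, b3, b4⟩ := hz2
  have hyS : S⁻¹ y1 ≠ S⁻¹ y2 := fun h => hy (S⁻¹.injective h)
  obtain ⟨c, hc⟩ := ext_even (I := Fin 4) ![S⁻¹ y1, S⁻¹ y2, z1, z2] ![y1, y2, z1, z2]
    (by
      intro i j hij
      fin_cases i <;> fin_cases j <;> simp at hij ⊢ <;>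
        first
        | exact hyS hij
        | exact hyS hij.symm
        | exact a3 hij.symm
        | exact a3 hij
        | exact a4 hij.symm
        | exact a4 hij
        | exact b3 hij.symm
        | exact b3 hij
        | exact b4 hij.symm
        | exact b4 hij
        | exact hz hij
        | exact hz hij.symm
        | exact hy hij
        | exact hy hij.symm)
    (by
      intro i j hij
      fin_cases i <;> fin_cases j <;> simp at hij ⊢ <;>
        first
        | exact hy hij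
        | exact hy hij.symm
        | exact a1 hij.symm
        | exact a1 hij
        | exact a2 hij.symm
        | exact a2 hij
        | exact b1 hij.symm
        | exact b1 hij
        | exact b2 hij.symm
        | exact b2 hij
        | exact hz hij
        | exact hz hij.symm)
    (by rw [Nat.card_eq_fintype_card, Fintype.card_fin]; omega)
  set C : Equiv.Perm (Fin n) := (c : Equiv.Perm (Fin n)) with hC
  have hc0 : C (S⁻¹ y1) = y1 := hc 0
  have hc1 : C (S⁻¹ y2) = y2 := hc 1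
  have hc2 : C z1 = z1 := hc 2
  have hc3 : C z2 = z2 := hc 3
  have e1 : ((σ * c⁻¹ : alternatingGroup (Fin n)) : Equiv.Perm (Fin n)) y1 = y1 := by
    change (S * C⁻¹) y1 = y1
    rw [Equiv.Perm.mul_apply]
    have : C⁻¹ y1 = S⁻¹ y1 := by rw [Equiv.Perm.inv_eq_iff_eq]; exact hc0.symm
    rw [this]; simp
  have e2 : ((σ * c⁻¹ : alternatingGroup (Fin n)) : Equiv.Perm (Fin n)) y2 = y2 := by
    change (S * C⁻¹) y2 = y2
    rw [Equiv.Perm.mul_apply]
    have : C⁻¹ y2 = S⁻¹ y2 := by rw [Equiv.Perm.inv_eq_iff_eq]; exact hc1.symm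
    rw [this]; simp
  obtain ⟨s1, s2, h1, h2, h12⟩ := two_even_involutions (σ * c⁻¹) y1 y2 hy e1 e2
  obtain ⟨s3, s4, h3, h4, h34⟩ := two_even_involutions c z1 z2 hz hc2 hc3
  obtain ⟨x1, w1, g1⟩ := even_involution_commutator s1 h1
  obtain ⟨x2, w2, g2⟩ := even_involution_commutator s2 h2
  obtain ⟨x3, w3, g3⟩ := even_involution_commutator s3 h3
  obtain ⟨x4, w4, g4⟩ := even_involution_commutator s4 h4
  refine ⟨![x1, x2, x3, x4], ![w1, w2, w3, w4], ?_⟩
  have hσ : σ = (σ * c⁻¹) * c := by group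
  rw [hσ, h12, h34]
  change s1 * s2 * (s3 * s4) = ⁅x1, w1⁆ * ⁅x2, w2⁆ * ⁅x3, w3⁆ * ⁅x4, w4⁆
  rw [← g1, ← g2, ← g3, ← g4]
  group

/-- The family version (choose for every `t`; equality in `Ev n` is pointwise:
`funext`, and `commutatorElement_def` with `Pi.mul_apply`, `Pi.inv_apply`). -/
theorem alt4_family {T : Type u} {n : T → ℕ} (hn : ∀ t, 6 ≤ n t) (σ : Ev n) :
    ∃ a b : Fin 4 → Ev n,
      σ = ⁅a 0, b 0⁆ * ⁅a 1, b 1⁆ * ⁅a 2, b 2⁆ * ⁅a 3, b 3⁆ := by
  choose a b hab using fun t => alt4 (hn t) (σ t)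
  refine ⟨fun i t => a t i, fun i t => b t i, ?_⟩
  funext t
  exact hab t

end Pool.Agent.DF71
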