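import Pool.Agent.DF71.Defs

set_option autoImplicit false

/-!
# DF71/Supp: the calculus of supports in a castle  (OPEN MODULE)

`C.Sup S` (see `Defs`) is the subgroup of the elements which fix every point whose level is not in
`S`.  Keep the statements exactly; extra lemmas `private`.
-/

namespace Pool.Agent.DF71

universe u v w

variable {Γ : Type v} {X : Type w} [Group Γ] {ρ : Γ →* Equiv.Perm X} {T : Type u} {n : T → ℕ}

theorem Castle.Sup_mono (C : Castle ρ n) {S S' : Set (Lvl n)} (h : S ⊆ S') :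
    C.Sup S ≤ C.Sup S' :=
  fun _ hg x hx => hg x fun hx' => hx (h hx')

private theorem Castle.lev_mem (C : Castle ρ n) {S : Set (Lvl n)} {g : Γ} (hg : g ∈ C.Sup S)
    {x : X} (hx : C.lev x ∈ S) : C.lev (ρ g x) ∈ S := by
  by_contra h
  have h1 := (ρ g).injective (hg (ρ g x) h)
  rw [h1] at h
  exact h hx

/-- Elements with disjoint supports commute.

PROOF.  By `hρ` it is enough that `ρ (g * h) = ρ (h * g)`; check it at every `x`.  First: if
`lev x ∈ S` then `lev (ρ g x) ∈ S`; otherwise `ρ g (ρ g x) = ρ g x`, hence `ρ g x = x` by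
injectivity, and `lev (ρ g x) = lev x ∈ S`, a contradiction.  If `lev x ∈ S` both sides are `ρ g x`
(`h` fixes `x` and `ρ g x`, whose levels are in `S`, hence not in `S'`); if `lev x ∈ S'` both sides
are `ρ h x`; otherwise both sides are `x`. -/
theorem Castle.commute_of_disjoint (C : Castle ρ n) (hρ : Function.Injective ρ)
    {S S' : Set (Lvl n)} (hS : Disjoint S S') {g h : Γ} (hg : g ∈ C.Sup S) (hh : h ∈ C.Sup S') :
    Commute g h := by
  apply hρ
  rw [map_mul, map_mul]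
  ext x
  rw [Equiv.Perm.mul_apply, Equiv.Perm.mul_apply]
  by_cases h1 : C.lev x ∈ S
  · have h2 : C.lev x ∉ S' := Set.disjoint_left.1 hS h1
    have h3 : C.lev (ρ g x) ∉ S' := Set.disjoint_left.1 hS (C.lev_mem hg h1)
    rw [hh x h2, hh (ρ g x) h3]
  · by_cases h2 : C.lev x ∈ S'
    · have h3 : C.lev (ρ h x) ∉ S := Set.disjoint_right.1 hS (C.lev_mem hh h2)
      rw [hg x h1, hg (ρ h x) h3]
    · rw [hg x h1, hh x h2, hg x h1]

/-- The support of a conjugate.

PROOF.  Let `lev x ∉ lact σ '' S` and `y = ρ (Λ σ)⁻¹ x`.  By `lev_act` for `σ⁻¹`,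
`lev y = lact σ⁻¹ (lev x)`, which is not in `S` (otherwise `lev x = lact σ (lev y)` would be in the
image).  So `ρ g y = y` and `ρ (Λ σ * g * (Λ σ)⁻¹) x = ρ (Λ σ) y = x`. -/
theorem Castle.conj_mem (C : Castle ρ n) (σ : Ev n) {S : Set (Lvl n)} {g : Γ}
    (hg : g ∈ C.Sup S) : C.Λ σ * g * (C.Λ σ)⁻¹ ∈ C.Sup (lact σ '' S) := by
  intro x hx
  have h1 : C.lev (ρ (C.Λ σ)⁻¹ x) = lact σ⁻¹ (C.lev x) := by
    rw [← map_inv C.Λ, C.lev_act]
  have h2 : C.lev (ρ (C.Λ σ)⁻¹ x) ∉ S := by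
    intro h3
    apply hx
    refine ⟨_, h3, ?_⟩
    rw [h1, lact_lact_inv]
  rw [map_mul, map_mul, Equiv.Perm.mul_apply, Equiv.Perm.mul_apply, hg _ h2, ← Equiv.Perm.mul_apply,
    ← map_mul, mul_inv_cancel, map_one, Equiv.Perm.one_apply]

/-- If `σ` and `τ` agree on `S`, they conjugate an element supported in `S` to the same element.

PROOF.  Let `π = τ⁻¹ * σ`; it fixes every level in `S`, so by `C.fix` the element `Λ π` fixes every
`x` with `lev x ∈ S`, that is `Λ π ∈ C.Sup Sᶜ`.  By `commute_of_disjoint` it commutes with `g`.  As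
`Λ σ = Λ τ * Λ π`, the claim follows. -/
theorem Castle.conj_congr (C : Castle ρ n) (hρ : Function.Injective ρ) {σ τ : Ev n}
    {S : Set (Lvl n)} (h : ∀ l ∈ S, lact σ l = lact τ l) {g : Γ} (hg : g ∈ C.Sup S) :
    C.Λ σ * g * (C.Λ σ)⁻¹ = C.Λ τ * g * (C.Λ τ)⁻¹ := by
  have h1 : C.Λ (τ⁻¹ * σ) ∈ C.Sup Sᶜ := by
    intro x hx
    have hx' : C.lev x ∈ S := not_not.1 hx
    apply C.fix
    rw [lact_mul, h _ hx', lact_inv_lact]
  have h2 : Commute g (C.Λ (τ⁻¹ * σ)) :=
    C.commute_of_disjoint hρ disjoint_compl_right hg h1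
  have h3 : C.Λ σ = C.Λ τ * C.Λ (τ⁻¹ * σ) := by
    rw [← map_mul, mul_inv_cancel_left]
  rw [h3, mul_inv_rev, mul_assoc (C.Λ τ), ← h2.eq]
  group

/-- If `e` acts as `Λ σ` outside the levels of `J`, then `(Λ σ)⁻¹ * e` is supported in `J`. -/
theorem Castle.hat_mem (C : Castle ρ n) {σ : Ev n} {J : Set (Lvl n)} {e : Γ}
    (h : ∀ x, C.lev x ∉ J → ρ e x = ρ (C.Λ σ) x) : (C.Λ σ)⁻¹ * e ∈ C.Sup J := by
  intro x hx
  rw [map_mul, Equiv.Perm.mul_apply, h x hx, ← Equiv.Perm.mul_apply, ← map_mul, inv_mul_cancel,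
    map_one, Equiv.Perm.one_apply]

/-- The number of the levels in a tower does not change under the action. -/
theorem slice_image_ncard (σ : Ev n) (S : Set (Lvl n)) (t : T) :
    (slice (lact σ '' S) t).ncard = (slice S t).ncard := by
  have h1 : slice (lact σ '' S) t = (σ t : Equiv.Perm (Fin (n t))) '' slice S t := by
    ext i
    constructor
    · rintro ⟨l, hl, h2⟩
      obtain ⟨t', j⟩ := l
      have h3 : t' = t := congrArg Sigma.fst h2
      subst h3
      have h4 : (σ t' : Equiv.Perm (Fin (n t'))) j = i := by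
        simpa [lact] using h2
      exact ⟨j, hl, h4⟩
    · rintro ⟨j, hj, rfl⟩
      exact ⟨⟨t, j⟩, hj, rfl⟩
  rw [h1]
  exact Set.ncard_image_of_injective _ (Equiv.injective _)

end Pool.Agent.DF71
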