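import Pool.Agent.DF71.Defs

set_option autoImplicit false

/-!
# DF71/Tele: spreading a product along the translates by one element  (OPEN MODULE)

Keep the statements exactly; extra lemmas `private`.  `pr m u` is the ordered product
`u 0 * ⋯ * u (m - 1)`, see `Defs` (`pr_zero`, `pr_succ`, `pr_congr`).
-/

namespace Pool.Agent.DF71

open scoped commutatorElement

universe v

variable {G : Type v} [Group G]

private theorem comm_pr (m : ℕ) (v : ℕ → G) (x : G) (h : ∀ i, i < m → Commute (v i) x) :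
    Commute (pr m v) x := by
  induction m with
  | zero => simp
  | succ m ih =>
    rw [pr_succ]
    exact (ih (fun i hi => h i (by omega))).mul_left (h m (by omega))

private theorem pr_succ_left (m : ℕ) (w : ℕ → G) :
    pr (m + 1) w = w 0 * pr m (fun j => w (j + 1)) := by
  induction m with
  | zero => rw [pr_succ, pr_zero, pr_zero, one_mul, mul_one]
  | succ m ih => rw [pr_succ, ih, pr_succ, mul_assoc]

private theorem pr_eq_one (m : ℕ) (w : ℕ → G) (h : ∀ i, i < m → w i = 1) : pr m w = 1 := by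
  induction m with
  | zero => simp
  | succ m ih => rw [pr_succ, ih (fun i hi => h i (by omega)), h m (by omega), one_mul]

private theorem conj_pr (m : ℕ) (u : ℕ → G) (x : G) :
    x * pr m u * x⁻¹ = pr m (fun i => x * u i * x⁻¹) := by
  induction m with
  | zero => simp
  | succ m ih => rw [pr_succ, pr_succ, ← ih]; group

private theorem pr_congr' (m : ℕ) (u v : ℕ → G) (h : ∀ i, i < m → u i = v i) :
    pr m u = pr m v := by
  induction m with
  | zero => simp
  | succ m ih => rw [pr_succ, pr_succ, ih (fun i hi => h i (by omega)), h m (by omega)]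

/-- Products of commuting families multiply termwise. -/
theorem pr_mul_pr (m : ℕ) (u v : ℕ → G)
    (h : ∀ i j, i < j → j < m → Commute (v i) (u j)) :
    pr m u * pr m v = pr m (fun i => u i * v i) := by
  induction m with
  | zero => simp
  | succ m ih =>
    rw [pr_succ, pr_succ, pr_succ, ← ih (fun i j hij hj => h i j hij (by omega))]
    have hc : Commute (pr m v) (u m) := comm_pr m v (u m) (fun i hi => h i m hi (by omega))
    calc pr m u * u m * (pr m v * v m) = pr m u * (u m * pr m v) * v m := by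
          simp only [mul_assoc]
      _ = pr m u * (pr m v * u m) * v m := by rw [hc.eq]
      _ = pr m u * pr m v * (u m * v m) := by simp only [mul_assoc]

/-- **Telescoping.**  Let `S` be a subgroup such that `f^i S f^{-i}` and `f^j S f^{-j}` commute for
`0 ≤ i < j ≤ N`, and `u 0, …, u (N - 1) ∈ S`.  Then `u 0 * ⋯ * u (N - 1)` is a commutator
`⁅D, f⁆` times the product of the `f^{j+1} u j f^{-(j+1)}`. -/
theorem tele (N : ℕ) (f : G) (S : Subgroup G) (u : ℕ → G) (hu : ∀ j, j < N → u j ∈ S)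
    (hc : ∀ i j, i < j → j ≤ N → ∀ s ∈ S, ∀ t ∈ S,
      Commute (f ^ i * s * (f ^ i)⁻¹) (f ^ j * t * (f ^ j)⁻¹)) :
    ∃ D : G, pr N u = ⁅D, f⁆ * pr N (fun j => f ^ (j + 1) * u j * (f ^ (j + 1))⁻¹) := by
  classical
  obtain ⟨d, hd0, hdN, hdS, hdr⟩ : ∃ d : ℕ → G, d 0 = pr N u ∧ d N = 1 ∧ (∀ j, d j ∈ S) ∧
      ∀ j, j < N → d j = u j * d (j + 1) := by
    refine ⟨fun j => ((List.range' j (N - j)).map u).prod, ?_, ?_, ?_, ?_⟩
    · simp only [Nat.sub_zero, pr, List.range_eq_range']
    · simp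
    · intro j
      refine Subgroup.list_prod_mem S ?_
      intro x hx
      rw [List.mem_map] at hx
      obtain ⟨i, hi, rfl⟩ := hx
      rw [List.mem_range'_1] at hi
      exact hu i (by omega)
    · intro j hj
      have h1 : N - j = (N - (j + 1)) + 1 := by omega
      simp only [h1, List.range'_succ, List.map_cons, List.prod_cons]
  have hmul : ∀ s t : ℕ → G, (∀ j, j ≤ N → s j ∈ S) → (∀ j, j ≤ N → t j ∈ S) →
      pr (N + 1) (fun j => f ^ j * s j * (f ^ j)⁻¹) * pr (N + 1) (fun j => f ^ j * t j * (f ^ j)⁻¹)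
        = pr (N + 1) (fun j => f ^ j * (s j * t j) * (f ^ j)⁻¹) := by
    intro s t hs ht
    rw [pr_mul_pr (N + 1) _ _ (fun i j hij hj =>
      hc i j hij (by omega) (t i) (ht i (by omega)) (s j) (hs j (by omega)))]
    apply pr_congr'
    intro i _
    group
  set d' : ℕ → G := fun j => if j = 0 then 1 else d (j - 1) with hd'
  have hd'S : ∀ j, j ≤ N → d' j ∈ S := by
    intro j _
    rw [hd']
    by_cases h : j = 0
    · simp [h, S.one_mem]
    · simp [h, hdS]
  set v : ℕ → G := fun j => if j = 0 then 1 else u (j - 1) with hv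
  have hvS : ∀ j, j ≤ N → v j ∈ S := by
    intro j hj
    rw [hv]
    by_cases h : j = 0
    · simp [h, S.one_mem]
    · simp only [h, if_false]
      exact hu _ (by omega)
  have hP : pr N (fun j => f ^ (j + 1) * u j * (f ^ (j + 1))⁻¹)
      = pr (N + 1) (fun j => f ^ j * v j * (f ^ j)⁻¹) := by
    rw [pr_succ_left]
    simp [hv]
  have hD : f * pr (N + 1) (fun j => f ^ j * d j * (f ^ j)⁻¹) * f⁻¹
      = pr (N + 1) (fun j => f ^ j * d' j * (f ^ j)⁻¹) := by
    rw [conj_pr, pr_succ, pr_succ_left N (fun j => f ^ j * d' j * (f ^ j)⁻¹)]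
    have h1 : f * (f ^ N * d N * (f ^ N)⁻¹) * f⁻¹ = 1 := by
      rw [hdN]; group
    rw [h1, mul_one]
    have h2 : f ^ 0 * d' 0 * (f ^ 0)⁻¹ = 1 := by simp [hd']
    rw [h2, one_mul]
    apply pr_congr'
    intro i _
    have h3 : d' (i + 1) = d i := by simp [hd']
    rw [h3, pow_succ']
    group
  have hinv : pr (N + 1) (fun j => f ^ j * d' j * (f ^ j)⁻¹)
      * pr (N + 1) (fun j => f ^ j * (d' j)⁻¹ * (f ^ j)⁻¹) = 1 := by
    rw [hmul d' (fun j => (d' j)⁻¹) hd'S (fun j hj => S.inv_mem (hd'S j hj))]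
    apply pr_eq_one
    intro i _
    group
  refine ⟨pr (N + 1) (fun j => f ^ j * d j * (f ^ j)⁻¹), ?_⟩
  have hcomm : ⁅pr (N + 1) (fun j => f ^ j * d j * (f ^ j)⁻¹), f⁆
      = pr (N + 1) (fun j => f ^ j * d j * (f ^ j)⁻¹)
        * pr (N + 1) (fun j => f ^ j * (d' j)⁻¹ * (f ^ j)⁻¹) := by
    rw [← inv_eq_of_mul_eq_one_right hinv, ← hD, commutatorElement_def]
    group
  rw [hcomm, hP, hmul d (fun j => (d' j)⁻¹) (fun j _ => hdS j)
    (fun j hj => S.inv_mem (hd'S j hj)),
    hmul (fun j => d j * (d' j)⁻¹) v (fun j hj => S.mul_mem (hdS j) (S.inv_mem (hd'S j hj))) hvS,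
    pr_succ_left]
  have h5 : pr N (fun j => f ^ (j + 1) * (d (j + 1) * (d' (j + 1))⁻¹ * v (j + 1))
      * (f ^ (j + 1))⁻¹) = 1 := by
    apply pr_eq_one
    intro i hi
    have h3 : d' (i + 1) = d i := by simp [hd']
    have h4 : v (i + 1) = u i := by simp [hv]
    rw [h3, h4, hdr i hi]
    group
  rw [h5, mul_one, ← hd0]
  simp [hd', hv]

/-- **Pairing.**  If `θ` conjugates `(p i)⁻¹` to `q i` and different indices commute, the product
of the `p i * q i` is a single commutator. -/
theorem pair (m : ℕ) (θ : G) (p q : ℕ → G)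
    (hp : ∀ i j, i ≠ j → i < m → j < m → Commute (p i) (p j))
    (hq : ∀ i j, i ≠ j → i < m → j < m → Commute (p i) (q j))
    (hθ : ∀ i, i < m → θ * (p i)⁻¹ * θ⁻¹ = q i) :
    pr m (fun i => p i * q i) = ⁅pr m p, θ⁆ := by
  rw [← pr_mul_pr m p q (fun i j hij hj => (hq j i (by omega) hj (by omega)).symm)]
  have h1 : pr m p * pr m (fun i => (p i)⁻¹) = 1 := by
    rw [pr_mul_pr m p (fun i => (p i)⁻¹)
      (fun i j hij hj => (hp i j (by omega) (by omega) hj).inv_left)]
    apply pr_eq_one
    intro i _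
    simp
  have h2 : pr m q = θ * (pr m p)⁻¹ * θ⁻¹ := by
    rw [inv_eq_of_mul_eq_one_right h1, conj_pr]
    apply pr_congr'
    intro i hi
    exact (hθ i hi).symm
  rw [h2, commutatorElement_def]
  group

end Pool.Agent.DF71
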