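import Pool.Agent.DF71.Cyc
import Pool.Agent.DF71.Supp
import Pool.Agent.DF71.Tele

set_option autoImplicit false

/-!
# DF71/Swallow: a product of conjugates of small elements and their inverses is a product of two
commutators  (OPEN MODULE)

Keep the statement exactly; extra lemmas `private`.  The modules `Cyc`, `Supp`, `Tele` may be used
as they stand.
-/

namespace Pool.Agent.DF71

open scoped commutatorElement

universe u v w

variable {Γ : Type v} {X : Type w} [Group Γ] {ρ : Γ →* Equiv.Perm X} {T : Type u} {n : T → ℕ}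

private def sel {A : Type*} (a b c d : ℕ → A) (j : ℕ) : A :=
  if j % 4 = 0 then a (j / 4) else if j % 4 = 1 then b (j / 4) else if j % 4 = 2 then c (j / 4)
    else d (j / 4)

private theorem sel0 {A : Type*} (a b c d : ℕ → A) (i : ℕ) : sel a b c d (4 * i) = a i := by
  have h1 : 4 * i % 4 = 0 := by omega
  have h2 : 4 * i / 4 = i := by omega
  rw [sel, h1, h2]
  rfl

private theorem sel1 {A : Type*} (a b c d : ℕ → A) (i : ℕ) : sel a b c d (4 * i + 1) = b i := by
  have h1 : (4 * i + 1) % 4 = 1 := by omega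
  have h2 : (4 * i + 1) / 4 = i := by omega
  rw [sel, h1, h2]
  rfl

private theorem sel2 {A : Type*} (a b c d : ℕ → A) (i : ℕ) : sel a b c d (4 * i + 2) = c i := by
  have h1 : (4 * i + 2) % 4 = 2 := by omega
  have h2 : (4 * i + 2) / 4 = i := by omega
  rw [sel, h1, h2]
  rfl

private theorem sel3 {A : Type*} (a b c d : ℕ → A) (i : ℕ) : sel a b c d (4 * i + 3) = d i := by
  have h1 : (4 * i + 3) % 4 = 3 := by omega
  have h2 : (4 * i + 3) / 4 = i := by omega
  rw [sel, h1, h2]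
  rfl

private theorem four_cases {P : ℕ → Prop} {m : ℕ} (h0 : ∀ i, i < m → P (4 * i))
    (h1 : ∀ i, i < m → P (4 * i + 1)) (h2 : ∀ i, i < m → P (4 * i + 2))
    (h3 : ∀ i, i < m → P (4 * i + 3)) (j : ℕ) (hj : j < 4 * m) : P j := by
  have hi : j / 4 < m := by omega
  have hr : j % 4 = 0 ∨ j % 4 = 1 ∨ j % 4 = 2 ∨ j % 4 = 3 := by omega
  rcases hr with hr | hr | hr | hr
  · have := h0 _ hi
    rwa [show 4 * (j / 4) = j by omega] at this
  · have := h1 _ hi
    rwa [show 4 * (j / 4) + 1 = j by omega] at this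
  · have := h2 _ hi
    rwa [show 4 * (j / 4) + 2 = j by omega] at this
  · have := h3 _ hi
    rwa [show 4 * (j / 4) + 3 = j by omega] at this

private theorem slice_iUnion (N : ℕ) (U : ℕ → Set (Lvl n)) (t : T) :
    (slice (⋃ j : Fin N, U j) t).ncard ≤ ∑ j : Fin N, (slice (U j) t).ncard := by
  have h1 : slice (⋃ j : Fin N, U j) t = ⋃ j : Fin N, slice (U j) t := by
    ext i
    simp only [slice, Set.mem_iUnion, Set.mem_ofPred_eq]
  rw [h1]
  induction N with
  | zero => simp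
  | succ N ih =>
    rw [Fin.sum_univ_castSucc]
    have h2 : (⋃ j : Fin (N + 1), slice (U j) t) =
        (⋃ j : Fin N, slice (U j) t) ∪ slice (U (Fin.last N : Fin (N + 1))) t := by
      ext i
      simp only [Set.mem_iUnion, Set.mem_union]
      constructor
      · rintro ⟨j, hj⟩
        rcases Fin.eq_castSucc_or_eq_last j with ⟨k, rfl⟩ | rfl
        · exact Or.inl ⟨k, hj⟩
        · exact Or.inr hj
      · rintro (⟨j, hj⟩ | hj)
        · exact ⟨j.castSucc, hj⟩
        · exact ⟨Fin.last N, hj⟩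
    rw [h2]
    refine (Set.ncard_union_le _ _).trans ?_
    refine Nat.add_le_add ?_ le_rfl
    apply ih
    ext i
    simp only [slice, Set.mem_iUnion, Set.mem_ofPred_eq]

private theorem inj_aux {k : ℕ} (z : Fin k → Ev n) (K : Fin k → Set (Lvl n))
    (hd : ∀ i j, i ≠ j → Disjoint (lact (z i) '' K i) (lact (z j) '' K j)) (t : T) :
    Function.Injective (fun x : (Σ j : Fin k, slice (K j) t) =>
      ((z x.1) t : Equiv.Perm (Fin (n t))) x.2) := by
  rintro ⟨i, l, hl⟩ ⟨j, l', hl'⟩ h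
  simp only at h
  have h1 : (⟨t, ((z i) t : Equiv.Perm (Fin (n t))) l⟩ : Lvl n) ∈ lact (z i) '' K i :=
    ⟨⟨t, l⟩, hl, rfl⟩
  have h2 : (⟨t, ((z j) t : Equiv.Perm (Fin (n t))) l'⟩ : Lvl n) ∈ lact (z j) '' K j :=
    ⟨⟨t, l'⟩, hl', rfl⟩
  by_cases hij : i = j
  · subst hij
    have h3 : l = l' := (((z i) t : Equiv.Perm (Fin (n t)))).injective h
    subst h3
    rfl
  · exfalso
    rw [h] at h1
    exact Set.disjoint_left.1 (hd i j hij) h1 h2

/-- **Swallowing.**  Let `α i, β i` (`i < m`) be supported in sets of levels `Ja i, Jb i` which have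
at most the proportion `1 / (8 m (4 m + 1))` in every tower.  Then the product of the blocks is a
product of two commutators.

PROOF.  Let `u : ℕ → Γ`, `u (4i) = Λ(ξ i) α_i Λ(ξ i)⁻¹`, `u (4i+1) = Λ(υ i) β_i Λ(υ i)⁻¹`,
`u (4i+2) = Λ(υ i) α_i⁻¹ Λ(υ i)⁻¹`, `u (4i+3) = Λ(ω i) β_i⁻¹ Λ(ω i)⁻¹`
(define `u j` by `j % 4` and `i = j / 4`), similarly `ζ : ℕ → Ev n`
(`ζ (4i) = ξ i, ζ (4i+1) = ζ (4i+2) = υ i, ζ (4i+3) = ω i`), `e j` the element `α_i^{±1}` or
`β_i^{±1}` and `J j` (`Ja i` for `j = 4i, 4i+2`, `Jb i` for `j = 4i+1, 4i+3`), so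
`u j = Λ(ζ j) e_j Λ(ζ j)⁻¹` is supported in `U j = lact (ζ j) '' J j` (`C.conj_mem`).  By `pr_four`
the left-hand side is `pr (4m) u`.  Let `S = ⋃_{j < 4m} U j`; by `slice_image_ncard`
`|slice S t| ≤ ∑_{j < 4m} |slice (J j) t|`, so `8m(4m+1) |slice S t| ≤ 4m n_t`, and (if `m > 0`)
`2 (4m+1) |slice S t| ≤ n t`, hence `(4m + 1) |slice S t| + 2 ≤ n t` because `n t ≥ 8`
(if `m = 0` the left-hand side is `1 = ⁅1, 1⁆ * ⁅1, 1⁆`).  Take `f` from `cyc_family (4m) S`.  By
`C.conj_mem`, `C.commute_of_disjoint` the hypothesis of `tele` (with `N = 4m`, the element `Λ f` and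
the subgroup `C.Sup S`; `(Λ f)^i = Λ (f^i)`) holds, so
`pr (4m) u = ⁅D, Λ f⁆ * pr (4m) w`, `w j = Λ(z j) e_j Λ(z j)⁻¹`, `z j = f^(j+1) * ζ j`.
By `pr_four` again `pr (4m) w = pr m (p i * q i)` with `p i = w (4i) * w (4i+1)`,
`q i = w (4i+2) * w (4i+3)`.  The sets `W j = lact (z j) '' J j ⊆ lact (f^(j+1)) '' S` are pairwise
disjoint for `j < 4m`, so the `w j` commute pairwise.

The element `θ`: apply `ext_family` to the index types
`I t = Σ i : Fin m, (slice (Ja i) t) ⊕ (slice (Jb i) t)` with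
`p (i, inl l) = z (4i) l`, `q (i, inl l) = z (4i+2) l`, `p (i, inr l) = z (4i+1) l`,
`q (i, inr l) = z (4i+3) l` (second components of `lact`): injective because the `W j` are disjoint
and each `z j` is injective; `2 |I t| ≤ n t`, so `|I t| + 2 ≤ n t` as `n t ≥ 8`.  The `θ` obtained
satisfies `lact (θ * z (4i)) l = lact (z (4i+2)) l` for `l ∈ Ja i` and
`lact (θ * z (4i+1)) l = lact (z (4i+3)) l` for `l ∈ Jb i`, so by `C.conj_congr`
`Λθ (w (4i))⁻¹ Λθ⁻¹ = w (4i+2)` and `Λθ (w (4i+1))⁻¹ Λθ⁻¹ = w (4i+3)`, whence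
`Λθ (p i)⁻¹ Λθ⁻¹ = q i` (`w (4i)` and `w (4i+1)` commute).  Conclude by `pair`. -/
theorem swallow (C : Castle ρ n) (hρ : Function.Injective ρ) (h8 : ∀ t, 8 ≤ n t) (m : ℕ)
    (α β : ℕ → Γ) (Ja Jb : ℕ → Set (Lvl n)) (ξ υ ω : ℕ → Ev n)
    (hα : ∀ i, i < m → α i ∈ C.Sup (Ja i)) (hβ : ∀ i, i < m → β i ∈ C.Sup (Jb i))
    (hJa : ∀ i, i < m → ∀ t, (8 * m * (4 * m + 1)) * (slice (Ja i) t).ncard ≤ n t)
    (hJb : ∀ i, i < m → ∀ t, (8 * m * (4 * m + 1)) * (slice (Jb i) t).ncard ≤ n t) :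
    ∃ A B A' B' : Γ,
      pr m (fun i => (C.Λ (ξ i) * α i * (C.Λ (ξ i))⁻¹) * (C.Λ (υ i) * β i * (C.Λ (υ i))⁻¹) *
          (C.Λ (υ i) * (α i)⁻¹ * (C.Λ (υ i))⁻¹) * (C.Λ (ω i) * (β i)⁻¹ * (C.Λ (ω i))⁻¹)) =
        ⁅A, B⁆ * ⁅A', B'⁆ := by
  rcases Nat.eq_zero_or_pos m with rfl | hm
  · exact ⟨1, 1, 1, 1, by simp⟩
  -- the pieces
  set ζ : ℕ → Ev n := sel ξ υ υ ω with hζ
  set e : ℕ → Γ := sel α β (fun i => (α i)⁻¹) (fun i => (β i)⁻¹) with he
  set J : ℕ → Set (Lvl n) := sel Ja Jb Ja Jb with hJ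
  set u : ℕ → Γ := fun j => C.Λ (ζ j) * e j * (C.Λ (ζ j))⁻¹ with hu
  have heJ : ∀ j, j < 4 * m → e j ∈ C.Sup (J j) := by
    apply four_cases
    · intro i hi
      rw [he, hJ, sel0, sel0]
      exact hα i hi
    · intro i hi
      rw [he, hJ, sel1, sel1]
      exact hβ i hi
    · intro i hi
      rw [he, hJ, sel2, sel2]
      exact inv_mem (hα i hi)
    · intro i hi
      rw [he, hJ, sel3, sel3]
      exact inv_mem (hβ i hi)
  have hJn : ∀ j, j < 4 * m → ∀ t, (8 * m * (4 * m + 1)) * (slice (J j) t).ncard ≤ n t := by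
    apply four_cases
    · intro i hi
      rw [hJ, sel0]
      exact hJa i hi
    · intro i hi
      rw [hJ, sel1]
      exact hJb i hi
    · intro i hi
      rw [hJ, sel2]
      exact hJa i hi
    · intro i hi
      rw [hJ, sel3]
      exact hJb i hi
  set S : Set (Lvl n) := ⋃ j : Fin (4 * m), lact (ζ j) '' J j with hS
  have hUS : ∀ j, j < 4 * m → lact (ζ j) '' J j ⊆ S := fun j hj =>
    Set.subset_iUnion (fun j : Fin (4 * m) => lact (ζ j) '' J j) ⟨j, hj⟩
  have huS : ∀ j, j < 4 * m → u j ∈ C.Sup S := fun j hj =>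
    C.Sup_mono (hUS j hj) (C.conj_mem (ζ j) (heJ j hj))
  have hSn : ∀ t, (4 * m + 1) * (slice S t).ncard + 2 ≤ n t := by
    intro t
    have h1 := slice_iUnion (4 * m) (fun j => lact (ζ j) '' J j) t
    have h2 : ∑ j : Fin (4 * m), (slice (lact (ζ j) '' J j) t).ncard =
        ∑ j : Fin (4 * m), (slice (J j) t).ncard :=
      Finset.sum_congr rfl fun j _ => slice_image_ncard (ζ j) (J j) t
    have h3 : (8 * m * (4 * m + 1)) * ∑ j : Fin (4 * m), (slice (J j) t).ncard ≤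
        4 * m * n t := by
      rw [Finset.mul_sum]
      refine (Finset.sum_le_card_nsmul (Finset.univ : Finset (Fin (4 * m))) _ (n t)
        fun j _ => hJn j.1 j.2 t).trans ?_
      simp
    have h4 : (8 * m * (4 * m + 1)) * (slice S t).ncard ≤ 4 * m * n t := by
      refine (Nat.mul_le_mul_left _ (h1.trans h2.le)).trans h3
    have h5 : 4 * m * (2 * ((4 * m + 1) * (slice S t).ncard)) ≤ 4 * m * n t := by
      calc 4 * m * (2 * ((4 * m + 1) * (slice S t).ncard)) =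
          (8 * m * (4 * m + 1)) * (slice S t).ncard := by ring
        _ ≤ _ := h4
    have h6 := Nat.le_of_mul_le_mul_left h5 (by omega)
    have h7 := h8 t
    omega
  obtain ⟨f, hf⟩ := cyc_family (4 * m) S hSn
  obtain ⟨D, hD⟩ := tele (4 * m) (C.Λ f) (C.Sup S) u huS (by
    intro i j hij hj s hs t ht
    rw [← map_pow, ← map_pow]
    exact C.commute_of_disjoint hρ (hf i j hij hj) (C.conj_mem _ hs) (C.conj_mem _ ht))
  -- the spread elements
  set z : ℕ → Ev n := fun j => f ^ (j + 1) * ζ j with hz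
  set w : ℕ → Γ := fun j => C.Λ (z j) * e j * (C.Λ (z j))⁻¹ with hw
  have hw' : ∀ j, C.Λ f ^ (j + 1) * u j * (C.Λ f ^ (j + 1))⁻¹ = w j := by
    intro j
    simp only [hw, hu, hz, map_mul, map_pow, mul_inv_rev, mul_assoc]
  have hWd : ∀ i j, i ≠ j → i < 4 * m → j < 4 * m →
      Disjoint (lact (z i) '' J i) (lact (z j) '' J j) := by
    have hsub : ∀ j, j < 4 * m → lact (z j) '' J j ⊆ lact (f ^ (j + 1)) '' S := by
      rintro j hj _ ⟨l, hl, rfl⟩
      exact ⟨lact (ζ j) l, hUS j hj ⟨l, hl, rfl⟩, rfl⟩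
    intro i j hij hi hj
    rcases lt_or_gt_of_ne hij with h1 | h1
    · exact (hf (i + 1) (j + 1) (by omega) (by omega)).mono (hsub i hi) (hsub j hj)
    · exact ((hf (j + 1) (i + 1) (by omega) (by omega)).mono (hsub j hj) (hsub i hi)).symm
  have hwc : ∀ i j, i ≠ j → i < 4 * m → j < 4 * m → Commute (w i) (w j) := by
    intro i j hij hi hj
    exact C.commute_of_disjoint hρ (hWd i j hij hi hj) (C.conj_mem _ (heJ i hi))
      (C.conj_mem _ (heJ j hj))
  -- the element θ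
  set a : Fin (2 * m) → ℕ := fun j => 4 * (j.1 / 2) + j.1 % 2 with ha
  set b : Fin (2 * m) → ℕ := fun j => 4 * (j.1 / 2) + 2 + j.1 % 2 with hb
  have ha4 : ∀ j, a j < 4 * m := fun j => by simp only [ha]; omega
  have hb4 : ∀ j, b j < 4 * m := fun j => by simp only [hb]; omega
  have hai : ∀ i j, i ≠ j → a i ≠ a j := fun i j hij h => by
    simp only [ha] at h
    exact hij (Fin.ext (by omega))
  have hbi : ∀ i j, i ≠ j → b i ≠ b j := fun i j hij h => by
    simp only [hb] at h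
    exact hij (Fin.ext (by omega))
  have hJab : ∀ j, J (b j) = J (a j) := by
    intro j
    simp only [ha, hb]
    rcases Nat.mod_two_eq_zero_or_one j.1 with h | h
    · rw [h]
      show J (4 * (j.1 / 2) + 2) = J (4 * (j.1 / 2))
      rw [hJ, sel0, sel2]
    · rw [h, hJ, sel1]
      exact sel3 _ _ _ _ _
  obtain ⟨θ, hθ⟩ := ext_family (T := T) (n := n)
    (I := fun t => Σ j : Fin (2 * m), slice (J (a j)) t)
    (fun t x => ((z (a x.1)) t : Equiv.Perm (Fin (n t))) x.2)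
    (fun t x => ((z (b x.1)) t : Equiv.Perm (Fin (n t))) x.2)
    (fun t => inj_aux (fun j => z (a j)) (fun j => J (a j))
      (fun i j hij => hWd _ _ (hai i j hij) (ha4 i) (ha4 j)) t)
    (fun t => inj_aux (fun j => z (b j)) (fun j => J (a j))
      (fun i j hij => by
        have := hWd _ _ (hbi i j hij) (hb4 i) (hb4 j)
        rwa [hJab, hJab] at this) t)
    (fun t => by
      rw [Nat.card_sigma]
      have h1 : ∑ j : Fin (2 * m), Nat.card (slice (J (a j)) t) =
          ∑ j : Fin (2 * m), (slice (J (a j)) t).ncard :=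
        Finset.sum_congr rfl fun j _ => Nat.card_coe_set_eq _
      rw [h1]
      have h3 : (8 * m * (4 * m + 1)) * ∑ j : Fin (2 * m), (slice (J (a j)) t).ncard ≤
          2 * m * n t := by
        rw [Finset.mul_sum]
        refine (Finset.sum_le_card_nsmul Finset.univ _ (n t) fun j _ => hJn _ (ha4 j) t).trans ?_
        simp
      have h5 : 2 * m * (4 * (∑ j : Fin (2 * m), (slice (J (a j)) t).ncard)) ≤
          2 * m * n t := by
        refine le_trans ?_ h3
        have h6 : 8 * m * 1 ≤ 8 * m * (4 * m + 1) := Nat.mul_le_mul_left _ (by omega)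
        calc 2 * m * (4 * (∑ j : Fin (2 * m), (slice (J (a j)) t).ncard)) =
            8 * m * 1 * (∑ j : Fin (2 * m), (slice (J (a j)) t).ncard) := by ring
          _ ≤ _ := Nat.mul_le_mul_right _ h6
      have h6 := Nat.le_of_mul_le_mul_left h5 (by omega)
      have h7 := h8 t
      omega)
  have hθl : ∀ j : Fin (2 * m), ∀ l ∈ J (a j), lact (θ * z (a j)) l = lact (z (b j)) l := by
    rintro j ⟨t, i⟩ hl
    have h1 := hθ t ⟨j, ⟨i, hl⟩⟩
    rw [lact_mul]
    show (⟨t, _⟩ : Lvl n) = ⟨t, _⟩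
    rw [← h1]
    rfl
  have hθw : ∀ j : Fin (2 * m), e (b j) = (e (a j))⁻¹ →
      C.Λ θ * (w (a j))⁻¹ * (C.Λ θ)⁻¹ = w (b j) := by
    intro j hj
    have h1 := C.conj_congr hρ (hθl j) (g := (e (a j))⁻¹) (inv_mem (heJ _ (ha4 j)))
    have h2 : w (b j) = C.Λ (z (b j)) * (e (a j))⁻¹ * (C.Λ (z (b j)))⁻¹ := by
      rw [← hj]
    rw [h2, ← h1]
    simp only [hw, map_mul, mul_inv_rev, inv_inv, mul_assoc]
  have hθ0 : ∀ i, i < m → C.Λ θ * (w (4 * i))⁻¹ * (C.Λ θ)⁻¹ = w (4 * i + 2) := by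
    intro i hi
    have h1 : a ⟨2 * i, by omega⟩ = 4 * i := by simp only [ha]; omega
    have h2 : b ⟨2 * i, by omega⟩ = 4 * i + 2 := by simp only [hb]; omega
    have h3 := hθw ⟨2 * i, by omega⟩
    rw [h1, h2] at h3
    apply h3
    rw [he, sel2, sel0]
  have hθ1 : ∀ i, i < m → C.Λ θ * (w (4 * i + 1))⁻¹ * (C.Λ θ)⁻¹ = w (4 * i + 3) := by
    intro i hi
    have h1 : a ⟨2 * i + 1, by omega⟩ = 4 * i + 1 := by simp only [ha]; omega
    have h2 : b ⟨2 * i + 1, by omega⟩ = 4 * i + 3 := by simp only [hb]; omega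
    have h3 := hθw ⟨2 * i + 1, by omega⟩
    rw [h1, h2] at h3
    apply h3
    rw [he, sel3, sel1]
  have hpair := pair m (C.Λ θ) (fun i => w (4 * i) * w (4 * i + 1))
    (fun i => w (4 * i + 2) * w (4 * i + 3)) (by
      intro i j hij hi hj
      refine Commute.mul_left (Commute.mul_right ?_ ?_) (Commute.mul_right ?_ ?_) <;>
        exact hwc _ _ (by omega) (by omega) (by omega))
    (by
      intro i j hij hi hj
      refine Commute.mul_left (Commute.mul_right ?_ ?_) (Commute.mul_right ?_ ?_) <;>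
        exact hwc _ _ (by omega) (by omega) (by omega))
    (by
      intro i hi
      have h1 : w (4 * i) * w (4 * i + 1) = w (4 * i + 1) * w (4 * i) :=
        hwc _ _ (by omega) (by omega) (by omega)
      rw [h1, mul_inv_rev, ← hθ0 i hi, ← hθ1 i hi]
      group)
  refine ⟨D, C.Λ f, pr m (fun i => w (4 * i) * w (4 * i + 1)), C.Λ θ, ?_⟩
  rw [← hpair]
  have h1 : pr m (fun i => w (4 * i) * w (4 * i + 1) * (w (4 * i + 2) * w (4 * i + 3))) =
      pr (4 * m) w := by
    rw [pr_four]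
    refine pr_congr m fun i _ => ?_
    simp only [mul_assoc]
  have h2 : pr (4 * m) (fun j => C.Λ f ^ (j + 1) * u j * (C.Λ f ^ (j + 1))⁻¹) = pr (4 * m) w :=
    pr_congr _ fun j _ => hw' j
  rw [h1, ← h2, ← hD, pr_four]
  refine pr_congr m fun i _ => ?_
  simp only [hu, hζ, he, sel0, sel1, sel2, sel3]

end Pool.Agent.DF71
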