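import Pool.Agent.DF71.Expand
import Pool.Agent.DF71.Swallow
import Pool.Agent.DF71.Alt4

set_option autoImplicit false

/-!
# DF71/AbsMain: almost finite actions have commutator width at most six

No `sorry` in this file (assembled from the open modules).
-/

namespace Pool.Agent.DF71

open scoped commutatorElement

universe u v

variable {Γ : Type v} {X : Type u} [Group Γ] {ρ : Γ →* Equiv.Perm X}

/-- **Theorem (almost finite actions).**  If the faithful action `ρ` of `Γ` is almost finite, every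
element of the derived subgroup of `Γ` is a product of six commutators. -/
theorem abs_main (hρ : Function.Injective ρ) (hAF : AlmostFinite ρ) (g : Γ)
    (hg : g ∈ commutator Γ) :
    ∃ l : List (Γ × Γ), l.length ≤ 6 ∧ g = (l.map fun p => ⁅p.1, p.2⁆).prod := by
  classical
  obtain ⟨m, a, b, hgab⟩ := comm_pr g hg
  obtain ⟨T, n, C, h8, hE⟩ := hAF
    ((Finset.range m).image a ∪ (Finset.range m).image b) (8 * m * (4 * m + 1))
  have ha : ∀ i, i < m → ∃ (σ : Ev n) (J : Set (Lvl n)),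
      (∀ t, (8 * m * (4 * m + 1)) * (slice J t).ncard ≤ n t) ∧
        ∀ x, C.lev x ∉ J → ρ (a i) x = ρ (C.Λ σ) x := fun i hi =>
    hE (a i) (Finset.mem_union_left _ (Finset.mem_image_of_mem _ (Finset.mem_range.2 hi)))
  have hb : ∀ i, i < m → ∃ (σ : Ev n) (J : Set (Lvl n)),
      (∀ t, (8 * m * (4 * m + 1)) * (slice J t).ncard ≤ n t) ∧
        ∀ x, C.lev x ∉ J → ρ (b i) x = ρ (C.Λ σ) x := fun i hi =>
    hE (b i) (Finset.mem_union_right _ (Finset.mem_image_of_mem _ (Finset.mem_range.2 hi)))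
  have ha' : ∀ i, ∃ (σ : Ev n) (J : Set (Lvl n)), i < m →
      (∀ t, (8 * m * (4 * m + 1)) * (slice J t).ncard ≤ n t) ∧
        ∀ x, C.lev x ∉ J → ρ (a i) x = ρ (C.Λ σ) x := by
    intro i
    by_cases hi : i < m
    · obtain ⟨σ, J, h1, h2⟩ := ha i hi
      exact ⟨σ, J, fun _ => ⟨h1, h2⟩⟩
    · exact ⟨1, ∅, fun h => absurd h hi⟩
  have hb' : ∀ i, ∃ (σ : Ev n) (J : Set (Lvl n)), i < m →
      (∀ t, (8 * m * (4 * m + 1)) * (slice J t).ncard ≤ n t) ∧
        ∀ x, C.lev x ∉ J → ρ (b i) x = ρ (C.Λ σ) x := by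
    intro i
    by_cases hi : i < m
    · obtain ⟨σ, J, h1, h2⟩ := hb i hi
      exact ⟨σ, J, fun _ => ⟨h1, h2⟩⟩
    · exact ⟨1, ∅, fun h => absurd h hi⟩
  choose σa Ja hσa using ha'
  choose σb Jb hσb using hb'
  obtain ⟨x, y, w, h, hx, hy, hw, hh, hprod⟩ := expand C.Λ.range m (fun i => C.Λ (σa i))
    (fun i => (C.Λ (σa i))⁻¹ * a i) (fun i => C.Λ (σb i)) (fun i => (C.Λ (σb i))⁻¹ * b i)
    (fun i => ⟨σa i, rfl⟩) (fun i => ⟨σb i, rfl⟩)
  choose ξ hξ using hx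
  choose υ hυ using hy
  choose ω hω using hw
  obtain ⟨η, hη⟩ := hh
  obtain ⟨A, B, A', B', hAB⟩ := swallow C hρ h8 m (fun i => (C.Λ (σa i))⁻¹ * a i)
    (fun i => (C.Λ (σb i))⁻¹ * b i) Ja Jb ξ υ ω
    (fun i hi => C.hat_mem (hσa i hi).2) (fun i hi => C.hat_mem (hσb i hi).2)
    (fun i hi => (hσa i hi).1) (fun i hi => (hσb i hi).1)
  obtain ⟨c, d, hcd⟩ := alt4_family (fun t => le_trans (by norm_num) (h8 t)) η
  refine ⟨[(A, B), (A', B'), (C.Λ (c 0), C.Λ (d 0)), (C.Λ (c 1), C.Λ (d 1)),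
    (C.Λ (c 2), C.Λ (d 2)), (C.Λ (c 3), C.Λ (d 3))], by simp, ?_⟩
  have h1 : g = ⁅A, B⁆ * ⁅A', B'⁆ * C.Λ η := by
    rw [hgab, hη, ← hAB]
    have h2 : (fun i => ⁅a i, b i⁆) = fun i => ⁅C.Λ (σa i) * ((C.Λ (σa i))⁻¹ * a i),
        C.Λ (σb i) * ((C.Λ (σb i))⁻¹ * b i)⁆ := by
      funext i
      rw [mul_inv_cancel_left, mul_inv_cancel_left]
    rw [h2, hprod]
    congr 1
    apply pr_congr
    intro i _
    rw [hξ, hυ, hω]
  rw [h1, hcd]
  simp [map_commutatorElement, mul_assoc]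

end Pool.Agent.DF71
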