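import Mathlib

set_option autoImplicit false

/-!
# DF71/Half: a clopen fundamental domain of a free involution  (OPEN MODULE)

Keep the statement exactly; extra lemmas `private`.
-/

namespace Pool.Agent.DF71

universe u

variable {X : Type u} [TopologicalSpace X]

/-- Let `ι` be a continuous involution of a compact totally disconnected Hausdorff space and `W` an
invariant clopen set without fixed points of `ι`.  Then `W` is the disjoint union of a clopen set
`P` and `ι P`.

PROOF.  Every `y ∈ W` has a clopen neighbourhood `O ⊆ W` with `O ∩ ι⁻¹' O = ∅`: take disjoint open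
neighbourhoods of `y` and `ι y` (`t2_separation`), shrink by continuity of `ι` and use that clopen
sets form a basis (`compact_exists_isClopen_in_isOpen`).  By compactness of `W` finitely many
such sets `O` cover `W`.  Prove by induction on a finite set `F` of such clopen sets: there is a
clopen `P ⊆ W` with `P ∩ ι⁻¹' P = ∅` and `⋃ F ⊆ P ∪ ι⁻¹' P`.  Step: given `P` for `F` and a new `O`
put `P' = P ∪ (O \ (P ∪ ι⁻¹' P))`; then `P' ∩ ι⁻¹' P' = ∅` because `O ∩ ι⁻¹' O = ∅`,
`P ∩ ι⁻¹' P = ∅` and the second part avoids `P` and `ι⁻¹' P` (use `ι (ι x) = x`). -/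
theorem exists_half [CompactSpace X] [T2Space X] [TotallyDisconnectedSpace X] (ι : X → X)
    (hι : Continuous ι) (hιι : ∀ x, ι (ι x) = x) (W : Set X) (hW : IsClopen W)
    (hWι : ∀ x ∈ W, ι x ∈ W) (hfree : ∀ x ∈ W, ι x ≠ x) :
    ∃ P : Set X, IsClopen P ∧ P ⊆ W ∧ ∀ x ∈ W, (x ∈ P ↔ ι x ∉ P) := by
  classical
  have h1 : ∀ y, y ∈ W → ∃ O : Set X, IsClopen O ∧ y ∈ O ∧ O ⊆ W ∧ ∀ x ∈ O, ι x ∉ O := by
    intro y hy
    obtain ⟨A, B, hA, hB, hyA, hyB, hAB⟩ := t2_separation (hfree y hy).symm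
    obtain ⟨O, hO, hyO, hOs⟩ := compact_exists_isClopen_in_isOpen
      ((hA.inter (hB.preimage hι)).inter hW.isOpen) (show y ∈ A ∩ ι ⁻¹' B ∩ W from ⟨⟨hyA, hyB⟩, hy⟩)
    refine ⟨O, hO, hyO, fun x hx => (hOs hx).2, fun x hx hx' => ?_⟩
    exact Set.disjoint_left.1 hAB (hOs hx').1.1 (hOs hx).1.2
  choose! O hO1 hO2 hO3 hO4 using h1
  obtain ⟨t, ht, hcov⟩ := hW.isClosed.isCompact.elim_nhds_subcover O fun x hx =>
    (hO1 x hx).isOpen.mem_nhds (hO2 x hx)
  have key : ∀ t : Finset X, (∀ x ∈ t, x ∈ W) → ∃ P : Set X, IsClopen P ∧ P ⊆ W ∧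
      (∀ x ∈ P, ι x ∉ P) ∧ ∀ y ∈ t, ∀ x ∈ O y, x ∈ P ∨ ι x ∈ P := by
    intro t
    induction t using Finset.induction_on with
    | empty =>
      intro _
      exact ⟨∅, isClopen_empty, Set.empty_subset _, fun x hx => absurd hx (Set.notMem_empty x),
        fun y hy => absurd hy (Finset.notMem_empty y)⟩
    | insert a t _ ih =>
      intro ht
      obtain ⟨P, hP1, hP2, hP3, hP4⟩ := ih fun x hx => ht x (Finset.mem_insert_of_mem hx)
      have ha : a ∈ W := ht a (Finset.mem_insert_self a t)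
      refine ⟨P ∪ (O a \ (P ∪ ι ⁻¹' P)),
        hP1.union ((hO1 a ha).diff (hP1.union (hP1.preimage hι))), ?_, ?_, ?_⟩
      · rintro x (hx | hx)
        · exact hP2 hx
        · exact hO3 a ha hx.1
      · rintro x (hx | hx) (hx' | hx')
        · exact hP3 x hx hx'
        · apply hx'.2
          right
          show ι (ι x) ∈ P
          rw [hιι]
          exact hx
        · exact hx.2 (Or.inr hx')
        · exact hO4 a ha x hx.1 hx'.1
      · intro y hy x hx
        rcases Finset.mem_insert.1 hy with rfl | hy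
        · by_cases h2 : x ∈ P ∪ ι ⁻¹' P
          · rcases h2 with h2 | h2
            · exact Or.inl (Or.inl h2)
            · exact Or.inr (Or.inl h2)
          · exact Or.inl (Or.inr ⟨hx, h2⟩)
        · rcases hP4 y hy x hx with h2 | h2
          · exact Or.inl (Or.inl h2)
          · exact Or.inr (Or.inl h2)
  obtain ⟨P, hP1, hP2, hP3, hP4⟩ := key t ht
  refine ⟨P, hP1, hP2, fun x hx => ⟨fun h => hP3 x h, fun h => ?_⟩⟩
  obtain ⟨y, hy, hxy⟩ := Set.mem_iUnion₂.1 (hcov hx)
  rcases hP4 y hy x hxy with h2 | h2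
  · exact h2
  · exact absurd h2 h

end Pool.Agent.DF71
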