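import Pool.Agent.DF71.SegB
import Pool.Agent.DF71.Half

set_option autoImplicit false

/-!
# DF71/Base: choice of one end in every segment  (OPEN MODULE)

Keep the statement exactly; extra lemmas `private`.
-/

namespace Pool.Agent.DF71

universe u

variable {X : Type u} [TopologicalSpace X] {st : Bool → X ≃ₜ X} {R M : ℕ} {V : Bool → Set X}

/-- There is a clopen set `P` of ends containing exactly one end of every segment.

PROOF.  Let `W = V true ∪ V false` (clopen) and
`ι x = hc.tip false x` if `x ∈ V true`, `ι x = hc.tip true x` if `x ∈ V false`, `ι x = x`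
otherwise.  `ι` is continuous (piecewise continuous on clopen sets, `hc.continuous_tip`).  For
`y ∈ V r`: `ι y = hc.tip (!r) y` (`hc.disj`).  Let `ℓ = hc.dist (!r) y` and
`z = ι y = walk st (!r) ℓ y ∈ V s`, `s = letter (!r) ℓ`; by `hc.seg_back` with `i = ℓ`
(`letter r ℓ = !s`, `letter_not`) `hc.tip (!s) z = y`, so `ι z = y`; and `z ≠ y` by `hc.seg_inj`
(`i = ℓ ≥ 1`, `j = 0`; `ℓ > R ≥ 0` by `hc.seg_len`).  So `ι` is an involution, `W` is invariant and
`ι` has no fixed point in `W`.  Take `P` from `exists_half`.
For any `x` let `y = hc.tip true x`, `i = hc.dist true x`, `r = letter true i`; `y ∈ V r`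
(`hc.tip_mem`); by `hc.tip_back` `x = walk st (!r) i y` and `i ≤ hc.dist (!r) y`, so by `hc.seg_fwd`
`hc.tip (letter (!r) i) x = hc.tip (!r) y = ι y`, and `letter (!r) i = !(letter r i) = !true = false`
(`letter_not`, first claim of `hc.tip_back`).  Hence `hc.tip false x = ι (hc.tip true x)` and the
claim is the property of `P`. -/
theorem exists_base [CompactSpace X] [T2Space X] [TotallyDisconnectedSpace X] [Infinite X]
    (hD : Dih st) (hc : Cut st R M V) :
    ∃ P : Set X, IsClopen P ∧ P ⊆ V true ∪ V false ∧
      ∀ x, (hc.tip true x ∈ P ↔ hc.tip false x ∉ P) := by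
  classical
  set ι : X → X := (V true).piecewise (hc.tip false) ((V false).piecewise (hc.tip true) id)
    with hιdef
  have hcont : Continuous ι := by
    apply Continuous.piecewise
    · intro a ha
      rw [(hc.clopen true).frontier_eq] at ha
      exact absurd ha (Set.notMem_empty a)
    · exact hc.continuous_tip false
    · apply Continuous.piecewise
      · intro a ha
        rw [(hc.clopen false).frontier_eq] at ha
        exact absurd ha (Set.notMem_empty a)
      · exact hc.continuous_tip true
      · exact continuous_id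
  have hι : ∀ (r : Bool) (y : X), y ∈ V r → ι y = hc.tip (!r) y := by
    intro r y hy
    cases r with
    | true =>
      rw [hιdef, Set.piecewise_eq_of_mem _ _ _ hy]
      rfl
    | false =>
      have h1 : y ∉ V true := hc.disj false y hy
      rw [hιdef, Set.piecewise_eq_of_notMem _ _ _ h1, Set.piecewise_eq_of_mem _ _ _ hy]
      rfl
  have hιout : ∀ y : X, y ∉ V true → y ∉ V false → ι y = y := by
    intro y h1 h2
    rw [hιdef, Set.piecewise_eq_of_notMem _ _ _ h1, Set.piecewise_eq_of_notMem _ _ _ h2]
    rfl
  have hback : ∀ (r : Bool) (y : X), y ∈ V r → ι (hc.tip (!r) y) = y := by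
    intro r y hy
    have h1 := hc.tip_mem (!r) y
    rw [hι _ _ h1, ← letter_not, Bool.not_not]
    exact (hc.seg_back hD.inv hy (hc.dist (!r) y) le_rfl).2
  have hne : ∀ (r : Bool) (y : X), y ∈ V r → hc.tip (!r) y ≠ y := by
    intro r y hy h
    have h1 := hc.seg_inj hD (r := r) (y := y) (hc.dist (!r) y) 0 le_rfl (Nat.zero_le _) h
    have h2 := hc.seg_len hy
    omega
  have hW : ∀ x, x ∈ V true ∪ V false → ∃ r, x ∈ V r := by
    rintro x (hx | hx)
    · exact ⟨true, hx⟩
    · exact ⟨false, hx⟩
  have hW' : ∀ (r : Bool) (x : X), x ∈ V r → x ∈ V true ∪ V false := by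
    intro r x hx
    cases r with
    | true => exact Or.inl hx
    | false => exact Or.inr hx
  obtain ⟨P, hP1, hP2, hP3⟩ := exists_half ι hcont
    (by
      intro x
      by_cases hx : x ∈ V true ∪ V false
      · obtain ⟨r, hr⟩ := hW x hx
        rw [hι r x hr, hback r x hr]
      · have h1 : x ∉ V true := fun h => hx (Or.inl h)
        have h2 : x ∉ V false := fun h => hx (Or.inr h)
        rw [hιout x h1 h2, hιout x h1 h2])
    (V true ∪ V false) ((hc.clopen true).union (hc.clopen false))
    (by
      intro x hx
      obtain ⟨r, hr⟩ := hW x hx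
      rw [hι r x hr]
      exact hW' _ _ (hc.tip_mem (!r) x))
    (by
      intro x hx
      obtain ⟨r, hr⟩ := hW x hx
      rw [hι r x hr]
      exact hne r x hr)
  refine ⟨P, hP1, hP2, fun x => ?_⟩
  set y := hc.tip true x with hy
  set i := hc.dist true x with hi
  set r := letter true i with hr
  have hyV : y ∈ V r := hc.tip_mem true x
  obtain ⟨b1, b2, b3⟩ := hc.tip_back hD.inv true x
  have h1 := (hc.seg_fwd (r := r) (y := y) i b2).2
  have h2 : letter (!r) i = false := by
    rw [letter_not, b1]; rfl
  have h3 : walk st (!r) i y = x := b3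
  rw [h2, h3, ← hι r y hyV] at h1
  rw [h1]
  exact hP3 y (hW' r y hyV)

end Pool.Agent.DF71
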