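import Pool.Agent.DF71.WalkA

set_option autoImplicit false

/-!
# DF71/CutA: rays are dense; a uniform bound for the hitting times  (OPEN MODULE)

Keep the statements exactly; extra lemmas `private`.
-/

namespace Pool.Agent.DF71

universe u

variable {X : Type u} [TopologicalSpace X]

/-- Every ray visits every nonempty open set.

PROOF.  Put `x_i = walk st r i x` and `A k = closure {x_i : k ≤ i}`, a decreasing sequence of
nonempty closed subsets of the compact space `X`; so `W = ⋂ k, A k` is closed and nonempty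
(`IsCompact.nonempty_iInter_of_directed_nonempty_isCompact_isClosed` or
`IsCompact.nonempty_iInter_of_sequence_nonempty_isCompact_isClosed`).  For each `s` the map `st s`
sends `x_i` (`i ≥ 1`) to `x_{i+1}` or `x_{i-1}` (`walk_succ'`, `hD.inv`: `s = letter r i` or
`s = !(letter r i) = letter r (i-1)`), so it maps `{x_i : k + 1 ≤ i}` into `{x_i : k ≤ i}` and
`A (k + 1)` into `A k` (`image_closure_subset_closure_image`, continuity), hence `W` into `W`.  By
minimality `W = univ`; so `A 1 = univ` and the open set `U` meets `{x_i : 1 ≤ i}`. -/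
theorem ray_visits [CompactSpace X] {st : Bool → X ≃ₜ X} (hD : Dih st) {U : Set X}
    (hU : IsOpen U) (hne : U.Nonempty) (r : Bool) (x : X) : ∃ i, 1 ≤ i ∧ walk st r i x ∈ U := by
  have hstep : ∀ (k : ℕ) (s : Bool), ∀ y ∈ (fun i => walk st r i x) '' Set.Ici (k + 1),
      st s y ∈ (fun i => walk st r i x) '' Set.Ici k := by
    rintro k s _ ⟨i, hi, rfl⟩
    have hi' : k + 1 ≤ i := hi
    obtain ⟨j, rfl⟩ : ∃ j, i = j + 1 := ⟨i - 1, by omega⟩
    by_cases h : s = letter r (j + 1)
    · refine ⟨j + 1 + 1, Set.mem_Ici.2 (by omega), ?_⟩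
      show walk st r (j + 1 + 1) x = st s (walk st r (j + 1) x)
      rw [walk_succ' st r (j + 1) x, h]
    · have h2 : s = letter r j := by
        rw [letter_succ] at h
        cases s <;> cases hj : letter r j <;> simp_all
      refine ⟨j, Set.mem_Ici.2 (by omega), ?_⟩
      show walk st r j x = st s (walk st r (j + 1) x)
      rw [walk_succ' st r j x, h2, hD.inv]
  have hmap : ∀ (k : ℕ) (s : Bool), ∀ y ∈ closure ((fun i => walk st r i x) '' Set.Ici (k + 1)),
      st s y ∈ closure ((fun i => walk st r i x) '' Set.Ici k) := by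
    intro k s y hy
    exact map_mem_closure (st s).continuous hy (hstep k s)
  have hne' : (⋂ k : ℕ, closure ((fun i => walk st r i x) '' Set.Ici k)).Nonempty := by
    apply IsCompact.nonempty_iInter_of_sequence_nonempty_isCompact_isClosed
    · intro k
      exact closure_mono (Set.image_mono (Set.Ici_subset_Ici.2 (Nat.le_succ k)))
    · intro k
      exact ⟨_, subset_closure ⟨k, Set.self_mem_Ici, rfl⟩⟩
    · exact isClosed_closure.isCompact
    · intro k
      exact isClosed_closure
  have huniv := hD.min (⋂ k : ℕ, closure ((fun i => walk st r i x) '' Set.Ici k))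
    (isClosed_iInter fun k => isClosed_closure) hne' (by
      intro s y hy
      rw [Set.mem_iInter] at hy ⊢
      intro k
      exact hmap k s y (hy (k + 1)))
  obtain ⟨u, hu⟩ := hne
  have hu' : u ∈ closure ((fun i => walk st r i x) '' Set.Ici 1) := by
    have h1 : u ∈ ⋂ k : ℕ, closure ((fun i => walk st r i x) '' Set.Ici k) := by
      rw [huniv]
      exact Set.mem_univ u
    exact Set.mem_iInter.1 h1 1
  obtain ⟨_, hyU, i, hi, rfl⟩ := mem_closure_iff.1 hu' U hU hu
  exact ⟨i, hi, hyU⟩

/-- Uniform hitting time.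

PROOF.  For every `r, x` there is `i` with `walk st r i x ∈ V (letter r i)`: let `t` be such that
`V t` is nonempty; by `ray_visits` there is `i ≥ 1` with `x_i ∈ V t`; if `t = letter r i` done;
otherwise `t = !(letter r i) = letter r (i - 1)` and `x_{i-1} = st t x_i ∈ V t` by `hinv`
(`walk_succ'`, `hD.inv`), so `i - 1` works.  For each `r` the sets
`O k = {x | ∃ i ≤ k, walk st r i x ∈ V (letter r i)}` are open (finite unions of preimages of open
sets under continuous maps, `walk_continuous`), increasing in `k` and cover `X`; by compactness one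
of them is `X` (`CompactSpace.isCompact_univ.elim_directed_cover` or
`isCompact_univ.elim_finite_subcover`).  Take the maximum for `r = true, false`. -/
theorem hit_bound [CompactSpace X] {st : Bool → X ≃ₜ X} (hD : Dih st) (V : Bool → Set X)
    (hV : ∀ r, IsClopen (V r)) (hinv : ∀ r x, x ∈ V r → st r x ∈ V r)
    (hne : ∃ t, (V t).Nonempty) :
    ∃ M : ℕ, ∀ r x, ∃ i, i ≤ M ∧ walk st r i x ∈ V (letter r i) := by
  have hpt : ∀ (r : Bool) (x : X), ∃ i, walk st r i x ∈ V (letter r i) := by
    intro r x
    obtain ⟨t, ht⟩ := hne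
    obtain ⟨i, hi, hx⟩ := ray_visits hD (hV t).isOpen ht r x
    obtain ⟨j, rfl⟩ : ∃ j, i = j + 1 := ⟨i - 1, by omega⟩
    by_cases h : t = letter r (j + 1)
    · exact ⟨j + 1, h ▸ hx⟩
    · have h2 : t = letter r j := by
        rw [letter_succ] at h
        cases t <;> cases hj : letter r j <;> simp_all
      refine ⟨j, ?_⟩
      have h3 := hinv t _ hx
      rw [walk_succ' st r j x, ← h2, hD.inv] at h3
      rw [← h2]
      exact h3
  have hr : ∀ r : Bool, ∃ M : ℕ, ∀ x, ∃ i, i ≤ M ∧ walk st r i x ∈ V (letter r i) := by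
    intro r
    obtain ⟨M, hM⟩ := isCompact_univ.elim_directed_cover
      (fun k : ℕ => {x | ∃ i, i ≤ k ∧ walk st r i x ∈ V (letter r i)})
      (by
        intro k
        have h1 : {x | ∃ i, i ≤ k ∧ walk st r i x ∈ V (letter r i)} =
            ⋃ i : ℕ, ⋃ _ : i ≤ k, walk st r i ⁻¹' V (letter r i) := by
          ext x
          simp
        show IsOpen {x | ∃ i, i ≤ k ∧ walk st r i x ∈ V (letter r i)}
        rw [h1]
        exact isOpen_iUnion fun i => isOpen_iUnion fun _ =>
          (hV _).isOpen.preimage (walk_continuous st r i))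
      (by
        intro x _
        obtain ⟨i, hi⟩ := hpt r x
        exact Set.mem_iUnion.2 ⟨i, i, le_rfl, hi⟩)
      (directed_of_isDirected_le (by
        rintro a b hab x ⟨i, hi, hx⟩
        exact ⟨i, hi.trans hab, hx⟩))
    refine ⟨M, fun x => ?_⟩
    exact hM (Set.mem_univ x)
  obtain ⟨M1, h1⟩ := hr true
  obtain ⟨M2, h2⟩ := hr false
  refine ⟨max M1 M2, fun r x => ?_⟩
  cases r
  · obtain ⟨i, hi, hx⟩ := h2 x
    exact ⟨i, hi.trans (le_max_right _ _), hx⟩
  · obtain ⟨i, hi, hx⟩ := h1 x
    exact ⟨i, hi.trans (le_max_left _ _), hx⟩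

end Pool.Agent.DF71
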