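import Pool.Agent.DF71.WalkA

set_option autoImplicit false

/-!
# DF71/CutB: thickening of closed seeds to clopen cut sets  (OPEN MODULE)

Keep the statement exactly; extra lemmas `private`.
-/

namespace Pool.Agent.DF71

universe u

variable {X : Type u} [TopologicalSpace X]

private theorem cb_sep [CompactSpace X] [T2Space X] [TotallyDisconnectedSpace X] (f : X → X)
    (hf : Continuous f) {K L : Set X} (hK : IsClosed K) (hL : IsClosed L)
    (h : ∀ x ∈ K, f x ∉ L) :
    ∃ A B : Set X, IsClopen A ∧ IsClopen B ∧ K ⊆ A ∧ L ⊆ B ∧ ∀ x ∈ A, f x ∉ B := by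
  have hc : IsClosed (f '' K) := (hK.isCompact.image hf).isClosed
  obtain ⟨B, hB, hLB, hBU⟩ := exists_clopen_of_closed_subset_open hL hc.isOpen_compl
    (fun x hx => by
      rintro ⟨y, hy, rfl⟩
      exact h y hy hx)
  refine ⟨f ⁻¹' Bᶜ, B, hB.compl.preimage hf, hB, ?_, hLB, ?_⟩
  · intro x hx hxB
    exact hBU hxB ⟨x, hx, rfl⟩
  · intro x hx
    exact hx

/-- **Thickening.**  Let `C true, C false` be closed sets, `C r` invariant under `st r`, disjoint,
and such that the walks leaving `C r` (with the first letter `!r`) do not meet `C t` in the steps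
`1, …, R`.  There are clopen sets `V r ⊇ C r` with the same properties.

PROOF.  Write the conditions as finitely many disjointness conditions between compact sets: for
`(r, t, i)` in the finite set of the triples with `1 ≤ i ≤ R`, and for `(true, false, 0)`:
`walk st (!r) i '' (C r)` and `C t` are disjoint (for `i = 0`: `C true` and `C false`).  In a
compact Hausdorff totally disconnected space two disjoint closed sets `K, L` are separated by a
clopen set `A`, `L ⊆ A`, `A ∩ K = ∅` (`exists_isClopen_of_closed_subset_open`-type lemma; or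
cover the compact set `L` by finitely many clopen sets missing `K`, using
`compact_exists_isClopen_in_isOpen` / `isTopologicalBasis_isClopen`).  Choose such `A r t i` for
every condition.  Define `W t` as the intersection of all the `A r t i` and of all the preimages
`(walk st (!t) i)⁻¹' (A t t' i)ᶜ` (finite intersections, clopen by `walk_continuous`; for the
condition `i = 0`: `W false ⊆ A true false 0`, `W true ⊆ (A true false 0)ᶜ`).  Then `C t ⊆ W t`,
`walk st (!r) i '' W r` is disjoint from `W t` for `1 ≤ i ≤ R`, and `W true ∩ W false = ∅`.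
Finally put `V r = W r ∩ (st r)⁻¹' (W r)`; it is clopen, invariant under `st r` (`hinv`), contains
`C r` (as `C r` is invariant) and is contained in `W r`. -/
theorem thicken [CompactSpace X] [T2Space X] [TotallyDisconnectedSpace X] (st : Bool → X ≃ₜ X)
    (hinv : ∀ r x, st r (st r x) = x) (R : ℕ) (C : Bool → Set X) (hC : ∀ r, IsClosed (C r))
    (hCinv : ∀ r x, x ∈ C r → st r x ∈ C r) (h0 : ∀ x, x ∈ C true → x ∉ C false)
    (hsep : ∀ r x, x ∈ C r → ∀ i, 1 ≤ i → i ≤ R → ∀ t, walk st (!r) i x ∉ C t) :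
    ∃ V : Bool → Set X, (∀ r, IsClopen (V r)) ∧ (∀ r, C r ⊆ V r) ∧
      (∀ r x, x ∈ V r → st r x ∈ V r) ∧ (∀ x, x ∈ V true → x ∉ V false) ∧
      ∀ r x, x ∈ V r → ∀ i, 1 ≤ i → i ≤ R → ∀ t, walk st (!r) i x ∉ V t := by
  classical
  have hex : ∀ (r t : Bool) (i : ℕ), ∃ A B : Set X, IsClopen A ∧ IsClopen B ∧ C r ⊆ A ∧ C t ⊆ B ∧
      (1 ≤ i → i ≤ R → ∀ x ∈ A, walk st (!r) i x ∉ B) := by
    intro r t i
    by_cases hi : 1 ≤ i ∧ i ≤ R
    · obtain ⟨A, B, hA, hB, hKA, hLB, hAB⟩ := cb_sep (walk st (!r) i) (walk_continuous st (!r) i)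
        (hC r) (hC t) (fun x hx => hsep r x hx i hi.1 hi.2 t)
      exact ⟨A, B, hA, hB, hKA, hLB, fun _ _ => hAB⟩
    · exact ⟨Set.univ, Set.univ, isClopen_univ, isClopen_univ, Set.subset_univ _,
        Set.subset_univ _, fun h1 h2 => absurd ⟨h1, h2⟩ hi⟩
  choose A B hA hB hCA hCB hAB using hex
  obtain ⟨D₁, D₂, hD₁, hD₂, hCD₁, hCD₂, hDD⟩ := cb_sep (id : X → X) continuous_id (hC true)
    (hC false) (fun x hx => h0 x hx)
  obtain ⟨D, hD, hCD, hDdis⟩ : ∃ D : Bool → Set X, (∀ r, IsClopen (D r)) ∧ (∀ r, C r ⊆ D r) ∧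
      ∀ x, x ∈ D true → x ∉ D false := by
    refine ⟨fun r => if r = true then D₁ else D₂, ?_, ?_, ?_⟩
    · intro r
      cases r
      · exact hD₂
      · exact hD₁
    · intro r
      cases r
      · exact hCD₂
      · exact hCD₁
    · intro x hx
      exact hDD x hx
  obtain ⟨W, hW, hCW, hWA, hWB, hWD⟩ : ∃ W : Bool → Set X, (∀ r, IsClopen (W r)) ∧
      (∀ r, C r ⊆ W r) ∧ (∀ r t i, i ≤ R → W r ⊆ A r t i) ∧ (∀ r t i, i ≤ R → W t ⊆ B r t i) ∧
      ∀ r, W r ⊆ D r := by
    refine ⟨fun r => ((⋂ t : Bool, ⋂ i ∈ Finset.range (R + 1), A r t i) ∩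
      (⋂ t : Bool, ⋂ i ∈ Finset.range (R + 1), B t r i)) ∩ D r, ?_, ?_, ?_, ?_, ?_⟩
    · intro r
      refine (IsClopen.inter ?_ ?_).inter (hD r)
      · exact isClopen_iInter_of_finite fun t => isClopen_biInter_finset fun i _ => hA r t i
      · exact isClopen_iInter_of_finite fun t => isClopen_biInter_finset fun i _ => hB t r i
    · intro r x hx
      refine ⟨⟨?_, ?_⟩, hCD r hx⟩
      · rw [Set.mem_iInter]
        intro t
        rw [Set.mem_iInter₂]
        intro i _
        exact hCA r t i hx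
      · rw [Set.mem_iInter]
        intro t
        rw [Set.mem_iInter₂]
        intro i _
        exact hCB t r i hx
    · rintro r t i hi x ⟨⟨h1, _⟩, _⟩
      rw [Set.mem_iInter] at h1
      have h2 := h1 t
      rw [Set.mem_iInter₂] at h2
      exact h2 i (Finset.mem_range.mpr (by omega))
    · rintro r t i hi x ⟨⟨_, h1⟩, _⟩
      rw [Set.mem_iInter] at h1
      have h2 := h1 r
      rw [Set.mem_iInter₂] at h2
      exact h2 i (Finset.mem_range.mpr (by omega))
    · rintro r x ⟨_, h⟩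
      exact h
  refine ⟨fun r => W r ∩ (st r) ⁻¹' (W r), ?_, ?_, ?_, ?_, ?_⟩
  · intro r
    exact (hW r).inter ((hW r).preimage (st r).continuous)
  · intro r x hx
    exact ⟨hCW r hx, hCW r (hCinv r x hx)⟩
  · rintro r x ⟨h1, h2⟩
    refine ⟨h2, ?_⟩
    change st r (st r x) ∈ W r
    rw [hinv]
    exact h1
  · rintro x ⟨h1, _⟩ ⟨h2, _⟩
    exact hDdis x (hWD true h1) (hWD false h2)
  · rintro r x ⟨h1, _⟩ i hi1 hi2 t ⟨h2, _⟩
    exact hAB r t i hi1 hi2 x (hWA r t i hi2 h1) (hWB r t i hi2 h2)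

end Pool.Agent.DF71
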