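import Pool.Agent.DF71.WalkB
import Pool.Agent.DF71.CutA
import Pool.Agent.DF71.CutB

set_option autoImplicit false

/-!
# DF71/CutC: cuts exist  (OPEN MODULE: only `exists_seed` is to be proved)

Keep the statements exactly; extra lemmas `private`.
-/

namespace Pool.Agent.DF71

universe u

variable {X : Type u} [TopologicalSpace X]

/-- Seeds for the cuts: closed sets `C r`, invariant under `st r`, containing the fixed points of
`st r`, one of them nonempty, such that no walk leaving `C r` ever meets `C true ∪ C false`.

PROOF.  CASE 1: some `st r` has a fixed point.  Take `C r = {x | st r x = x}`, closed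
(`isClosed_eq`).  A common fixed point of both involutions is impossible (`no_fold` with `i = 0`).
Let `st r x = x`, `i ≥ 1`, and suppose `y = walk st (!r) i x` is fixed by `st t`.  If
`t = letter (!r) i` this contradicts `no_fold`.  Otherwise `t = letter (!r) (i - 1)` and, by
`walk_succ'`, `y = st t z` with `z = walk st (!r) (i - 1) x`, so `z = st t y = y` and `z` is fixed by
`st (letter (!r) (i - 1))`, contradicting `no_fold` for `i - 1`.
CASE 2: no fixed points.  Choose a point `x₀`, put `C true = {x₀, st true x₀}`, `C false = ∅`.
Only `r = t = true` is to be checked.  By `no_loop` and the absence of fixed points no walk of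
length `≥ 1` returns to its origin.  Let `x ∈ C true`; then `C true = {x, st true x}`.  If
`walk st false i x = x` this is a loop.  If `walk st false i x = st true x`, then
`walk st true (i + 1) (st true x) = walk st false i x = st true x` (`walk_succ`, `hD.inv`) is a
loop. -/
theorem exists_seed [T2Space X] [Infinite X] {st : Bool → X ≃ₜ X} (hD : Dih st) :
    ∃ C : Bool → Set X, (∀ r, IsClosed (C r)) ∧ (∀ r x, st r x = x → x ∈ C r) ∧
      (∀ r x, x ∈ C r → st r x ∈ C r) ∧ (∃ t, (C t).Nonempty) ∧
      (∀ x, x ∈ C true → x ∉ C false) ∧
      ∀ r x, x ∈ C r → ∀ i, 1 ≤ i → ∀ t, walk st (!r) i x ∉ C t := by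
  by_cases hfix : ∃ (r : Bool) (x : X), st r x = x
  · obtain ⟨r₀, x₀, hx₀⟩ := hfix
    refine ⟨fun r => {x | st r x = x}, ?_, fun r x h => h, ?_, ⟨r₀, x₀, hx₀⟩, ?_, ?_⟩
    · intro r
      exact isClosed_eq (st r).continuous continuous_id
    · intro r x h
      have h' : st r x = x := h
      show st r (st r x) = st r x
      rw [h']
      exact h'
    · intro x h1 h2
      have h1' : st true x = x := h1
      have h2' : st false x = x := h2
      exact no_fold hD true x 0 h1' h2'
    · intro r x hx i hi t ht
      have hx' : st r x = x := hx
      have ht' : st t (walk st (!r) i x) = walk st (!r) i x := ht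
      by_cases h1 : t = letter (!r) i
      · rw [h1] at ht'
        exact no_fold hD r x i hx' ht'
      · obtain ⟨k, rfl⟩ : ∃ k, i = k + 1 := ⟨i - 1, by omega⟩
        have h2 : t = letter (!r) k := by
          have h3 : t = !(letter (!r) (k + 1)) := Bool.eq_not_of_ne h1
          rw [h3, letter_succ, Bool.not_not]
        rw [walk_succ', ← h2, hD.inv] at ht'
        have h4 : st (letter (!r) k) (walk st (!r) k x) = walk st (!r) k x := by
          rw [← h2]
          exact ht'.symm
        exact no_fold hD r x k hx' h4
  · have hnofix : ∀ (r : Bool) (x : X), st r x ≠ x := fun r x h => hfix ⟨r, x, h⟩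
    have hloop : ∀ (r : Bool) (x : X) (i : ℕ), 1 ≤ i → walk st r i x ≠ x := by
      intro r x i hi h
      obtain ⟨j, _, hj⟩ := no_loop hD r x i hi h
      exact hnofix _ _ hj
    obtain ⟨x₀⟩ : Nonempty X := inferInstance
    have hmem : ∀ x, x ∈ (fun r : Bool => if r then ({x₀, st true x₀} : Set X) else ∅) true ↔
        x = x₀ ∨ x = st true x₀ := fun x => Iff.rfl
    have hmemf : ∀ x, x ∉ (fun r : Bool => if r then ({x₀, st true x₀} : Set X) else ∅) false :=
      fun x h => h
    refine ⟨fun r => if r then {x₀, st true x₀} else ∅, ?_, ?_, ?_, ⟨true, x₀, Or.inl rfl⟩, ?_, ?_⟩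
    · intro r
      cases r with
      | true => exact ((Set.finite_singleton (st true x₀)).insert x₀).isClosed
      | false => exact isClosed_empty
    · intro r x h
      exact absurd h (hnofix r x)
    · intro r x h
      cases r with
      | true =>
        rcases (hmem x).1 h with h1 | h1
        · exact (hmem _).2 (Or.inr (by rw [h1]))
        · exact (hmem _).2 (Or.inl (by rw [h1, hD.inv]))
      | false => exact absurd h (hmemf x)
    · intro x _ h
      exact hmemf x h
    · intro r x hx i hi t ht
      cases t with
      | false => exact hmemf _ ht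
      | true =>
        cases r with
        | false => exact hmemf _ hx
        | true =>
          have h1 : walk st (!true) i x = x ∨ walk st (!true) i x = st true x := by
            rcases (hmem _).1 ht with h2 | h2
            · rcases (hmem x).1 hx with h3 | h3
              · exact Or.inl (h2.trans h3.symm)
              · refine Or.inr (h2.trans ?_)
                rw [h3, hD.inv]
            · rcases (hmem x).1 hx with h3 | h3
              · exact Or.inr (h2.trans (by rw [h3]))
              · exact Or.inl (h2.trans h3.symm)
          rcases h1 with h1 | h1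
          · exact hloop _ _ i hi h1
          · have h2 : walk st true (i + 1) (st true x) = st true x := by
              rw [walk_succ, hD.inv]
              exact h1
            exact hloop _ _ (i + 1) (by omega) h2

/-- **Cuts exist.** -/
theorem exists_cut [CompactSpace X] [T2Space X] [TotallyDisconnectedSpace X] [Infinite X]
    {st : Bool → X ≃ₜ X} (hD : Dih st) (R : ℕ) :
    ∃ (M : ℕ) (V : Bool → Set X), Cut st R M V := by
  obtain ⟨C, h1, h2, h3, ⟨t, x₀, hx₀⟩, h5, h6⟩ := exists_seed hD
  obtain ⟨V, v1, v2, v3, v4, v5⟩ := thicken st hD.inv R C h1 h3 h5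
    (fun r x hx i hi _ t => h6 r x hx i hi t)
  obtain ⟨M, hM⟩ := hit_bound hD V v1 v3 ⟨t, x₀, v2 t hx₀⟩
  refine ⟨M, V, v1, v3, fun r x hx => v2 r (h2 r x hx), ?_, v5, hM⟩
  intro r x hx
  cases r with
  | true => exact v4 x hx
  | false => exact fun h => v4 x h hx

end Pool.Agent.DF71
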