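import Pool.Agent.DF71.Ext

set_option autoImplicit false

/-!
# DF71/Cyc: an even permutation with disjoint translates of a given set  (OPEN MODULE)

Keep the statements exactly; extra lemmas `private`.
-/

namespace Pool.Agent.DF71

universe u

/-- If `(M + 1) |Y| + 2 ≤ n` there is an even permutation `f` of `Fin n` such that the sets
`f^i Y` for `0 ≤ i ≤ M` are pairwise disjoint.

PROOF.  The complement of `Y` has at least `M |Y|` elements, so there is an injection
`g : Fin M × Y → Fin n` with values outside `Y`.  Put `e (0, y) = y`, `e (i + 1, y) = g (i, y)`: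
an injection `e : Fin (M + 1) × Y → Fin n`.  Apply `ext_even` to the index set `Fin M × Y`
(its cardinality is `M |Y|`), `p (i, y) = e (i.castSucc, y)` and `q (i, y) = e (i.succ, y)`.  The
even permutation `f` obtained satisfies `f^i y = e (i, y)` for `i ≤ M`, `y ∈ Y` (induction on `i`),
and `e` is injective. -/
theorem cyc_even {n : ℕ} (M : ℕ) (Y : Set (Fin n)) (h : (M + 1) * Y.ncard + 2 ≤ n) :
    ∃ f : alternatingGroup (Fin n), ∀ i j : ℕ, i < j → j ≤ M → ∀ y ∈ Y, ∀ z ∈ Y,
      ((f ^ i : alternatingGroup (Fin n)) : Equiv.Perm (Fin n)) y ≠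
        ((f ^ j : alternatingGroup (Fin n)) : Equiv.Perm (Fin n)) z := by
  classical
  haveI : Fintype Y := Fintype.ofFinite _
  haveI : Fintype (Yᶜ : Set (Fin n)) := Fintype.ofFinite _
  have hYc : Fintype.card Y = Y.ncard := by
    rw [← Nat.card_eq_fintype_card]
    rfl
  have hYcc : Fintype.card (Yᶜ : Set (Fin n)) = n - Y.ncard := by
    have h1 : (Yᶜ : Set (Fin n)).ncard = n - Y.ncard := by
      rw [Set.ncard_compl, Nat.card_eq_fintype_card, Fintype.card_fin]
    rw [← h1, ← Nat.card_eq_fintype_card]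
    rfl
  have hle : Fintype.card (Fin M × Y) ≤ Fintype.card (Yᶜ : Set (Fin n)) := by
    rw [Fintype.card_prod, Fintype.card_fin, hYc, hYcc]
    have : (M + 1) * Y.ncard = M * Y.ncard + Y.ncard := by ring
    omega
  obtain ⟨g⟩ := Function.Embedding.nonempty_of_card_le hle
  let e : Fin (M + 1) → Y → Fin n := fun i => Fin.cases (fun y => (y : Fin n)) (fun k y => (g (k, y) : Fin n)) i
  have he0 : ∀ y, e 0 y = y := fun y => rfl
  have hes : ∀ (k : Fin M) y, e k.succ y = g (k, y) := fun k y => rfl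
  have hinj : ∀ i j y z, e i y = e j z → i = j ∧ y = z := by
    intro i j y z
    refine Fin.cases ?_ (fun k => ?_) i <;> refine Fin.cases ?_ (fun l => ?_) j
    · intro h1
      rw [he0, he0] at h1
      exact ⟨rfl, Subtype.ext h1⟩
    · intro h1
      rw [he0, hes] at h1
      exact absurd (h1 ▸ y.2) (g (l, z)).2
    · intro h1
      rw [he0, hes] at h1
      exact absurd (h1 ▸ z.2) (g (k, y)).2
    · intro h1
      rw [hes, hes] at h1
      have h2 := g.injective (Subtype.ext h1)
      rw [Prod.mk.injEq] at h2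
      rw [h2.1]
      exact ⟨rfl, h2.2⟩
  obtain ⟨f, hf⟩ := ext_even (I := Fin M × Y) (fun x => e x.1.castSucc x.2)
    (fun x => e x.1.succ x.2)
    (fun a b hab => by
      have h1 := hinj _ _ _ _ hab
      exact Prod.ext (Fin.castSucc_injective _ h1.1) h1.2)
    (fun a b hab => by
      have h1 := hinj _ _ _ _ hab
      exact Prod.ext (Fin.succ_injective _ h1.1) h1.2)
    (by
      rw [Nat.card_prod, Nat.card_eq_fintype_card, Fintype.card_fin]
      change M * Y.ncard + 2 ≤ n
      have : (M + 1) * Y.ncard = M * Y.ncard + Y.ncard := by ring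
      omega)
  have hpow : ∀ (i : ℕ) (hi : i ≤ M) (y : Y),
      ((f ^ i : alternatingGroup (Fin n)) : Equiv.Perm (Fin n)) y = e ⟨i, by omega⟩ y := by
    intro i
    induction i with
    | zero => intro _ y; rfl
    | succ i ih =>
      intro hi y
      have h1 := ih (by omega) y
      have h2 := hf (⟨i, by omega⟩, y)
      rw [pow_succ', Subgroup.coe_mul, Equiv.Perm.mul_apply, h1]
      exact h2
  refine ⟨f, fun i j hij hj y hy z hz heq => ?_⟩
  have h1 := hpow i (by omega) ⟨y, hy⟩
  have h2 := hpow j hj ⟨z, hz⟩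
  have h3 := (hinj _ _ _ _ ((h1.symm.trans heq).trans h2)).1
  rw [Fin.mk.injEq] at h3
  omega

/-- The family version, for a set `S` of levels.

PROOF.  Choose `f t` by `cyc_even` for `Y = slice S t`.  If `⟨t, y⟩ ∈ S` and `⟨t', z⟩ ∈ S` and
`lact (f^i) ⟨t, y⟩ = lact (f^j) ⟨t', z⟩`, then `t = t'` (first components), and the second
components contradict `cyc_even` (`(f^i) t = (f t)^i`, `Pi.pow_apply`). -/
theorem cyc_family {T : Type u} {n : T → ℕ} (M : ℕ) (S : Set (Lvl n))
    (h : ∀ t, (M + 1) * (slice S t).ncard + 2 ≤ n t) :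
    ∃ f : Ev n, ∀ i j : ℕ, i < j → j ≤ M →
      Disjoint (lact (f ^ i) '' S) (lact (f ^ j) '' S) := by
  choose f hf using fun t => cyc_even M (slice S t) (h t)
  refine ⟨f, fun i j hij hj => ?_⟩
  rw [Set.disjoint_left]
  rintro x ⟨⟨t, y⟩, hy, rfl⟩ ⟨⟨t', z⟩, hz, heq⟩
  unfold lact at heq
  simp only [Sigma.mk.injEq] at heq
  obtain ⟨rfl, h2⟩ := heq
  exact hf t' i j hij hj y hy z hz (eq_of_heq h2).symm

end Pool.Agent.DF71
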