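import Pool.Agent.DF71.Defs

set_option autoImplicit false

/-!
# DF71/DDefs: minimal dihedral actions, walks, cuts, towers  (COMPLETE FILE)

DIHEDRAL PART.  `X` is a compact totally disconnected Hausdorff space and `st true`, `st false` are
two involutions of `X` generating a minimal action (of the infinite dihedral group).  The orbit of
`x` is described by the two walks `walk st r n x` (`r = true, false`), obtained by applying
alternately `n` of the involutions, beginning with `st r`; the next letter after `n` steps is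
`letter r n`.
-/

namespace Pool.Agent.DF71

open Topology

universe u

variable {X : Type u} [TopologicalSpace X]

/-- the walk: apply `st r`, then `st (!r)`, then `st r`, … (`n` steps in total) -/
def walk (st : Bool → X ≃ₜ X) : Bool → ℕ → X → X
  | _, 0, x => x
  | r, n + 1, x => walk st (!r) n (st r x)

/-- the letter used in the step number `n` (counted from `0`) of a walk starting with `r` -/
def letter : Bool → ℕ → Bool
  | r, 0 => r
  | r, n + 1 => !(letter r n)

/-- two involutions `st true`, `st false` such that every nonempty closed subset of `X` invariant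
under both is the whole space -/
structure Dih (st : Bool → X ≃ₜ X) : Prop where
  inv : ∀ r x, st r (st r x) = x
  min : ∀ S : Set X, IsClosed S → S.Nonempty → (∀ r, ∀ x ∈ S, st r x ∈ S) → S = Set.univ

/-- A cut: clopen sets `V true`, `V false`; the edges `{x, st r x}` with `x ∈ V r` are cut.  All
fixed points of `st r` are in `V r` (loops are cut), cut edges are far apart (more than `R` steps)
and every walk meets a cut edge after at most `M` steps. -/
structure Cut (st : Bool → X ≃ₜ X) (R M : ℕ) (V : Bool → Set X) : Prop where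
  clopen : ∀ r, IsClopen (V r)
  inv : ∀ r x, x ∈ V r → st r x ∈ V r
  fix : ∀ r x, st r x = x → x ∈ V r
  disj : ∀ r x, x ∈ V r → x ∉ V (!r)
  ret : ∀ r x, x ∈ V r → ∀ i, 1 ≤ i → i ≤ R → ∀ t, walk st (!r) i x ∉ V t
  hit : ∀ r x, ∃ i, i ≤ M ∧ walk st r i x ∈ V (letter r i)

/-- A decomposition of `X` into segments of orbits: `P` is the set of the base points, the base
point `y` has the cut letter `cl y` and the length `len y`, its segment is
`{walk st (!(cl y)) i y : i ≤ len y}`; every point of `X` is in exactly one segment, at exactly one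
place. -/
structure Tow (st : Bool → X ≃ₜ X) (R M : ℕ) (P : Set X) (cl : X → Bool) (len : X → ℕ) :
    Prop where
  clopenP : IsClopen P
  cover : ∀ x, ∃ y ∈ P, ∃ i, i ≤ len y ∧ walk st (!(cl y)) i y = x
  inj : ∀ y ∈ P, ∀ z ∈ P, ∀ i j, i ≤ len y → j ≤ len z →
    walk st (!(cl y)) i y = walk st (!(cl z)) j z → y = z ∧ i = j
  clopen : ∀ (r : Bool) (k : ℕ), IsClopen {y | y ∈ P ∧ cl y = r ∧ len y = k}
  long : ∀ y ∈ P, R < len y
  bdd : ∀ y ∈ P, len y ≤ M

/-- the permutation underlying a homeomorphism, as a homomorphism -/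
def permHom (X : Type u) [TopologicalSpace X] : (X ≃ₜ X) →* Equiv.Perm X where
  toFun g := g.toEquiv
  map_one' := rfl
  map_mul' _ _ := rfl

@[simp] theorem permHom_apply (g : X ≃ₜ X) (x : X) : permHom X g x = g x := rfl

/-- `Γ` contains all the 3-cycles `U → st s U → st (!s) st s U → U`. -/
def HasThree (st : Bool → X ≃ₜ X) (Γ : Subgroup (X ≃ₜ X)) : Prop :=
  ∀ (U : Set X) (s : Bool), IsClopen U → (∀ x ∈ U, st s x ∉ U) →
    (∀ x ∈ U, st (!s) (st s x) ∉ U) → (∀ x ∈ U, ∀ y ∈ U, st (!s) (st s x) ≠ st s y) →
    ∃ c ∈ Γ, (∀ x ∈ U, c x = st s x ∧ c (st s x) = st (!s) (st s x) ∧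
      c (st (!s) (st s x)) = x) ∧
      ∀ x, x ∉ U → (∀ y ∈ U, x ≠ st s y) → (∀ y ∈ U, x ≠ st (!s) (st s y)) → c x = x

@[simp] theorem walk_zero (st : Bool → X ≃ₜ X) (r : Bool) (x : X) : walk st r 0 x = x := rfl

theorem walk_succ (st : Bool → X ≃ₜ X) (r : Bool) (n : ℕ) (x : X) :
    walk st r (n + 1) x = walk st (!r) n (st r x) := rfl

@[simp] theorem letter_zero (r : Bool) : letter r 0 = r := rfl

theorem letter_succ (r : Bool) (n : ℕ) : letter r (n + 1) = !(letter r n) := rfl

end Pool.Agent.DF71
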