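import Pool.Agent.DF71.Ext

set_option autoImplicit false

/-!
# DF71/Hat: the even permutation of the levels of one tower  (OPEN MODULE)

Keep the statements exactly; extra lemmas `private`.
-/

namespace Pool.Agent.DF71

/-- PROOF.  Apply `ext_even` with `n = ℓ + 1` to the index set
`I = {i : Fin (ℓ + 1) // N ≤ i ∧ i + N ≤ ℓ}`, `p = Subtype.val` and `q i = ⟨f i, _⟩` (the value is
`≤ ℓ` by `hf`, injective by `hinj`).  The complement of `I` in `Fin (ℓ + 1)` contains the two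
different elements `0` and `ℓ` (as `N ≥ 1` and `2 N ≤ ℓ`), so `|I| + 2 ≤ ℓ + 1`. -/
theorem hat_level {ℓ N : ℕ} (hN : 1 ≤ N) (hℓ : 2 * N ≤ ℓ) (f : ℕ → ℕ)
    (hf : ∀ i, N ≤ i → i + N ≤ ℓ → f i ≤ ℓ)
    (hinj : ∀ i j, N ≤ i → i + N ≤ ℓ → N ≤ j → j + N ≤ ℓ → f i = f j → i = j) :
    ∃ σ : alternatingGroup (Fin (ℓ + 1)), ∀ i : Fin (ℓ + 1), N ≤ (i : ℕ) → (i : ℕ) + N ≤ ℓ →
      (((σ : Equiv.Perm (Fin (ℓ + 1))) i : Fin (ℓ + 1)) : ℕ) = f i := by
  classical
  have hcard : Nat.card {i : Fin (ℓ + 1) // N ≤ (i : ℕ) ∧ (i : ℕ) + N ≤ ℓ} + 2 ≤ ℓ + 1 := by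
    rw [Nat.card_eq_fintype_card, Fintype.card_subtype]
    have hdis : Disjoint (Finset.univ.filter fun i : Fin (ℓ + 1) => N ≤ (i : ℕ) ∧ (i : ℕ) + N ≤ ℓ)
        ({⟨0, by omega⟩, ⟨ℓ, by omega⟩} : Finset (Fin (ℓ + 1))) := by
      rw [Finset.disjoint_left]
      intro i hi hi'
      rw [Finset.mem_filter] at hi
      rw [Finset.mem_insert, Finset.mem_singleton] at hi'
      rcases hi' with h | h
      · rw [h] at hi
        have := hi.2.1
        simp only at this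
        omega
      · rw [h] at hi
        have := hi.2.2
        simp only at this
        omega
    have hpair : ({⟨0, by omega⟩, ⟨ℓ, by omega⟩} : Finset (Fin (ℓ + 1))).card = 2 := by
      apply Finset.card_pair
      intro h
      have := congrArg Fin.val h
      simp only at this
      omega
    have h1 := Finset.card_le_univ
      ((Finset.univ.filter fun i : Fin (ℓ + 1) => N ≤ (i : ℕ) ∧ (i : ℕ) + N ≤ ℓ) ∪
        ({⟨0, by omega⟩, ⟨ℓ, by omega⟩} : Finset (Fin (ℓ + 1))))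
    rw [Finset.card_union_of_disjoint hdis, hpair, Fintype.card_fin] at h1
    exact h1
  obtain ⟨σ, hσ⟩ := ext_even (n := ℓ + 1)
    (I := {i : Fin (ℓ + 1) // N ≤ (i : ℕ) ∧ (i : ℕ) + N ≤ ℓ})
    (fun i => i.1) (fun i => ⟨f i.1, Nat.lt_succ_of_le (hf _ i.2.1 i.2.2)⟩)
    (fun i j h => Subtype.ext h)
    (fun i j h => by
      have h' := congrArg Fin.val h
      exact Subtype.ext (Fin.ext (hinj _ _ i.2.1 i.2.2 j.2.1 j.2.2 h')))
    hcard
  refine ⟨σ, fun i h1 h2 => ?_⟩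
  have h3 := hσ ⟨i, h1, h2⟩
  simp only at h3
  rw [h3]

/-- PROOF.  The values `(i : ℕ)` of the elements are `< N` or `> ℓ - N` and `≤ ℓ`: they are in
`Finset.range N ∪ Finset.Ioc (ℓ - N) ℓ` (if `N ≤ ℓ`; otherwise all `ℓ + 1 ≤ N` elements count),
which has at most `2 N` elements (`Set.ncard_le_card`-type lemmas after mapping by `Fin.val`, which
is injective). -/
theorem bad_card (ℓ N : ℕ) :
    {i : Fin (ℓ + 1) | ¬ (N ≤ (i : ℕ) ∧ (i : ℕ) + N ≤ ℓ)}.ncard ≤ 2 * N := by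
  have h1 : {i : Fin (ℓ + 1) | ¬ (N ≤ (i : ℕ) ∧ (i : ℕ) + N ≤ ℓ)}.ncard ≤
      (↑(Finset.range N ∪ Finset.Ioc (ℓ - N) ℓ) : Set ℕ).ncard := by
    apply Set.ncard_le_ncard_of_injOn (fun i : Fin (ℓ + 1) => (i : ℕ))
    · intro i hi
      have hi' : ¬ (N ≤ (i : ℕ) ∧ (i : ℕ) + N ≤ ℓ) := hi
      have hlt := i.2
      rw [Finset.mem_coe, Finset.mem_union, Finset.mem_range, Finset.mem_Ioc]
      omega
    · intro i _ j _ h
      exact Fin.ext h
  rw [Set.ncard_coe_finset] at h1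
  have h2 := Finset.card_union_le (Finset.range N) (Finset.Ioc (ℓ - N) ℓ)
  rw [Finset.card_range, Nat.card_Ioc] at h2
  omega

end Pool.Agent.DF71
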