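import Pool.Agent.DF71.WalkA

set_option autoImplicit false

/-!
# DF71/Pat: patterns of the action on the segments, labels  (OPEN MODULE)

Keep the statements exactly; extra lemmas `private`.
-/

namespace Pool.Agent.DF71

universe u

variable {X : Type u} [TopologicalSpace X] {st : Bool → X ≃ₜ X} {R M : ℕ} {P : Set X}
  {cl : X → Bool} {len : X → ℕ}

/-- An element of displacement at most `N` maps a point of a segment which is at distance at least
`N` from the ends into the same segment.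

PROOF.  Let `x_j = walk st (!(cl y)) j y` and `e x_i = walk st r k x_i` with `k ≤ N`.  If
`r = letter (!(cl y)) i` this is `x_{i+k}` (`walk_add`) and `i + k ≤ len y`.  Otherwise
`r = !(letter (!(cl y)) i) = letter (!(!(cl y))) i` (`letter_not`) and by `walk_back` (`k ≤ N ≤ i`)
this is `x_{i-k}`. -/
theorem exists_pattern (hinv : ∀ r x, st r (st r x) = x) {e : X → X} {N : ℕ}
    (he : ∀ x, ∃ r, ∃ i, i ≤ N ∧ e x = walk st r i x) (y : X) (i : ℕ) (hi : N ≤ i)
    (hi' : i + N ≤ len y) :
    ∃ j, j ≤ len y ∧ e (walk st (!(cl y)) i y) = walk st (!(cl y)) j y := by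
  obtain ⟨r, k, hk, hek⟩ := he (walk st (!(cl y)) i y)
  by_cases hr : r = letter (!(cl y)) i
  · refine ⟨i + k, by omega, ?_⟩
    rw [hek, walk_add, hr]
  · have hr' : r = letter (!(!(cl y))) i := by
      rw [letter_not]
      cases r <;> cases h : letter (!(cl y)) i <;> simp_all
    refine ⟨i - k, by omega, ?_⟩
    rw [hek, hr']
    exact walk_back st hinv (!(cl y)) i k (by omega) y

/-- The pattern is locally constant.

PROOF.  Let `Q = {y ∈ P | cl y = r ∧ len y = k}`, clopen by `hT.clopen`.  For `j ≤ k` let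
`C j = Q ∩ {y | e (walk st (!r) i y) = walk st (!r) j y}`, closed (`isClosed_eq`, continuity of `e`
and `walk_continuous`, `X` Hausdorff).  By `exists_pattern` the `C j`, `j ≤ k`, cover `Q`, and they
are disjoint by `hT.inj` (for the same `y`).  So `C j = Q \ ⋃_{j' ≤ k, j' ≠ j} C j'` is open
too. -/
theorem isClopen_pattern [T2Space X] (hinv : ∀ r x, st r (st r x) = x)
    (hT : Tow st R M P cl len) {e : X → X} (hec : Continuous e) {N : ℕ}
    (he : ∀ x, ∃ r, ∃ i, i ≤ N ∧ e x = walk st r i x) (r : Bool) (k i j : ℕ) (hi : N ≤ i)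
    (hi' : i + N ≤ k) (hj : j ≤ k) :
    IsClopen {y | (y ∈ P ∧ cl y = r ∧ len y = k) ∧
      e (walk st (!r) i y) = walk st (!r) j y} := by
  have hcl : ∀ j', IsClosed {y | (y ∈ P ∧ cl y = r ∧ len y = k) ∧
      e (walk st (!r) i y) = walk st (!r) j' y} := by
    intro j'
    have h1 := (hT.clopen r k).isClosed
    have h2 : IsClosed {y | e (walk st (!r) i y) = walk st (!r) j' y} :=
      isClosed_eq (hec.comp (walk_continuous st (!r) i)) (walk_continuous st (!r) j')
    exact h1.inter h2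
  refine ⟨hcl j, ?_⟩
  have hU : IsClosed (⋃ j' ∈ (Finset.range (k + 1)).filter (fun j' => j' ≠ j),
      {y | (y ∈ P ∧ cl y = r ∧ len y = k) ∧
        e (walk st (!r) i y) = walk st (!r) j' y}) :=
    isClosed_biUnion_finset fun j' _ => hcl j'
  have hEq : {y | (y ∈ P ∧ cl y = r ∧ len y = k) ∧
      e (walk st (!r) i y) = walk st (!r) j y} =
      {y | y ∈ P ∧ cl y = r ∧ len y = k} ∩
        (⋃ j' ∈ (Finset.range (k + 1)).filter (fun j' => j' ≠ j),
          {y | (y ∈ P ∧ cl y = r ∧ len y = k) ∧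
            e (walk st (!r) i y) = walk st (!r) j' y})ᶜ := by
    ext y
    constructor
    · rintro ⟨hQ, h1⟩
      refine ⟨hQ, fun hmem => ?_⟩
      simp only [Set.mem_iUnion] at hmem
      obtain ⟨j', hj', -, h2⟩ := hmem
      rw [Finset.mem_filter, Finset.mem_range] at hj'
      have h3 : walk st (!(cl y)) j y = walk st (!(cl y)) j' y := by
        rw [hQ.2.1, ← h1, h2]
      have h4 := (hT.inj y hQ.1 y hQ.1 j j' (by rw [hQ.2.2]; exact hj)
        (by rw [hQ.2.2]; omega) h3).2
      exact hj'.2 h4.symm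
    · rintro ⟨hQ, hmem⟩
      refine ⟨hQ, ?_⟩
      obtain ⟨j', hj', h1⟩ := exists_pattern (cl := cl) (len := len) hinv he y i hi
        (by rw [hQ.2.2]; exact hi')
      rw [hQ.2.1] at h1
      by_cases hjj : j' = j
      · rw [← hjj]
        exact h1
      · exfalso
        apply hmem
        simp only [Set.mem_iUnion]
        refine ⟨j', ?_, hQ, h1⟩
        rw [Finset.mem_filter, Finset.mem_range]
        exact ⟨by rw [hQ.2.2] at hj'; omega, hjj⟩
  rw [hEq]
  exact (hT.clopen r k).isOpen.inter hU.isOpen_compl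

/-- **Labels.**  The base points can be labelled by a finite set such that the classes are clopen,
the letter `cl`, the length and the patterns of finitely many elements of displacement at most `N`
are constant on every class.

PROOF.  Let `ι` be the finite type `Bool × Fin (M + 1) × Option (E × Fin (M + 1) × Fin (M + 1))`
(`E` coerced to a type) and let `A : ι → Set X` be:
`A (r, k, none) = {y ∈ P | cl y = r ∧ len y = k}`, and
`A (r, k, some (e, i, j)) = {y | (y ∈ P ∧ cl y = r ∧ len y = k) ∧ e (walk st (!r) i y) =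
walk st (!r) j y}` if `N ≤ i`, `i + N ≤ k`, `j ≤ k`, and `∅` otherwise; all clopen.  Take
`K = Set ι` (finite) and `lab y = {q | y ∈ A q}`.  The class
`{y ∈ P | lab y = τ} = P ∩ ⋂ q, (A q or its complement according to q ∈ τ)` is clopen.  If
`y, y' ∈ P` and `lab y = lab y'`, then `y ∈ A (cl y, len y, none)` (`hT.bdd`) gives
`cl y' = cl y`, `len y' = len y`, and if `N ≤ i`, `i + N ≤ len y`, take `j` from `exists_pattern`;
`y ∈ A (cl y, len y, some (e, i, j))` gives the equation for `y'`. -/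
theorem exists_labels [T2Space X] (hinv : ∀ r x, st r (st r x) = x)
    (hT : Tow st R M P cl len) (E : Finset (X ≃ₜ X)) {N : ℕ}
    (hE : ∀ e ∈ E, ∀ x, ∃ r, ∃ i, i ≤ N ∧ e x = walk st r i x) :
    ∃ (K : Type u) (_ : Finite K) (lab : X → K), (∀ τ, IsClopen {y | y ∈ P ∧ lab y = τ}) ∧
      (∀ y ∈ P, ∀ z ∈ P, lab z = lab y → cl z = cl y ∧ len z = len y) ∧
      ∀ e ∈ E, ∀ y ∈ P, ∀ i, N ≤ i → i + N ≤ len y → ∃ j, j ≤ len y ∧
        ∀ z ∈ P, lab z = lab y → e (walk st (!(cl y)) i z) = walk st (!(cl y)) j z := by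
  classical
  let ι : Type u := Bool × Fin (M + 1) × Option (E × Fin (M + 1) × Fin (M + 1))
  let A : ι → Set X := fun q => match q.2.2 with
    | none => {y | y ∈ P ∧ cl y = q.1 ∧ len y = (q.2.1 : ℕ)}
    | some p => if N ≤ (p.2.1 : ℕ) ∧ (p.2.1 : ℕ) + N ≤ (q.2.1 : ℕ) ∧ (p.2.2 : ℕ) ≤ (q.2.1 : ℕ)
        then {y | (y ∈ P ∧ cl y = q.1 ∧ len y = (q.2.1 : ℕ)) ∧
          (p.1 : X ≃ₜ X) (walk st (!q.1) (p.2.1 : ℕ) y) = walk st (!q.1) (p.2.2 : ℕ) y}
        else ∅
  have hA : ∀ q, IsClopen (A q) := by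
    rintro ⟨r, k, _ | ⟨e, i, j⟩⟩
    · exact hT.clopen r k
    · show IsClopen (if N ≤ (i : ℕ) ∧ (i : ℕ) + N ≤ (k : ℕ) ∧ (j : ℕ) ≤ (k : ℕ)
        then {y | (y ∈ P ∧ cl y = r ∧ len y = (k : ℕ)) ∧
          (e : X ≃ₜ X) (walk st (!r) (i : ℕ) y) = walk st (!r) (j : ℕ) y}
        else ∅)
      split_ifs with h
      · exact isClopen_pattern hinv hT (e : X ≃ₜ X).continuous (hE _ e.2) r k i j h.1 h.2.1 h.2.2
      · exact isClopen_empty
  have hfin : Finite ι := by infer_instance
  refine ⟨Set ι, inferInstance, fun y => {q | y ∈ A q}, ?_, ?_, ?_⟩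
  · intro τ
    have hEq : {y | y ∈ P ∧ {q | y ∈ A q} = τ} =
        P ∩ ⋂ q : ι, (if q ∈ τ then A q else (A q)ᶜ) := by
      ext y
      simp only [Set.mem_ofPred_eq, Set.mem_inter_iff, Set.mem_iInter]
      refine and_congr_right fun _ => ?_
      constructor
      · rintro rfl q
        by_cases hq : y ∈ A q
        · rw [if_pos (show q ∈ {q | y ∈ A q} from hq)]
          exact hq
        · rw [if_neg (show q ∉ {q | y ∈ A q} from hq)]
          exact hq
      · intro h
        ext q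
        have h1 := h q
        by_cases hq : q ∈ τ
        · rw [if_pos hq] at h1
          exact ⟨fun _ => hq, fun _ => h1⟩
        · rw [if_neg hq] at h1
          exact ⟨fun h2 => absurd h2 h1, fun h2 => absurd h2 hq⟩
    rw [hEq]
    refine hT.clopenP.inter (isClopen_iInter_of_finite fun q => ?_)
    split_ifs
    · exact hA q
    · exact (hA q).compl
  · intro y hy z hz hlab
    replace hlab : ({q | z ∈ A q} : Set ι) = {q | y ∈ A q} := hlab
    have hq : y ∈ A (cl y, ⟨len y, by have := hT.bdd y hy; omega⟩, none) := ⟨hy, rfl, rfl⟩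
    have hq' : (cl y, (⟨len y, by have := hT.bdd y hy; omega⟩ : Fin (M + 1)), none) ∈
        ({q | z ∈ A q} : Set ι) := by
      rw [hlab]
      exact hq
    exact hq'.2
  · intro e he y hy i hi hi'
    obtain ⟨j, hj, h1⟩ := exists_pattern (cl := cl) (len := len) hinv (hE e he) y i hi hi'
    refine ⟨j, hj, fun z hz hlab => ?_⟩
    replace hlab : ({q | z ∈ A q} : Set ι) = {q | y ∈ A q} := hlab
    have hb := hT.bdd y hy
    have hcond : N ≤ i ∧ i + N ≤ len y ∧ j ≤ len y := ⟨hi, hi', hj⟩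
    have hq : y ∈ A (cl y, ⟨len y, by omega⟩,
        some (⟨e, he⟩, ⟨i, by omega⟩, ⟨j, by omega⟩)) := by
      show y ∈ (if N ≤ i ∧ i + N ≤ len y ∧ j ≤ len y
        then {y' | (y' ∈ P ∧ cl y' = cl y ∧ len y' = len y) ∧
          e (walk st (!(cl y)) i y') = walk st (!(cl y)) j y'}
        else ∅)
      rw [if_pos hcond]
      exact ⟨⟨hy, rfl, rfl⟩, h1⟩
    have hq' : (cl y, (⟨len y, by omega⟩ : Fin (M + 1)),
        some ((⟨e, he⟩ : E), (⟨i, by omega⟩ : Fin (M + 1)), (⟨j, by omega⟩ : Fin (M + 1)))) ∈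
        ({q | z ∈ A q} : Set ι) := by
      rw [hlab]
      exact hq
    have hq2 : z ∈ (if N ≤ i ∧ i + N ≤ len y ∧ j ≤ len y
        then {y' | (y' ∈ P ∧ cl y' = cl y ∧ len y' = len y) ∧
          e (walk st (!(cl y)) i y') = walk st (!(cl y)) j y'}
        else ∅) := hq'
    rw [if_pos hcond] at hq2
    exact hq2.2

end Pool.Agent.DF71
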