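import Mathlib

set_option autoImplicit false

/-!
# DF71/Gen: consecutive 3-cycles generate the alternating group  (OPEN MODULE)

Keep the statements exactly; extra lemmas `private`.
-/

namespace Pool.Agent.DF71

/-- the 3-cycle `i → i + 1 → i + 2 → i` of `Fin n` -/
def cyc3 (n : ℕ) (i : ℕ) (hi : i + 2 < n) : Equiv.Perm (Fin n) :=
  Equiv.swap ⟨i, by omega⟩ ⟨i + 1, by omega⟩ * Equiv.swap ⟨i + 1, by omega⟩ ⟨i + 2, hi⟩

/-- PROOF. Evaluate the transpositions (`Equiv.swap_apply_def`, `Fin.ext_iff`). -/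
theorem cyc3_apply (n i : ℕ) (hi : i + 2 < n) :
    cyc3 n i hi ⟨i, by omega⟩ = ⟨i + 1, by omega⟩ ∧
      cyc3 n i hi ⟨i + 1, by omega⟩ = ⟨i + 2, hi⟩ ∧
      cyc3 n i hi ⟨i + 2, hi⟩ = ⟨i, by omega⟩ ∧
      ∀ j : Fin n, (j : ℕ) ≠ i → (j : ℕ) ≠ i + 1 → (j : ℕ) ≠ i + 2 → cyc3 n i hi j = j := by
  have hab : (⟨i, by omega⟩ : Fin n) ≠ ⟨i + 1, by omega⟩ := by
    rw [Ne, Fin.ext_iff]
    simp
  have hac : (⟨i, by omega⟩ : Fin n) ≠ ⟨i + 2, hi⟩ := by
    rw [Ne, Fin.ext_iff]
    simp
  have hbc : (⟨i + 1, by omega⟩ : Fin n) ≠ ⟨i + 2, hi⟩ := by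
    rw [Ne, Fin.ext_iff]
    simp
  refine ⟨?_, ?_, ?_, ?_⟩
  · rw [cyc3, Equiv.Perm.mul_apply, Equiv.swap_apply_of_ne_of_ne hab hac, Equiv.swap_apply_left]
  · rw [cyc3, Equiv.Perm.mul_apply, Equiv.swap_apply_left,
      Equiv.swap_apply_of_ne_of_ne hac.symm hbc.symm]
  · rw [cyc3, Equiv.Perm.mul_apply, Equiv.swap_apply_right, Equiv.swap_apply_right]
  · intro j h1 h2 h3
    have j1 : j ≠ ⟨i, by omega⟩ := fun h => h1 (by rw [h])
    have j2 : j ≠ ⟨i + 1, by omega⟩ := fun h => h2 (by rw [h])
    have j3 : j ≠ ⟨i + 2, hi⟩ := fun h => h3 (by rw [h])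
    rw [cyc3, Equiv.Perm.mul_apply, Equiv.swap_apply_of_ne_of_ne j2 j3,
      Equiv.swap_apply_of_ne_of_ne j1 j2]

/-- the consecutive transposition -/
private def st (m : ℕ) (i : Fin m) : Equiv.Perm (Fin (m + 1)) := Equiv.swap i.castSucc i.succ

private theorem st_mul_self (m : ℕ) (i : Fin m) : st m i * st m i = 1 := Equiv.swap_mul_self _ _

private theorem st_lt (m : ℕ) (H : Subgroup (Equiv.Perm (Fin (m + 1))))
    (h : ∀ (i : ℕ) (hi : i + 2 < m + 1), cyc3 (m + 1) i hi ∈ H) (d : ℕ) :
    ∀ i j : Fin m, (j : ℕ) = i + d → st m i * st m j ∈ H := by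
  induction d with
  | zero =>
    intro i j hij
    have : j = i := Fin.ext (by omega)
    rw [this, st_mul_self]
    exact H.one_mem
  | succ d ih =>
    intro i j hij
    have hi1 : (i : ℕ) + 1 < m := by have := j.2; omega
    have e1 : st m i * st m ⟨i + 1, hi1⟩ ∈ H := by
      have h1 := h i (by omega)
      have e2 : st m i * st m ⟨i + 1, hi1⟩ = cyc3 (m + 1) i (by omega) := rfl
      rw [e2]
      exact h1
    have e3 := ih ⟨i + 1, hi1⟩ j (by simp only; omega)
    have e4 := H.mul_mem e1 e3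
    rwa [mul_assoc, ← mul_assoc (st m ⟨i + 1, hi1⟩), st_mul_self, one_mul] at e4

private theorem st_all (m : ℕ) (H : Subgroup (Equiv.Perm (Fin (m + 1))))
    (h : ∀ (i : ℕ) (hi : i + 2 < m + 1), cyc3 (m + 1) i hi ∈ H) (i j : Fin m) :
    st m i * st m j ∈ H := by
  rcases le_total (i : ℕ) j with hij | hij
  · exact st_lt m H h (j - i) i j (by omega)
  · have h1 := H.inv_mem (st_lt m H h (i - j) j i (by omega))
    have e : (st m j * st m i)⁻¹ = st m i * st m j := by
      rw [mul_inv_rev]
      have e1 : ∀ k, (st m k)⁻¹ = st m k := fun k => Equiv.swap_inv _ _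
      rw [e1, e1]
    rwa [e] at h1

private theorem list_even (m : ℕ) (H : Subgroup (Equiv.Perm (Fin (m + 1))))
    (h : ∀ (i : ℕ) (hi : i + 2 < m + 1), cyc3 (m + 1) i hi ∈ H) (k : ℕ) :
    ∀ l : List (Equiv.Perm (Fin (m + 1))), (∀ y ∈ l, ∃ i, st m i = y) → l.length = 2 * k →
      l.prod ∈ H := by
  induction k with
  | zero =>
    intro l _ hl
    rw [List.length_eq_zero_iff.1 hl]
    exact H.one_mem
  | succ k ih =>
    intro l hy hl
    match l, hy, hl with
    | [], _, hl => simp at hl
    | [_], _, hl =>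
      simp only [List.length_cons, List.length_nil] at hl
      omega
    | a :: b :: l, hy, hl =>
      obtain ⟨i, rfl⟩ := hy a (by simp)
      obtain ⟨j, rfl⟩ := hy b (by simp)
      rw [List.prod_cons, List.prod_cons, ← mul_assoc]
      refine H.mul_mem (st_all m H h i j) (ih l (fun y hyl => hy y ?_) ?_)
      · simp [hyl]
      · simp only [List.length_cons] at hl
        omega

private theorem sign_list (m : ℕ) (l : List (Equiv.Perm (Fin (m + 1))))
    (hy : ∀ y ∈ l, ∃ i, st m i = y) : Equiv.Perm.sign l.prod = (-1) ^ l.length := by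
  induction l with
  | nil => simp
  | cons a l ih =>
    obtain ⟨i, rfl⟩ := hy a (by simp)
    rw [List.prod_cons, map_mul, ih fun y hyl => hy y (List.mem_cons_of_mem _ hyl),
      List.length_cons, pow_succ']
    congr 1
    exact Equiv.Perm.sign_swap (Fin.castSucc_lt_succ).ne

/-- A subgroup of the group of the permutations of `Fin n` containing all the consecutive 3-cycles
contains the alternating group.

PROOF.  Let `s i = swap i (i + 1)` for `i + 1 < n`.  CLAIM: `s i * s j ∈ H` for all `i, j`.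
For `i = j` it is `1`; `s i * s (i + 1)` is `cyc3 n i` and `s (i + 1) * s i` is its inverse; for
`i < j` use `s i * s j = (s i * s (i + 1)) * (s (i + 1) * s j)` and induction on `j - i`, and take
inverses for `i > j`.  The submonoid generated by the `s i` is everything
(`Equiv.Perm.mclosure_swap_castSucc_succ`, for `Fin (n + 1)`; the case `n = 0` is trivial), so every
`σ` is the product of a list of the `s i` (`Submonoid.exists_list_of_mem_closure`), whose length is
even if `sign σ = 1` (`sign` of each `s i` is `-1`).  A product of a list of even length of the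
`s i` is in `H` by the claim (induction on the list, two elements at a time). -/
theorem gen_cons (n : ℕ) (H : Subgroup (Equiv.Perm (Fin n)))
    (h : ∀ (i : ℕ) (hi : i + 2 < n), cyc3 n i hi ∈ H) : alternatingGroup (Fin n) ≤ H := by
  intro σ hσ
  cases n with
  | zero =>
    have : σ = 1 := Subsingleton.elim _ _
    rw [this]
    exact H.one_mem
  | succ m =>
    have hmem : σ ∈ Submonoid.closure (Set.range fun i : Fin m => Equiv.swap i.castSucc i.succ) := by
      rw [Equiv.Perm.mclosure_swap_castSucc_succ]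
      exact Submonoid.mem_top σ
    obtain ⟨l, hl, rfl⟩ := Submonoid.exists_list_of_mem_closure hmem
    have hl' : ∀ y ∈ l, ∃ i, st m i = y := fun y hy => hl y hy
    rw [Equiv.Perm.mem_alternatingGroup, sign_list m l hl'] at hσ
    have he : Even l.length := by
      by_contra hne
      rw [Nat.not_even_iff_odd] at hne
      rw [hne.neg_one_pow] at hσ
      exact absurd hσ (by decide)
    obtain ⟨k, hk⟩ := he
    exact list_even m H h k l hl' (by omega)

end Pool.Agent.DF71
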