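import Pool.Agent.DF71.Defs
import Pool.Agent.DF71.Gen

set_option autoImplicit false

/-!
# DF71/Lam: castles from towers  (OPEN MODULE)

`e : X ≃ Σ t, B t × Fin (n t)` identifies `X` with a disjoint union of towers; `lam e` lets the
product of the symmetric groups act on the levels.  Keep the statements exactly; extra lemmas
`private`.
-/

namespace Pool.Agent.DF71

universe u v w

variable {Γ : Type v} {X : Type w} [Group Γ] {T : Type u} {n : T → ℕ} {B : T → Type w}

/-- the action of a family of permutations of the levels on `X` -/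
def lam (e : X ≃ Σ t : T, B t × Fin (n t)) : (∀ t, Equiv.Perm (Fin (n t))) →* Equiv.Perm X where
  toFun σ := (e.trans (Equiv.sigmaCongrRight fun t =>
    Equiv.prodCongr (Equiv.refl (B t)) (σ t))).trans e.symm
  map_one' := by
    ext x
    change e.symm (e x) = x
    exact e.symm_apply_apply x
  map_mul' σ τ := by
    ext x
    change e.symm _ = e.symm _
    congr 1
    change _ = (Equiv.sigmaCongrRight fun t => Equiv.prodCongr (Equiv.refl (B t)) (σ t))
      (e (e.symm _))
    rw [e.apply_symm_apply]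
    rfl

theorem lam_apply (e : X ≃ Σ t : T, B t × Fin (n t)) (σ : ∀ t, Equiv.Perm (Fin (n t))) (x : X) :
    lam e σ x = e.symm ⟨(e x).1, (e x).2.1, σ (e x).1 (e x).2.2⟩ := rfl

theorem lam_symm (e : X ≃ Σ t : T, B t × Fin (n t)) (σ : ∀ t, Equiv.Perm (Fin (n t))) (t : T)
    (b : B t) (i : Fin (n t)) :
    lam e σ (e.symm ⟨t, b, i⟩) = e.symm ⟨t, b, σ t i⟩ := by
  rw [lam_apply, e.apply_symm_apply]

/-- If the 3-cycles of consecutive levels of the single towers are in the image of `ρ`, then the
whole product of the alternating groups is.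

PROOF.  For fixed `t` the set of the `τ : Perm (Fin (n t))` with
`lam e (Pi.mulSingle t τ) ∈ ρ.range` is a subgroup (a `comap`), which contains the alternating
group by `gen_cons`.  The subgroup `J = {σ | lam e σ ∈ ρ.range}` (a `comap`) of
`∀ t, Perm (Fin (n t))` therefore contains `Subgroup.pi Set.univ (fun t => alternatingGroup _)` by
`Subgroup.pi_le_iff` (`T` is finite). -/
theorem lam_mem [Finite T] [DecidableEq T] (ρ : Γ →* Equiv.Perm X)
    (e : X ≃ Σ t : T, B t × Fin (n t))
    (h : ∀ (t : T) (i : ℕ) (hi : i + 2 < n t),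
      lam e (Pi.mulSingle t (cyc3 (n t) i hi)) ∈ ρ.range) (σ : Ev n) :
    lam e (fun t => (σ t : Equiv.Perm (Fin (n t)))) ∈ ρ.range := by
  have h1 : Subgroup.pi Set.univ (fun t => alternatingGroup (Fin (n t))) ≤
      ρ.range.comap (lam e) :=
    Subgroup.pi_le_iff.2 fun t => Subgroup.map_le_iff_le_comap.2
      (gen_cons (n t) _ fun i hi => h t i hi)
  exact h1 (fun t _ => (σ t).2)

/-- The castle of a family of towers.

PROOF.  `lev x = ⟨(e x).1, (e x).2.2⟩`.  The map `σ ↦ lam e (fun t => σ t)` is a homomorphism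
`Ev n →* Equiv.Perm X` (compose `lam e` with the coordinatewise inclusion) with values in
`ρ.range`; compose its `codRestrict` with the inverse of `MonoidHom.ofInjective hρ : Γ ≃* ρ.range`
to get `Λ`, with `ρ (Λ σ) = lam e (fun t => σ t)`.  `lev_act` and `fix` follow from `lam_apply`
(`fix`: if `σ` fixes the level of `x` then `lam e σ x = e.symm (e x) = x`). -/
theorem exists_castle (ρ : Γ →* Equiv.Perm X) (hρ : Function.Injective ρ)
    (e : X ≃ Σ t : T, B t × Fin (n t))
    (h : ∀ σ : Ev n, lam e (fun t => (σ t : Equiv.Perm (Fin (n t)))) ∈ ρ.range) :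
    ∃ C : Castle ρ n, (∀ x, C.lev x = ⟨(e x).1, (e x).2.2⟩) ∧
      ∀ σ : Ev n, ρ (C.Λ σ) = lam e (fun t => (σ t : Equiv.Perm (Fin (n t)))) := by
  let L : Ev n →* Equiv.Perm X :=
    { toFun := fun σ => lam e (fun t => (σ t : Equiv.Perm (Fin (n t))))
      map_one' := (lam e).map_one
      map_mul' := fun σ τ => (lam e).map_mul _ _ }
  let Λ : Ev n →* Γ := (MonoidHom.ofInjective hρ).symm.toMonoidHom.comp (L.codRestrict ρ.range h)
  have hΛ : ∀ σ : Ev n, ρ (Λ σ) = lam e (fun t => (σ t : Equiv.Perm (Fin (n t)))) := by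
    intro σ
    have h1 := congrArg Subtype.val
      ((MonoidHom.ofInjective hρ).apply_symm_apply (L.codRestrict ρ.range h σ))
    exact h1
  refine ⟨{ lev := fun x => ⟨(e x).1, (e x).2.2⟩, Λ := Λ, lev_act := ?_, fix := ?_ },
    fun _ => rfl, hΛ⟩
  · intro σ x
    rw [hΛ, lam_apply, e.apply_symm_apply]
    rfl
  · intro σ x hx
    have h1 := eq_of_heq (Sigma.mk.inj hx).2
    rw [hΛ, lam_apply]
    have h2 : (σ (e x).1 : Equiv.Perm (Fin (n (e x).1))) (e x).2.2 = (e x).2.2 := h1
    rw [h2]
    exact e.symm_apply_apply x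

end Pool.Agent.DF71
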