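import Pool.Agent.DF71.WalkA
import Pool.Agent.DF71.Lam

set_option autoImplicit false

/-!
# DF71/TowCastle: the castle of a decomposition into labelled segments  (proved)

Keep the statement exactly; extra lemmas `private`.
-/

namespace Pool.Agent.DF71

universe u

variable {X : Type u} [TopologicalSpace X] {st : Bool → X ≃ₜ X} {R M : ℕ} {P : Set X}
  {cl : X → Bool} {len : X → ℕ}

/-- **The castle.**  The towers are the labels which occur; `y t` is a base point with the label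
`t`; the tower `t` has `len (y t) + 1` levels.

PROOF.  Let `T = {τ : K // ∃ z ∈ P, lab z = τ}` (finite), `y t` a chosen base point with label `t`,
`B t = {z : X // z ∈ P ∧ lab z = t}`, `n t = len (y t) + 1`, `r t = cl (y t)`.  The map
`(t, z, i) ↦ walk st (!(r t)) i z` from `Σ t, B t × Fin (n t)` to `X` is bijective: by `hcl`
`r t = cl z` and `n t = len z + 1`, so surjectivity is `hT.cover` and injectivity is `hT.inj`
(`z` determines the label `t`).  Let `e : X ≃ Σ t, B t × Fin (n t)` be the inverse of the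
corresponding `Equiv.ofBijective`; `e.symm ⟨t, z, i⟩ = walk st (!(r t)) i z`.
The 3-cycles (hypothesis of `lam_mem` for `ρ = (permHom X).comp Γ.subtype`): given `t`, `i` with
`i + 2 < n t`, let `U = walk st (!(r t)) i '' {z ∈ P | lab z = t}`, clopen by
`walk_isClopen_image` and `hlab`, and `s = letter (!(r t)) i`.  For `z ∈ P` with `lab z = t`:
`st s (walk st (!(r t)) i z) = walk st (!(r t)) (i + 1) z` and
`st (!s) (walk st (!(r t)) (i + 1) z) = walk st (!(r t)) (i + 2) z` (`walk_succ'`).  The three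
disjointness conditions of `h3 : HasThree st Γ` follow from `hT.inj`.  The `c ∈ Γ` it gives is equal
to `lam e (Pi.mulSingle t (cyc3 (n t) i hi))` at every point `e.symm ⟨t', z, j⟩` (`lam_symm`,
`cyc3_apply`, `Pi.mulSingle`): for `t' = t` and `j = i, i+1, i+2` by the first part, and for
`t' ≠ t` or `j` different from the three by the second part of `HasThree` and `hT.inj`.
Now take `C` from `exists_castle` (`ρ` is injective: `permHom X` and `Γ.subtype` are).
For `x : X` let `e x = ⟨t, z, i⟩`; then `C.lev x = ⟨t, i⟩`, `x = e.symm ⟨t, z, i⟩ =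
walk st (!(r t)) i z` and `(C.Λ σ) x = lam e σ x = e.symm ⟨t, z, σ t i⟩` (`lam_symm`). -/
theorem exists_tower_castle (hinv : ∀ r x, st r (st r x) = x) (hT : Tow st R M P cl len)
    {K : Type u} [Finite K] (lab : X → K) (hlab : ∀ τ, IsClopen {y | y ∈ P ∧ lab y = τ})
    (hcl : ∀ y ∈ P, ∀ z ∈ P, lab z = lab y → cl z = cl y ∧ len z = len y)
    (Γ : Subgroup (X ≃ₜ X)) (h3 : HasThree st Γ) :
    ∃ (T : Type u) (y : T → X) (C : Castle ((permHom X).comp Γ.subtype)
      (fun t => len (y t) + 1)), (∀ t, y t ∈ P) ∧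
      ∀ x, ∃ (t : T) (z : X) (i : Fin (len (y t) + 1)), z ∈ P ∧ lab z = lab (y t) ∧
        C.lev x = ⟨t, i⟩ ∧ x = walk st (!(cl (y t))) i z ∧
        ∀ σ : Ev (fun t => len (y t) + 1), ((C.Λ σ : Γ) : X ≃ₜ X) x =
          walk st (!(cl (y t))) ((σ t : Equiv.Perm (Fin (len (y t) + 1))) i : Fin _) z := by
  classical
  choose y hyP hylab using fun t : {τ : K // ∃ z ∈ P, lab z = τ} => t.2
  have hclz : ∀ (t : {τ : K // ∃ z ∈ P, lab z = τ}) (z : X), z ∈ P → lab z = t.1 →
      cl z = cl (y t) ∧ len z = len (y t) := fun t z hz hzt =>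
    hcl (y t) (hyP t) z hz (hzt.trans (hylab t).symm)
  have inj2 : ∀ (t t' : {τ : K // ∃ z ∈ P, lab z = τ}) (z z' : X) (i j : ℕ), z ∈ P →
      lab z = t.1 → z' ∈ P → lab z' = t'.1 → i < len (y t) + 1 → j < len (y t') + 1 →
      walk st (!(cl (y t))) i z = walk st (!(cl (y t'))) j z' → z = z' ∧ i = j := by
    intro t t' z z' i j hz hzt hz' hzt' hi hj h
    obtain ⟨h1, h2⟩ := hclz t z hz hzt
    obtain ⟨h3, h4⟩ := hclz t' z' hz' hzt'
    rw [← h1, ← h3] at h
    exact hT.inj z hz z' hz' i j (by omega) (by omega) h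
  let f : (Σ t : {τ : K // ∃ z ∈ P, lab z = τ}, {z : X // z ∈ P ∧ lab z = t.1} ×
      Fin (len (y t) + 1)) → X := fun p => walk st (!(cl (y p.1))) p.2.2 p.2.1.1
  have hf : Function.Bijective f := by
    constructor
    · rintro ⟨t, ⟨z, hz, hzt⟩, i⟩ ⟨t', ⟨z', hz', hzt'⟩, i'⟩ h
      obtain ⟨h1, h2⟩ := inj2 t t' z z' i i' hz hzt hz' hzt' i.2 i'.2 h
      subst h1
      have h5 : t = t' := Subtype.ext (hzt.symm.trans hzt')
      subst h5
      have h6 : i = i' := Fin.ext h2
      subst h6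
      rfl
    · intro x
      obtain ⟨z, hz, i, hi, hx⟩ := hT.cover x
      have h1 := hclz ⟨lab z, z, hz, rfl⟩ z hz rfl
      refine ⟨⟨⟨lab z, z, hz, rfl⟩, ⟨z, hz, rfl⟩, ⟨i, by omega⟩⟩, ?_⟩
      change walk st (!(cl (y ⟨lab z, z, hz, rfl⟩))) i z = x
      rw [← h1.1]
      exact hx
  let e := (Equiv.ofBijective f hf).symm
  have hes : ∀ (t : {τ : K // ∃ z ∈ P, lab z = τ}) (z : {z : X // z ∈ P ∧ lab z = t.1})
      (i : Fin (len (y t) + 1)), e.symm ⟨t, z, i⟩ = walk st (!(cl (y t))) i z.1 :=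
    fun t z i => rfl
  have : Finite {τ : K // ∃ z ∈ P, lab z = τ} := Subtype.finite
  have hρ : Function.Injective ((permHom X).comp Γ.subtype) := by
    intro a b hab
    apply Subtype.ext
    ext x
    have := congrArg (fun g : Equiv.Perm X => g x) hab
    exact this
  have hmem : ∀ (t : {τ : K // ∃ z ∈ P, lab z = τ}) (i : ℕ) (hi : i + 2 < len (y t) + 1),
      lam (n := fun t => len (y t) + 1) e
        (Pi.mulSingle t (cyc3 (len (y t) + 1) i hi)) ∈
        ((permHom X).comp Γ.subtype).range := by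
    intro t i hi
    have hs1 : ∀ z : X, st (letter (!(cl (y t))) i) (walk st (!(cl (y t))) i z) =
        walk st (!(cl (y t))) (i + 1) z := fun z => (walk_succ' st _ i z).symm
    have hs2 : ∀ z : X, st (!(letter (!(cl (y t))) i)) (walk st (!(cl (y t))) (i + 1) z) =
        walk st (!(cl (y t))) (i + 2) z := by
      intro z
      rw [walk_succ' st _ (i + 1) z, letter_succ]
    obtain ⟨c, hc, hc1, hc2⟩ := h3
      (walk st (!(cl (y t))) i '' {z | z ∈ P ∧ lab z = t.1}) (letter (!(cl (y t))) i)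
      (walk_isClopen_image st _ i (hlab t.1))
      (by
        rintro _ ⟨z, ⟨hz, hzt⟩, rfl⟩ ⟨z', ⟨hz', hzt'⟩, h⟩
        rw [hs1] at h
        have := (inj2 t t z' z i (i + 1) hz' hzt' hz hzt (by omega) (by omega) h).2
        omega)
      (by
        rintro _ ⟨z, ⟨hz, hzt⟩, rfl⟩ ⟨z', ⟨hz', hzt'⟩, h⟩
        rw [hs1, hs2] at h
        have := (inj2 t t z' z i (i + 2) hz' hzt' hz hzt (by omega) (by omega) h).2
        omega)
      (by
        rintro _ ⟨z, ⟨hz, hzt⟩, rfl⟩ _ ⟨z', ⟨hz', hzt'⟩, rfl⟩ h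
        rw [hs1, hs2, hs1] at h
        have := (inj2 t t z z' (i + 2) (i + 1) hz hzt hz' hzt' (by omega) (by omega) h).2
        omega)
    have hc1' : ∀ z, z ∈ P → lab z = t.1 →
        c (walk st (!(cl (y t))) i z) = walk st (!(cl (y t))) (i + 1) z ∧
        c (walk st (!(cl (y t))) (i + 1) z) = walk st (!(cl (y t))) (i + 2) z ∧
        c (walk st (!(cl (y t))) (i + 2) z) = walk st (!(cl (y t))) i z := by
      intro z hz hzt
      have h := hc1 _ ⟨z, ⟨hz, hzt⟩, rfl⟩
      rw [hs1, hs2] at h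
      exact h
    have hc2' : ∀ (t' : {τ : K // ∃ z ∈ P, lab z = τ}) (z : X) (j : ℕ), z ∈ P →
        lab z = t'.1 → j < len (y t') + 1 → (t' = t → j ≠ i ∧ j ≠ i + 1 ∧ j ≠ i + 2) →
        c (walk st (!(cl (y t'))) j z) = walk st (!(cl (y t'))) j z := by
      intro t' z j hz hzt hj hne
      have hne' : ∀ (z' : X) (k : ℕ), z' ∈ P → lab z' = t.1 → k < len (y t) + 1 →
          (k = i ∨ k = i + 1 ∨ k = i + 2) →
          walk st (!(cl (y t'))) j z ≠ walk st (!(cl (y t))) k z' := by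
        intro z' k hz' hzt' hk hk' h
        obtain ⟨h1, h2⟩ := inj2 t' t z z' j k hz hzt hz' hzt' hj hk h
        subst h1
        have := hne (Subtype.ext (hzt.symm.trans hzt'))
        omega
      refine hc2 _ ?_ ?_ ?_
      · rintro ⟨z', ⟨hz', hzt'⟩, h⟩
        exact hne' z' i hz' hzt' (by omega) (by omega) h.symm
      · rintro _ ⟨z', ⟨hz', hzt'⟩, rfl⟩
        rw [hs1]
        exact hne' z' (i + 1) hz' hzt' (by omega) (by omega)
      · rintro _ ⟨z', ⟨hz', hzt'⟩, rfl⟩
        rw [hs1, hs2]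
        exact hne' z' (i + 2) hz' hzt' (by omega) (by omega)
    refine ⟨⟨c, hc⟩, ?_⟩
    apply Equiv.ext
    intro x
    obtain ⟨⟨t', ⟨z, hz, hzt⟩, j⟩, rfl⟩ := e.symm.surjective x
    rw [lam_symm (n := fun t => len (y t) + 1)]
    change c (walk st (!(cl (y t'))) j z) = walk st (!(cl (y t'))) _ z
    by_cases htt : t' = t
    · subst htt
      rw [Pi.mulSingle_eq_same]
      obtain ⟨p1, p2, p3, p4⟩ := cyc3_apply (len (y t') + 1) i hi
      obtain ⟨j, hj⟩ := j
      by_cases hji : j = i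
      · subst hji
        rw [p1]
        exact (hc1' z hz hzt).1
      by_cases hji1 : j = i + 1
      · subst hji1
        rw [p2]
        exact (hc1' z hz hzt).2.1
      by_cases hji2 : j = i + 2
      · subst hji2
        rw [p3]
        exact (hc1' z hz hzt).2.2
      rw [p4 ⟨j, hj⟩ hji hji1 hji2]
      exact hc2' t' z j hz hzt hj (fun _ => ⟨hji, hji1, hji2⟩)
    · rw [Pi.mulSingle_eq_of_ne htt]
      exact hc2' t' z j hz hzt j.2 (fun h => absurd h htt)
  obtain ⟨C, hC1, hC2⟩ := exists_castle (n := fun t => len (y t) + 1)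
    ((permHom X).comp Γ.subtype) hρ e
    (lam_mem (n := fun t => len (y t) + 1) ((permHom X).comp Γ.subtype) e hmem)
  refine ⟨{τ : K // ∃ z ∈ P, lab z = τ}, y, C, hyP, ?_⟩
  intro x
  obtain ⟨⟨t, ⟨z, hz, hzt⟩, i⟩, rfl⟩ := e.symm.surjective x
  refine ⟨t, z, i, hz, hzt.trans (hylab t).symm, ?_, rfl, ?_⟩
  · rw [hC1, e.apply_symm_apply]
  · intro σ
    have h := congrArg (fun g : Equiv.Perm X => g (e.symm ⟨t, ⟨z, hz, hzt⟩, i⟩)) (hC2 σ)
    beta_reduce at h
    rw [lam_symm (n := fun t => len (y t) + 1)] at h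
    exact h

end Pool.Agent.DF71
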