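import Pool.Agent.DF71.TowM
import Pool.Agent.DF71.TowCastle
import Pool.Agent.DF71.Pat
import Pool.Agent.DF71.Hat

set_option autoImplicit false

/-!
# DF71/DMain: the dihedral full groups act almost finitely

Keep the statement exactly; extra lemmas `private`.
-/

namespace Pool.Agent.DF71

universe u

variable {X : Type u} [TopologicalSpace X]

/-- **Theorem.**  A group of homeomorphisms of bounded displacement containing the 3-cycles acts
almost finitely.

PROOF.  Let `E` be a finite subset of `Γ` and `k` given.  Choose `N ≥ 1` which is a bound for the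
displacement of all `e ∈ E` (maximum), and `R ≥ 8, 2 N, 2 k N`, say `R = 8 + 2 N + 2 k N`.  Take
`M, P, cl, len, hT` from `exists_tow hD R`, the labels from `exists_labels` for the image `E'` of `E`
in `X ≃ₜ X` (`E.image Subtype.val`, or `E.map`), and `T, y, C` from `exists_tower_castle`; put
`n t = len (y t) + 1 > R`, so `8 ≤ n t`.
Let `e ∈ E`.  For every `t` and every `i` with `N ≤ i`, `i + N ≤ len (y t)` let `f t i` be the `j`
given by `exists_labels` for `y t` (and `f t i = 0` for the other `i`).  `f t` is injective on these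
`i`: if `f t i = f t i'` then `e` takes the same value at `walk st (!(cl (y t))) i (y t)` and
`walk st (!(cl (y t))) i' (y t)`, so these points are equal and `i = i'` by `hT.inj`.  By
`hat_level` (`2 N ≤ R < len (y t)`) there is `σ t` with `σ t i = f t i` for these `i`.  Put
`J = {⟨t, i⟩ | ¬ (N ≤ i ∧ i + N ≤ len (y t))}`; `(slice J t).ncard ≤ 2 N` by `bad_card`, so
`k * (slice J t).ncard ≤ 2 k N ≤ R ≤ n t`.  If `C.lev x ∉ J`, let `t, z, i` be as in
`exists_tower_castle`; then `N ≤ i`, `i + N ≤ len (y t)` and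
`e x = e (walk st (!(cl (y t))) i z) = walk st (!(cl (y t))) (f t i) z = (C.Λ σ) x`. -/
theorem almostFinite_of [CompactSpace X] [T2Space X] [TotallyDisconnectedSpace X] [Infinite X]
    {st : Bool → X ≃ₜ X} (hD : Dih st) (Γ : Subgroup (X ≃ₜ X))
    (hdisp : ∀ γ ∈ Γ, ∃ N : ℕ, ∀ x, ∃ r, ∃ i, i ≤ N ∧ γ x = walk st r i x)
    (h3 : HasThree st Γ) : AlmostFinite ((permHom X).comp Γ.subtype) := by
  classical
  intro E k
  choose! Nf hNf using hdisp
  obtain ⟨N, hN1, hN⟩ : ∃ N : ℕ, 1 ≤ N ∧ ∀ e ∈ E, ∀ x, ∃ r, ∃ i, i ≤ N ∧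
      (e : X ≃ₜ X) x = walk st r i x := by
    refine ⟨1 + ∑ e ∈ E, Nf (e : X ≃ₜ X), by omega, ?_⟩
    intro e he x
    obtain ⟨r, i, hi, h⟩ := hNf e.1 e.2 x
    have hle : Nf (e : X ≃ₜ X) ≤ ∑ e ∈ E, Nf (e : X ≃ₜ X) :=
      Finset.single_le_sum (f := fun e : Γ => Nf (e : X ≃ₜ X)) (fun _ _ => Nat.zero_le _) he
    exact ⟨r, i, by omega, h⟩
  obtain ⟨M, P, cl, len, hT⟩ := exists_tow hD (8 + 2 * N + 2 * k * N)
  obtain ⟨K, hK, lab, hlab, hcl, hpat⟩ := exists_labels hD.inv hT (E.image Subtype.val) (N := N) (by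
    intro e he
    obtain ⟨e', he', rfl⟩ := Finset.mem_image.mp he
    exact hN e' he')
  obtain ⟨T, y, C, hyP, hC⟩ := exists_tower_castle hD.inv hT lab hlab hcl Γ h3
  refine ⟨T, fun t => len (y t) + 1, C, ?_, ?_⟩
  · intro t
    have h := hT.long (y t) (hyP t)
    change 8 ≤ len (y t) + 1
    omega
  intro e he
  have hpat' : ∀ t, ∀ i, N ≤ i → i + N ≤ len (y t) → ∃ j, j ≤ len (y t) ∧
      ∀ z ∈ P, lab z = lab (y t) →
        (e : X ≃ₜ X) (walk st (!(cl (y t))) i z) = walk st (!(cl (y t))) j z :=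
    fun t i hi hi' => hpat e.1 (Finset.mem_image_of_mem _ he) (y t) (hyP t) i hi hi'
  choose! f hf1 hf2 using hpat'
  have hσ : ∀ t, ∃ σ : alternatingGroup (Fin (len (y t) + 1)), ∀ i : Fin (len (y t) + 1),
      N ≤ (i : ℕ) → (i : ℕ) + N ≤ len (y t) →
      (((σ : Equiv.Perm (Fin (len (y t) + 1))) i : Fin (len (y t) + 1)) : ℕ) = f t i := by
    intro t
    have hl := hT.long (y t) (hyP t)
    refine hat_level hN1 (by omega) (f t) (hf1 t) ?_
    intro i j hi hi' hj hj' hij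
    have e1 := hf2 t i hi hi' (y t) (hyP t) rfl
    have e2 := hf2 t j hj hj' (y t) (hyP t) rfl
    rw [← hij, ← e1] at e2
    have e3 := (e : X ≃ₜ X).injective e2
    exact (hT.inj (y t) (hyP t) (y t) (hyP t) j i (by omega) (by omega) e3).2.symm
  choose σ hσ using hσ
  refine ⟨σ, {l | ¬ (N ≤ (l.2 : ℕ) ∧ (l.2 : ℕ) + N ≤ len (y l.1))}, ?_, ?_⟩
  · intro t
    have hb := bad_card (len (y t)) N
    have hl := hT.long (y t) (hyP t)
    calc k * (slice {l : Lvl (fun t => len (y t) + 1) |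
          ¬ (N ≤ (l.2 : ℕ) ∧ (l.2 : ℕ) + N ≤ len (y l.1))} t).ncard
        ≤ k * (2 * N) := Nat.mul_le_mul_left _ hb
      _ ≤ len (y t) + 1 := by
        have : k * (2 * N) = 2 * k * N := by ring
        omega
  · intro x hx
    obtain ⟨t, z, i, hzP, hzlab, hlev, hxz, hact⟩ := hC x
    rw [hlev] at hx
    simp only [Set.mem_ofPred_eq, not_not] at hx
    obtain ⟨h1, h2⟩ := hx
    change (e : X ≃ₜ X) x = ((C.Λ σ : Γ) : X ≃ₜ X) x
    rw [hact σ, hσ t i h1 h2, ← hf2 t i h1 h2 z hzP hzlab, ← hxz]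

end Pool.Agent.DF71
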