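import Mathlib

set_option autoImplicit false

/-!
# DF71/Defs: castles, ordered products, almost finiteness  (COMPLETE FILE)

Project DF71 (MP_d14c4c_al): commutator width of the groups between the alternating full group and
the full group of a minimal action of the infinite dihedral group on a totally disconnected compact
space (Nekrashevych's simple groups of intermediate growth): every element of the derived subgroup
is a product of at most six commutators.

ABSTRACT PART.  A group `Γ` acts faithfully on a set `X` by `ρ : Γ →* Equiv.Perm X`.  A *castle*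
consists of towers `t : T`, the tower `t` having the levels `0, …, n t - 1`, of a map
`lev : X → Lvl n` giving the tower and the level of a point and of a homomorphism `Λ` from the
product `Ev n` of the alternating groups of the sets of the levels into `Γ`, such that `Λ σ` permutes
the levels as `σ` does and fixes every point in a level fixed by `σ`.
-/

namespace Pool.Agent.DF71

open scoped commutatorElement

universe u v w

/-- the levels of the towers: the tower `t` has the levels `0, …, n t - 1` -/
abbrev Lvl {T : Type u} (n : T → ℕ) : Type u := Σ t : T, Fin (n t)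

/-- the product over the towers of the alternating groups of the sets of the levels -/
abbrev Ev {T : Type u} (n : T → ℕ) : Type u := ∀ t : T, alternatingGroup (Fin (n t))

/-- the action of `Ev n` on the levels -/
def lact {T : Type u} {n : T → ℕ} (σ : Ev n) (l : Lvl n) : Lvl n :=
  ⟨l.1, (σ l.1 : Equiv.Perm (Fin (n l.1))) l.2⟩

@[simp] theorem lact_one {T : Type u} {n : T → ℕ} (l : Lvl n) : lact (1 : Ev n) l = l := rfl

theorem lact_mul {T : Type u} {n : T → ℕ} (σ τ : Ev n) (l : Lvl n) :
    lact (σ * τ) l = lact σ (lact τ l) := rfl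

@[simp] theorem lact_inv_lact {T : Type u} {n : T → ℕ} (σ : Ev n) (l : Lvl n) :
    lact σ⁻¹ (lact σ l) = l := by
  rw [← lact_mul, inv_mul_cancel, lact_one]

@[simp] theorem lact_lact_inv {T : Type u} {n : T → ℕ} (σ : Ev n) (l : Lvl n) :
    lact σ (lact σ⁻¹ l) = l := by
  rw [← lact_mul, mul_inv_cancel, lact_one]

theorem lact_injective {T : Type u} {n : T → ℕ} (σ : Ev n) : Function.Injective (lact σ) := by
  intro a b h
  rw [← lact_inv_lact σ a, h, lact_inv_lact]

/-- the part of a set of levels in the tower `t` -/
def slice {T : Type u} {n : T → ℕ} (J : Set (Lvl n)) (t : T) : Set (Fin (n t)) :=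
  {i | (⟨t, i⟩ : Lvl n) ∈ J}

/-- a castle for the action `ρ` of `Γ` on `X` -/
structure Castle {Γ : Type v} {X : Type w} [Group Γ] (ρ : Γ →* Equiv.Perm X) {T : Type u}
    (n : T → ℕ) where
  /-- the tower and the level of a point -/
  lev : X → Lvl n
  /-- the homomorphism from the product of the alternating groups -/
  Λ : Ev n →* Γ
  lev_act : ∀ (σ : Ev n) (x : X), lev (ρ (Λ σ) x) = lact σ (lev x)
  fix : ∀ (σ : Ev n) (x : X), lact σ (lev x) = lev x → ρ (Λ σ) x = x

/-- The action `ρ` is *almost finite*: for every finite set `E` of elements and every `k` there is a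
castle all of whose towers have at least 8 levels, such that every `e ∈ E` acts as an element of
the product of the alternating groups outside a set of levels which has at most the proportion
`1 / k` in every tower. -/
def AlmostFinite {Γ : Type v} {X : Type u} [Group Γ] (ρ : Γ →* Equiv.Perm X) : Prop :=
  ∀ (E : Finset Γ) (k : ℕ), ∃ (T : Type u) (n : T → ℕ) (C : Castle ρ n), (∀ t, 8 ≤ n t) ∧
    ∀ e ∈ E, ∃ (σ : Ev n) (J : Set (Lvl n)), (∀ t, k * (slice J t).ncard ≤ n t) ∧
      ∀ x, C.lev x ∉ J → ρ e x = ρ (C.Λ σ) x

/-- the ordered product `u 0 * u 1 * ⋯ * u (m - 1)` -/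
def pr {G : Type v} [Group G] (m : ℕ) (u : ℕ → G) : G := ((List.range m).map u).prod

@[simp] theorem pr_zero {G : Type v} [Group G] (u : ℕ → G) : pr 0 u = 1 := rfl

theorem pr_succ {G : Type v} [Group G] (m : ℕ) (u : ℕ → G) : pr (m + 1) u = pr m u * u m := by
  simp [pr, List.range_succ]

theorem pr_congr {G : Type v} [Group G] (m : ℕ) {u v : ℕ → G} (h : ∀ i, i < m → u i = v i) :
    pr m u = pr m v := by
  induction m with
  | zero => rfl
  | succ m ih =>
    rw [pr_succ, pr_succ, ih (fun i hi => h i (by omega)), h m (by omega)]

theorem pr_four {G : Type v} [Group G] (m : ℕ) (u : ℕ → G) :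
    pr (4 * m) u = pr m (fun i => u (4 * i) * u (4 * i + 1) * u (4 * i + 2) * u (4 * i + 3)) := by
  induction m with
  | zero => rfl
  | succ m ih =>
    rw [show 4 * (m + 1) = 4 * m + 1 + 1 + 1 + 1 by ring, pr_succ, pr_succ, pr_succ, pr_succ,
      pr_succ, ih]
    simp only [mul_assoc]

section Supports

variable {Γ : Type v} {X : Type w} [Group Γ] {ρ : Γ →* Equiv.Perm X} {T : Type u} {n : T → ℕ}

/-- the elements supported in the levels of `S` -/
def Castle.Sup (C : Castle ρ n) (S : Set (Lvl n)) : Subgroup Γ where
  carrier := {g | ∀ x, C.lev x ∉ S → ρ g x = x}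
  mul_mem' := by
    intro a b ha hb x hx
    rw [map_mul, Equiv.Perm.mul_apply, hb x hx, ha x hx]
  one_mem' := by
    intro x _
    simp
  inv_mem' := by
    intro a ha x hx
    rw [map_inv, Equiv.Perm.inv_eq_iff_eq, ha x hx]

theorem Castle.mem_Sup (C : Castle ρ n) (S : Set (Lvl n)) (g : Γ) :
    g ∈ C.Sup S ↔ ∀ x, C.lev x ∉ S → ρ g x = x := Iff.rfl

end Supports

end Pool.Agent.DF71
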