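import Pool.Agent.DF71.WalkA

set_option autoImplicit false

/-!
# DF71/Disp: elements of the dihedral group have bounded displacement  (OPEN MODULE)

Keep the statement exactly; extra lemmas `private`.
-/

namespace Pool.Agent.DF71

universe u

variable {X : Type u} [TopologicalSpace X]

private theorem step (st : Bool → X ≃ₜ X) (hinv : ∀ r x, st r (st r x) = x) (s : Bool) {N : ℕ}
    {x y : X} (h : ∃ r, ∃ i, i ≤ N ∧ y = walk st r i x) :
    ∃ r, ∃ i, i ≤ N + 1 ∧ st s y = walk st r i x := by
  obtain ⟨r, i, hi, rfl⟩ := h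
  by_cases hs : s = letter r i
  · exact ⟨r, i + 1, by omega, by rw [walk_succ', hs]⟩
  · cases i with
    | zero => exact ⟨s, 1, by omega, rfl⟩
    | succ k =>
      have hs' : s = letter r k := by
        rw [letter_succ] at hs
        cases s <;> cases h : letter r k <;> simp_all
      refine ⟨r, k, by omega, ?_⟩
      rw [walk_succ', hs', hinv]

private theorem one (st : Bool → X ≃ₜ X) (hinv : ∀ r x, st r (st r x) = x) (f : X ≃ₜ X)
    (hf : f ∈ Subgroup.closure (Set.range st)) :
    ∃ N : ℕ, ∀ x, ∃ r, ∃ i, i ≤ N ∧ f x = walk st r i x := by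
  induction hf using Subgroup.closure_induction_left with
  | one => exact ⟨0, fun x => ⟨true, 0, le_refl _, rfl⟩⟩
  | mul_left a ha b hb ih =>
    obtain ⟨s, rfl⟩ := ha
    obtain ⟨N, hN⟩ := ih
    refine ⟨N + 1, fun x => ?_⟩
    exact step st hinv s (hN x)
  | inv_mul_cancel a ha b hb ih =>
    obtain ⟨s, rfl⟩ := ha
    obtain ⟨N, hN⟩ := ih
    refine ⟨N + 1, fun x => ?_⟩
    have e : ((st s)⁻¹ * b) x = st s (b x) := by
      apply (st s).injective
      rw [hinv]
      change st s ((st s).symm (b x)) = b x
      exact (st s).apply_symm_apply (b x)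
    rw [e]
    exact step st hinv s (hN x)

/-- Finitely many elements of the group generated by the two involutions move the points by at most
`N` steps along the walks.

PROOF.  Say that `y` is `N`-near to `x` if `y = walk st r i x` for some `r` and some `i ≤ N`.
If `y` is `N`-near to `x` then `st s y` is `(N+1)`-near to `x`: if `s = letter r i` use
`walk_succ'`; otherwise, if `i = 0` then `st s y = walk st s 1 x`, and if `i = k + 1` then
`s = letter r k` and `st s y = walk st r k x` by `walk_succ'` and `hinv`.  For one element `f` of the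
closure, find `N` by `Subgroup.closure_induction_left` (or an induction on words): `1` has `N = 0`,
and `st s * f`, `(st s)⁻¹ * f` have `N + 1` (`(st s)⁻¹ = st s` by `hinv`).  For a finite set take
the maximum (induction on the finite set, or `Finset.exists_le`/`Finset.sup`). -/
theorem disp (st : Bool → X ≃ₜ X) (hinv : ∀ r x, st r (st r x) = x) (F : Finset (X ≃ₜ X))
    (hF : ∀ f ∈ F, f ∈ Subgroup.closure (Set.range st)) :
    ∃ N : ℕ, ∀ f ∈ F, ∀ x, ∃ r, ∃ i, i ≤ N ∧ f x = walk st r i x := by
  classical
  induction F using Finset.induction_on with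
  | empty => exact ⟨0, fun f hf => absurd hf (Finset.notMem_empty f)⟩
  | insert a F ha ih =>
    obtain ⟨N, hN⟩ := ih fun f hf => hF f (Finset.mem_insert_of_mem hf)
    obtain ⟨M, hM⟩ := one st hinv a (hF a (Finset.mem_insert_self a F))
    refine ⟨max N M, fun f hf x => ?_⟩
    rcases Finset.mem_insert.1 hf with rfl | hf
    · obtain ⟨r, i, hi, h⟩ := hM x
      exact ⟨r, i, hi.trans (le_max_right _ _), h⟩
    · obtain ⟨r, i, hi, h⟩ := hN f hf x
      exact ⟨r, i, hi.trans (le_max_left _ _), h⟩

end Pool.Agent.DF71
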