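import Pool.Agent.DF71.Defs

set_option autoImplicit false

/-!
# DF71/Expand: separating the small parts in a product of commutators  (OPEN MODULE)

Keep the statements exactly; extra lemmas `private`.  `pr m u` is the ordered product
`u 0 * ⋯ * u (m - 1)`, see `Defs` (`pr_zero`, `pr_succ`, `pr_congr`).
-/

namespace Pool.Agent.DF71

open scoped commutatorElement

universe v

variable {G : Type v} [Group G]

/-- Every element of the derived subgroup is `pr m (⁅a i, b i⁆)` for some `m, a, b`.

PROOF.  `commutator G` is the closure of the set of the commutators (`commutator_eq_closure`), which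
is closed under inversion (`commutatorElement_inv`), so an element is the product of a list of
commutators (`Subgroup.closure_induction`, or `Subgroup.exists_list_of_mem_closure`); alternatively
prove by `Subgroup.closure_induction` that the set of the `pr m (⁅a i, b i⁆)` is closed under
products (concatenation: use `a i` for `i < m` and `a' (i - m)` otherwise) and inverses. -/
theorem comm_pr (g : G) (hg : g ∈ commutator G) :
    ∃ (m : ℕ) (a b : ℕ → G), g = pr m (fun i => ⁅a i, b i⁆) := by
  have key : ∀ l : List G, (∀ x ∈ l, ∃ c d : G, x = ⁅c, d⁆) →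
      ∃ (m : ℕ) (a b : ℕ → G), l.prod = pr m (fun i => ⁅a i, b i⁆) := by
    intro l
    induction l using List.reverseRecOn with
    | nil =>
      intro _
      exact ⟨0, fun _ => 1, fun _ => 1, rfl⟩
    | append_singleton l x ih =>
      intro h
      obtain ⟨m, a, b, hl⟩ := ih fun y hy => h y (List.mem_append_left _ hy)
      obtain ⟨c, d, hx⟩ := h x (List.mem_append_right _ (List.mem_singleton_self x))
      refine ⟨m + 1, fun i => if i = m then c else a i, fun i => if i = m then d else b i, ?_⟩
      rw [pr_succ, List.prod_append, List.prod_singleton, hl, hx]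
      congr 1
      · refine pr_congr m fun i hi => ?_
        show ⁅a i, b i⁆ = ⁅if i = m then c else a i, if i = m then d else b i⁆
        rw [if_neg (by omega), if_neg (by omega)]
      · simp
  rw [commutator_eq_closure] at hg
  have hg' : g ∈ Submonoid.closure (commutatorSet G ∪ (commutatorSet G)⁻¹) := by
    rw [← Subgroup.closure_toSubmonoid]
    exact hg
  obtain ⟨l, hl, hprod⟩ := Submonoid.exists_list_of_mem_closure hg'
  obtain ⟨m, a, b, h⟩ := key l (fun x hx => by
    rcases hl x hx with h | h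
    · obtain ⟨c, d, hcd⟩ := h
      exact ⟨c, d, hcd.symm⟩
    · obtain ⟨c, d, hcd⟩ := Set.mem_inv.1 h
      refine ⟨d, c, ?_⟩
      rw [← commutatorElement_inv c d, hcd, inv_inv])
  exact ⟨m, a, b, by rw [← hprod, h]⟩

/-- **Expansion.**  Let `L` be a subgroup and `a i = A i * α i`, `b i = B i * β i` with
`A i, B i ∈ L`.  The product of the commutators `⁅a i, b i⁆` is a product of blocks of
`L`-conjugates of the `α i, β i, (α i)⁻¹, (β i)⁻¹`, times an element of `L`.

PROOF.  For one commutator
`⁅A α, B β⁆ = (A α A⁻¹) (AB β (AB)⁻¹) (AB α⁻¹ (AB)⁻¹) (ABA⁻¹ β⁻¹ (ABA⁻¹)⁻¹) ⁅A, B⁆` (`group`).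
Put `H i = pr i (⁅A j, B j⁆) ∈ L` and `x i = H i * A i`, `y i = H i * A i * B i`,
`w i = H i * A i * B i * (A i)⁻¹`, `h = H m`, and prove by induction on `m` that
`pr m (⁅a i, b i⁆) = pr m (blocks) * H m`: the step is `pr m blocks * H m * (blk * ⁅A m, B m⁆)
= pr m blocks * (H m * blk * (H m)⁻¹) * (H m * ⁅A m, B m⁆)`. -/
theorem expand (L : Subgroup G) (m : ℕ) (A α B β : ℕ → G) (hA : ∀ i, A i ∈ L)
    (hB : ∀ i, B i ∈ L) :
    ∃ (x y w : ℕ → G) (h : G), (∀ i, x i ∈ L) ∧ (∀ i, y i ∈ L) ∧ (∀ i, w i ∈ L) ∧ h ∈ L ∧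
      pr m (fun i => ⁅A i * α i, B i * β i⁆) =
        pr m (fun i => (x i * α i * (x i)⁻¹) * (y i * β i * (y i)⁻¹) *
          (y i * (α i)⁻¹ * (y i)⁻¹) * (w i * (β i)⁻¹ * (w i)⁻¹)) * h := by
  have hH : ∀ m, pr m (fun j => ⁅A j, B j⁆) ∈ L := by
    intro m
    induction m with
    | zero => exact L.one_mem
    | succ m ih =>
      rw [pr_succ]
      refine L.mul_mem ih ?_
      rw [commutatorElement_def]
      exact L.mul_mem (L.mul_mem (L.mul_mem (hA m) (hB m)) (L.inv_mem (hA m))) (L.inv_mem (hB m))
  refine ⟨fun i => pr i (fun j => ⁅A j, B j⁆) * A i,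
    fun i => pr i (fun j => ⁅A j, B j⁆) * A i * B i,
    fun i => pr i (fun j => ⁅A j, B j⁆) * A i * B i * (A i)⁻¹, pr m (fun j => ⁅A j, B j⁆),
    fun i => L.mul_mem (hH i) (hA i), fun i => L.mul_mem (L.mul_mem (hH i) (hA i)) (hB i),
    fun i => L.mul_mem (L.mul_mem (L.mul_mem (hH i) (hA i)) (hB i)) (L.inv_mem (hA i)), hH m, ?_⟩
  induction m with
  | zero => simp
  | succ m ih =>
    rw [pr_succ, pr_succ, ih, pr_succ]
    simp only [commutatorElement_def]
    group

end Pool.Agent.DF71
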