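import Pool.Agent.DF71.Defs

set_option autoImplicit false

/-!
# DF71/Ext: partial injections extend to even permutations  (OPEN MODULE)

Prove the two theorems.  Keep the statements exactly; extra lemmas `private`.
-/

namespace Pool.Agent.DF71

universe u v

/-- **Even extension.**  If `p, q : I → Fin n` are injective and `|I| + 2 ≤ n`, some even
permutation maps `p i` to `q i` for all `i`.

PROOF.  `p` and `q` give equivalences of `I` with their ranges, so there is an equivalence of
`{x // x ∈ range p}` with `{x // x ∈ range q}` sending `p i` to `q i`; extend it to a permutation `σ`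
of `Fin n` (`Equiv.extendSubtype`, `Equiv.extendSubtype_apply_of_mem`).  If `sign σ = 1` take `σ`.
Otherwise choose two distinct points `a, b` outside `range p` (its cardinality is `|I| ≤ n - 2`) and
take `σ * Equiv.swap a b`: its sign is `1` and it agrees with `σ` on `range p`. -/
theorem ext_even {n : ℕ} {I : Type v} [Finite I] (p q : I → Fin n) (hp : Function.Injective p)
    (hq : Function.Injective q) (h : Nat.card I + 2 ≤ n) :
    ∃ σ : alternatingGroup (Fin n), ∀ i, (σ : Equiv.Perm (Fin n)) (p i) = q i := by
  classical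
  haveI := Fintype.ofFinite I
  let e : {x // x ∈ Set.range p} ≃ {x // x ∈ Set.range q} :=
    (Equiv.ofInjective p hp).symm.trans (Equiv.ofInjective q hq)
  let σ : Equiv.Perm (Fin n) := e.extendSubtype
  have hσ : ∀ i, σ (p i) = q i := by
    intro i
    have h1 : σ (p i) = (e ⟨p i, Set.mem_range_self i⟩ : Fin n) :=
      Equiv.extendSubtype_apply_of_mem e (p i) (Set.mem_range_self i)
    have h2 : (Equiv.ofInjective p hp).symm ⟨p i, Set.mem_range_self i⟩ = i := by
      rw [Equiv.symm_apply_eq]
      rfl
    rw [h1]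
    show ((Equiv.ofInjective q hq) ((Equiv.ofInjective p hp).symm ⟨p i, Set.mem_range_self i⟩) :
      Fin n) = q i
    rw [h2]
    rfl
  rcases Int.units_eq_one_or (Equiv.Perm.sign σ) with hs | hs
  · exact ⟨⟨σ, Equiv.Perm.mem_alternatingGroup.2 hs⟩, hσ⟩
  · have hcard : (Finset.univ.image p).card = Nat.card I := by
      rw [Finset.card_image_of_injective _ hp, Finset.card_univ, Nat.card_eq_fintype_card]
    have h1 : 1 < ((Finset.univ.image p)ᶜ).card := by
      rw [Finset.card_compl, Fintype.card_fin, hcard]
      omega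
    obtain ⟨a, ha, b, hb, hab⟩ := Finset.one_lt_card.1 h1
    rw [Finset.mem_compl, Finset.mem_image] at ha hb
    refine ⟨⟨σ * Equiv.swap a b, Equiv.Perm.mem_alternatingGroup.2 ?_⟩, ?_⟩
    · rw [Equiv.Perm.sign_mul, hs, Equiv.Perm.sign_swap hab]
      decide
    · intro i
      have ha' : p i ≠ a := fun h => ha ⟨i, Finset.mem_univ i, h⟩
      have hb' : p i ≠ b := fun h => hb ⟨i, Finset.mem_univ i, h⟩
      show σ (Equiv.swap a b (p i)) = q i
      rw [Equiv.swap_apply_of_ne_of_ne ha' hb', hσ]

/-- The same for a family (choose for every `t`). -/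
theorem ext_family {T : Type u} {n : T → ℕ} {I : T → Type v} [∀ t, Finite (I t)]
    (p q : ∀ t, I t → Fin (n t)) (hp : ∀ t, Function.Injective (p t))
    (hq : ∀ t, Function.Injective (q t)) (h : ∀ t, Nat.card (I t) + 2 ≤ n t) :
    ∃ σ : Ev n, ∀ (t : T) (i : I t), (σ t : Equiv.Perm (Fin (n t))) (p t i) = q t i := by
  choose σ hσ using fun t => ext_even (p t) (q t) (hp t) (hq t) (h t)
  exact ⟨σ, hσ⟩

end Pool.Agent.DF71
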