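import Pool.Agent.DF71.DDefs

set_option autoImplicit false

/-!
# DF71/FDefs: full groups, alternating full groups, fragmentations  (COMPLETE FILE)
-/

namespace Pool.Agent.DF71

open Topology

universe u

variable {X : Type u} [TopologicalSpace X]

/-- the homeomorphism `γ` coincides in a neighbourhood of every point with some element of `G`
(`γ` belongs to the full group of `G`) -/
def InFull (G : Subgroup (X ≃ₜ X)) (γ : X ≃ₜ X) : Prop :=
  ∀ x, ∃ g ∈ G, ∀ᶠ y in 𝓝 x, γ y = g y

/-- `c` is a 3-cycle: for some clopen set `U` the sets `U`, `c U`, `c² U` are pairwise disjoint,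
`c³` is the identity on `U`, and `c` is the identity outside the three sets -/
def ThreeCycle (c : X ≃ₜ X) : Prop :=
  ∃ U : Set X, IsClopen U ∧ (∀ x ∈ U, c x ∉ U) ∧ (∀ x ∈ U, c (c x) ∉ U) ∧
    (∀ x ∈ U, c (c (c x)) = x) ∧ ∀ x, x ∉ U → c x ∉ U → c (c x) ∉ U → c x = x

/-- the alternating full group of `G`: generated by the 3-cycles in the full group of `G` -/
def AltFull (G : Subgroup (X ≃ₜ X)) : Subgroup (X ≃ₜ X) :=
  Subgroup.closure {c | InFull G c ∧ ThreeCycle c}

/-- `G` is piecewise dihedral with respect to the homeomorphisms `a`, `b`: every element of `G` is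
pointwise equal to one of finitely many elements of the group generated by `a` and `b`, and near
every point which it moves `a` (resp. `b`) coincides with an element of `G` -/
def PiecewiseDihedral (a b : X ≃ₜ X) (G : Subgroup (X ≃ₜ X)) : Prop :=
  (∀ g ∈ G, ∃ F : Finset (X ≃ₜ X), (∀ f ∈ F, f ∈ Subgroup.closure {a, b}) ∧
    ∀ x, ∃ f ∈ F, g x = f x) ∧
  (∀ x, a x ≠ x → ∃ g ∈ G, ∀ᶠ y in 𝓝 x, g y = a y) ∧
  ∀ x, b x ≠ x → ∃ g ∈ G, ∀ᶠ y in 𝓝 x, g y = b y

/-- a fragmentation of the homeomorphism `a`: a finite group of homeomorphisms `h` such that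
`h x ∈ {x, a x}` for all `x`, and for every `x` some `h` satisfies `h x = a x` -/
def IsFragmentation (a : X ≃ₜ X) (A : Subgroup (X ≃ₜ X)) : Prop :=
  Finite A ∧ (∀ h ∈ A, ∀ x, h x = x ∨ h x = a x) ∧ ∀ x, ∃ h ∈ A, h x = a x

end Pool.Agent.DF71
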