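import Pool.Agent.DF71.FDefs

set_option autoImplicit false

/-!
# DF71/Three: the 3-cycles belong to the alternating full group  (OPEN MODULE)

Keep the statements exactly; extra lemmas `private`.
-/

namespace Pool.Agent.DF71

open Topology

universe u

variable {X : Type u} [TopologicalSpace X]

/-- The restriction of an involution to an invariant clopen set, extended by the identity.

PROOF.  `fun x => if x ∈ W then h x else x` is continuous (`W` clopen, piecewise) and its own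
inverse. -/
theorem exists_restrict (h : X ≃ₜ X) (hh : ∀ x, h (h x) = x) (W : Set X) (hW : IsClopen W)
    (hWh : ∀ x ∈ W, h x ∈ W) :
    ∃ c : X ≃ₜ X, (∀ x ∈ W, c x = h x) ∧ ∀ x, x ∉ W → c x = x := by
  classical
  have hcont : Continuous (W.piecewise h id) := by
    apply Continuous.piecewise
    · intro a ha
      rw [hW.frontier_eq] at ha
      exact absurd ha (Set.notMem_empty a)
    · exact h.continuous
    · exact continuous_id
  have hin : ∀ x ∈ W, W.piecewise h id x = h x := fun x hx => Set.piecewise_eq_of_mem _ _ _ hx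
  have hout : ∀ x, x ∉ W → W.piecewise h id x = x := fun x hx =>
    Set.piecewise_eq_of_notMem _ _ _ hx
  have hinv : ∀ x, W.piecewise h id (W.piecewise h id x) = x := by
    intro x
    by_cases hx : x ∈ W
    · rw [hin x hx, hin _ (hWh x hx), hh]
    · rw [hout x hx, hout x hx]
  refine ⟨⟨⟨W.piecewise h id, W.piecewise h id, hinv, hinv⟩, hcont, hcont⟩, ?_, ?_⟩
  · intro x hx
    exact hin x hx
  · intro x hx
    exact hout x hx

private theorem th_image_clopen (h : X ≃ₜ X) (hh : ∀ x, h (h x) = x) {U : Set X}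
    (hU : IsClopen U) : IsClopen (h '' U) := by
  have : h '' U = h ⁻¹' U := by
    ext x
    constructor
    · rintro ⟨y, hy, rfl⟩
      change h (h y) ∈ U
      rw [hh]
      exact hy
    · intro hx
      exact ⟨h x, hx, hh x⟩
  rw [this]
  exact hU.preimage h.continuous

/-- If near every point which it moves `st r` coincides with an element of `G`, the alternating
full group of `G` contains the 3-cycles `U → st s U → st (!s) st s U → U`.

PROOF.  Let `U₀ = U`, `U₁ = st s '' U`, `U₂ = st (!s) '' U₁`: clopen and pairwise disjoint by the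
hypotheses.  By `exists_restrict` there are `c₀₁` equal to `st s` on `U₀ ∪ U₁` and to the identity
elsewhere and `c₁₂` equal to `st (!s)` on `U₁ ∪ U₂` and to the identity elsewhere.  Put
`c = c₀₁ * c₁₂`.  Then `c = st s` on `U₀`, `c = st (!s)` on `U₁`, `c x = st s (st (!s) x)` on `U₂`,
`c x = x` elsewhere.  It is a `ThreeCycle` (with `U`).  It is in the full group: near `x ∈ U₀` it is
`st s`, and `st s x ≠ x` since `U₀ ∩ U₁ = ∅`; near `x ∈ U₁` it is `st (!s)` and `st (!s) x ≠ x` since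
`U₁ ∩ U₂ = ∅`; near `x ∈ U₂` it is `st s ∘ st (!s)`, where `st (!s) x ∈ U₁`, `st (!s) x ≠ x`, and
`st s` moves `st (!s) x`: if `g₁ = st (!s)` near `x` and `g₂ = st s` near `st (!s) x`, then
`g₂ * g₁ = st s ∘ st (!s)` near `x` (`Filter.Tendsto.eventually`, continuity); elsewhere it is the
identity on a neighbourhood.  So `c ∈ AltFull G ≤ Γ` (`Subgroup.subset_closure`). -/
theorem hasThree_of {st : Bool → X ≃ₜ X} (hinv : ∀ r x, st r (st r x) = x)
    (G Γ : Subgroup (X ≃ₜ X)) (hloc : ∀ r x, st r x ≠ x → ∃ g ∈ G, ∀ᶠ y in 𝓝 x, g y = st r y)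
    (hΓ : AltFull G ≤ Γ) : HasThree st Γ := by
  intro U s hU h1 h2 h3
  have hU₁ : IsClopen (st s '' U) := th_image_clopen (st s) (hinv s) hU
  have hU₂ : IsClopen (st (!s) '' (st s '' U)) := th_image_clopen (st (!s)) (hinv (!s)) hU₁
  -- disjointness
  have d01 : ∀ x ∈ U, x ∉ st s '' U := by
    rintro x hx ⟨y, hy, rfl⟩
    exact h1 y hy hx
  have d02 : ∀ x ∈ U, x ∉ st (!s) '' (st s '' U) := by
    rintro x hx ⟨_, ⟨y, hy, rfl⟩, rfl⟩
    exact h2 y hy hx
  have d12 : ∀ x ∈ st s '' U, x ∉ st (!s) '' (st s '' U) := by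
    rintro x ⟨z, hz, rfl⟩ ⟨_, ⟨y, hy, rfl⟩, he⟩
    exact h3 y hy z hz he
  obtain ⟨c₀, hc₀, hc₀'⟩ := exists_restrict (st s) (hinv s) (U ∪ st s '' U) (hU.union hU₁) (by
    rintro x (hx | ⟨y, hy, rfl⟩)
    · exact Or.inr ⟨x, hx, rfl⟩
    · left
      rw [hinv]
      exact hy)
  obtain ⟨c₁, hc₁, hc₁'⟩ := exists_restrict (st (!s)) (hinv (!s))
    (st s '' U ∪ st (!s) '' (st s '' U)) (hU₁.union hU₂) (by
    rintro x (hx | ⟨y, hy, rfl⟩)
    · exact Or.inr ⟨x, hx, rfl⟩
    · left
      rw [hinv]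
      exact hy)
  have e0 : ∀ x ∈ U, (c₀ * c₁) x = st s x := by
    intro x hx
    change c₀ (c₁ x) = st s x
    rw [hc₁' x (by rintro (h | h); exacts [d01 x hx h, d02 x hx h]), hc₀ x (Or.inl hx)]
  have e1 : ∀ x ∈ st s '' U, (c₀ * c₁) x = st (!s) x := by
    intro x hx
    change c₀ (c₁ x) = st (!s) x
    have hx2 : st (!s) x ∈ st (!s) '' (st s '' U) := ⟨x, hx, rfl⟩
    rw [hc₁ x (Or.inl hx), hc₀' _ (by
      rintro (h | h)
      · exact d02 _ h hx2
      · exact d12 _ h hx2)]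
  have e2 : ∀ x ∈ st (!s) '' (st s '' U), (c₀ * c₁) x = st s (st (!s) x) := by
    intro x hx
    change c₀ (c₁ x) = _
    rw [hc₁ x (Or.inr hx)]
    obtain ⟨y, hy, rfl⟩ := hx
    rw [hinv, hc₀ y (Or.inr hy)]
  have e3 : ∀ x, x ∉ U → x ∉ st s '' U → x ∉ st (!s) '' (st s '' U) → (c₀ * c₁) x = x := by
    intro x hx0 hx1 hx2
    change c₀ (c₁ x) = x
    rw [hc₁' x (by rintro (h | h); exacts [hx1 h, hx2 h]),
      hc₀' x (by rintro (h | h); exacts [hx0 h, hx1 h])]
  -- values along the cycle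
  have m1 : ∀ x ∈ U, st s x ∈ st s '' U := fun x hx => ⟨x, hx, rfl⟩
  have m2 : ∀ x ∈ U, st (!s) (st s x) ∈ st (!s) '' (st s '' U) := fun x hx => ⟨_, m1 x hx, rfl⟩
  have v1 : ∀ x ∈ U, (c₀ * c₁) (st s x) = st (!s) (st s x) := fun x hx => e1 _ (m1 x hx)
  have v2 : ∀ x ∈ U, (c₀ * c₁) (st (!s) (st s x)) = x := by
    intro x hx
    rw [e2 _ (m2 x hx), hinv, hinv]
  have hthree : ThreeCycle (c₀ * c₁) := by
    refine ⟨U, hU, ?_, ?_, ?_, ?_⟩
    · intro x hx
      rw [e0 x hx]
      exact h1 x hx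
    · intro x hx
      rw [e0 x hx, v1 x hx]
      exact h2 x hx
    · intro x hx
      rw [e0 x hx, v1 x hx, v2 x hx]
    · intro x hx0 hx1 hx2
      apply e3 x hx0
      · rintro ⟨y, hy, rfl⟩
        apply hx2
        rw [v1 y hy, v2 y hy]
        exact hy
      · rintro ⟨_, ⟨y, hy, rfl⟩, rfl⟩
        apply hx1
        rw [v2 y hy]
        exact hy
  have hfull : InFull G (c₀ * c₁) := by
    intro x
    by_cases hx0 : x ∈ U
    · obtain ⟨g, hg, hgx⟩ := hloc s x (fun he => h1 x hx0 (by rw [he]; exact hx0))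
      refine ⟨g, hg, ?_⟩
      filter_upwards [hgx, hU.isOpen.mem_nhds hx0] with y hy hyU
      rw [hy, e0 y hyU]
    · by_cases hx1 : x ∈ st s '' U
      · obtain ⟨g, hg, hgx⟩ := hloc (!s) x (fun he => d12 x hx1 ⟨x, hx1, he⟩)
        refine ⟨g, hg, ?_⟩
        filter_upwards [hgx, hU₁.isOpen.mem_nhds hx1] with y hy hyU
        rw [hy, e1 y hyU]
      · by_cases hx2 : x ∈ st (!s) '' (st s '' U)
        · have hx' : st (!s) x ∈ st s '' U := by
            obtain ⟨y, hy, rfl⟩ := hx2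
            rw [hinv]
            exact hy
          obtain ⟨g₁, hg₁, hg₁x⟩ := hloc (!s) x (fun he => d12 _ hx' (by rw [he]; exact hx2))
          obtain ⟨g₂, hg₂, hg₂x⟩ := hloc s (st (!s) x) (fun he => by
            have hmem : st s (st (!s) x) ∈ U := by
              obtain ⟨y, hy, hyx⟩ := hx'
              rw [← hyx, hinv]
              exact hy
            exact d01 _ hmem (by rw [he]; exact hx'))
          refine ⟨g₂ * g₁, G.mul_mem hg₂ hg₁, ?_⟩
          have hcont : Filter.Tendsto (st (!s)) (𝓝 x) (𝓝 (st (!s) x)) :=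
            (st (!s)).continuous.continuousAt
          filter_upwards [hg₁x, hcont.eventually hg₂x, hU₂.isOpen.mem_nhds hx2] with y hy1 hy2 hyU
          change _ = g₂ (g₁ y)
          rw [hy1, hy2, e2 y hyU]
        · refine ⟨1, G.one_mem, ?_⟩
          filter_upwards [hU.compl.isOpen.mem_nhds hx0, hU₁.compl.isOpen.mem_nhds hx1,
            hU₂.compl.isOpen.mem_nhds hx2] with y hy0 hy1 hy2
          rw [e3 y hy0 hy1 hy2]
          rfl
  refine ⟨c₀ * c₁, hΓ (Subgroup.subset_closure ⟨hfull, hthree⟩), ?_, ?_⟩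
  · intro x hx
    exact ⟨e0 x hx, v1 x hx, v2 x hx⟩
  · intro x hx0 hx1 hx2
    apply e3 x hx0
    · rintro ⟨y, hy, rfl⟩
      exact hx1 y hy rfl
    · rintro ⟨_, ⟨y, hy, rfl⟩, rfl⟩
      exact hx2 y hy rfl

end Pool.Agent.DF71
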