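import Pool.Agent.DF71.AbsMain
import Pool.Agent.DF71.DMain
import Pool.Agent.DF71.Disp
import Pool.Agent.DF71.Three

set_option autoImplicit false

/-!
# DF71/Final: the commutator width of the full groups of minimal dihedral actions
(the three lemmas and the assembly `final`)

Keep the statements exactly; extra lemmas `private`.
-/

namespace Pool.Agent.DF71

open Topology
open scoped commutatorElement

universe u

variable {X : Type u} [TopologicalSpace X]

/-- PROOF.  `st = fun r => cond r a b`.  `inv` by cases.  `min`: let `S` be closed, nonempty and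
invariant under `a` and `b`; then it is invariant under the closure (`Subgroup.closure_induction`;
`a⁻¹ = a`, `b⁻¹ = b` on points), so for `x ∈ S` the dense orbit of `x` is contained in the closed
set `S`; hence `S = univ`. -/
theorem dih_of (a b : X ≃ₜ X) (ha : ∀ x, a (a x) = x) (hb : ∀ x, b (b x) = x)
    (hmin : ∀ x, Dense {y | ∃ g ∈ Subgroup.closure {a, b}, g x = y}) :
    Dih (fun r : Bool => if r then a else b) := by
  refine ⟨?_, ?_⟩
  · intro r x
    cases r with
    | true => exact ha x
    | false => exact hb x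
  · intro S hS hne hinv
    have hSa : ∀ x ∈ S, a x ∈ S := fun x hx => hinv true x hx
    have hSb : ∀ x ∈ S, b x ∈ S := fun x hx => hinv false x hx
    have key : ∀ g ∈ Subgroup.closure ({a, b} : Set (X ≃ₜ X)),
        (∀ x ∈ S, g x ∈ S) ∧ ∀ x ∈ S, g⁻¹ x ∈ S := by
      intro g hg
      induction hg using Subgroup.closure_induction with
      | mem g hg =>
        rcases hg with rfl | hg
        · refine ⟨hSa, fun x hx => ?_⟩
          have h1 : g⁻¹ x = g x := by
            have h2 : g⁻¹ (g (g x)) = g x := g.symm_apply_apply (g x)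
            rwa [ha] at h2
          rw [h1]; exact hSa x hx
        · rw [Set.mem_singleton_iff] at hg
          subst hg
          refine ⟨hSb, fun x hx => ?_⟩
          have h1 : g⁻¹ x = g x := by
            have h2 : g⁻¹ (g (g x)) = g x := g.symm_apply_apply (g x)
            rwa [hb] at h2
          rw [h1]; exact hSb x hx
      | one => exact ⟨fun x hx => hx, fun x hx => by rw [inv_one]; exact hx⟩
      | mul g h _ _ ih1 ih2 =>
        refine ⟨fun x hx => ih1.1 _ (ih2.1 x hx), fun x hx => ?_⟩
        rw [mul_inv_rev]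
        exact ih2.2 _ (ih1.2 x hx)
      | inv g _ ih => exact ⟨ih.2, fun x hx => by rw [inv_inv]; exact ih.1 x hx⟩
    obtain ⟨x, hx⟩ := hne
    have h1 : {y | ∃ g ∈ Subgroup.closure ({a, b} : Set (X ≃ₜ X)), g x = y} ⊆ S := by
      rintro y ⟨g, hg, rfl⟩
      exact (key g hg).1 x hx
    have h2 := (hmin x).closure_eq
    have h3 := closure_minimal h1 hS
    rw [h2] at h3
    exact Set.univ_subset_iff.1 h3

/-- PROOF.  By compactness finitely many elements `g₁, …, g_k` of `G` suffice to describe `γ`
locally; let `F_i` be the finite sets given for the `g_i` by the first part of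
`PiecewiseDihedral`; then `γ x = g_i x = f x` for some `f ∈ ⋃ F_i`.  By `disp` (note
`Set.range (fun r : Bool => if r then a else b) = {a, b}`) the displacement is bounded. -/
theorem disp_of [CompactSpace X] (a b : X ≃ₜ X) (ha : ∀ x, a (a x) = x) (hb : ∀ x, b (b x) = x)
    (G : Subgroup (X ≃ₜ X)) (hG : PiecewiseDihedral a b G) (γ : X ≃ₜ X) (hγ : InFull G γ) :
    ∃ N : ℕ, ∀ x, ∃ r, ∃ i, i ≤ N ∧
      γ x = walk (fun r : Bool => if r then a else b) r i x := by
  classical
  choose g hg hgx using hγ
  choose F hF1 hF2 using fun x => hG.1 (g x) (hg x)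
  obtain ⟨t, -, ht⟩ := isCompact_univ.elim_nhds_subcover (fun x => {y | γ y = g x y})
    (fun x _ => hgx x)
  have hrange : Set.range (fun r : Bool => if r then a else b) = {a, b} := by
    ext h
    simp only [Set.mem_range, Set.mem_insert_iff, Set.mem_singleton_iff]
    constructor
    · rintro ⟨r, rfl⟩
      cases r with
      | true => left; rfl
      | false => right; rfl
    · rintro (rfl | rfl)
      · exact ⟨true, rfl⟩
      · exact ⟨false, rfl⟩
  obtain ⟨N, hN⟩ := disp (fun r : Bool => if r then a else b)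
    (by
      intro r x
      cases r with
      | true => exact ha x
      | false => exact hb x)
    (t.biUnion F)
    (by
      intro f hf
      rw [Finset.mem_biUnion] at hf
      obtain ⟨x, _, hx⟩ := hf
      rw [hrange]
      exact hF1 x f hx)
  refine ⟨N, fun y => ?_⟩
  have hy := ht (Set.mem_univ y)
  simp only [Set.mem_iUnion, Set.mem_setOf_eq] at hy
  obtain ⟨x, hx, hxy⟩ := hy
  obtain ⟨f, hf, hfy⟩ := hF2 x y
  obtain ⟨r, i, hi, h⟩ := hN f (Finset.mem_biUnion.2 ⟨x, hx, hf⟩) y
  exact ⟨r, i, hi, by rw [hxy, hfy, h]⟩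

/-- A group generated by fragmentations of `a` and `b` is piecewise dihedral.

PROOF.  First part: the set of the homeomorphisms `g` which have such a finite set `F` is closed
under products (products of the elements of the two finite sets), inverses (inverses), and contains
`A` (`F = {1, a}`) and `B` (`F = {1, b}`); `Subgroup.closure_induction` for
`A ⊔ B = closure (A ∪ B)` (`Subgroup.sup_eq_closure`).  Second part: let `a x ≠ x` and `h ∈ A` with
`h x = a x`.  By continuity `h y ≠ y` near `x`, so `h y = a y` near `x`. -/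
theorem piecewise_of_fragmentation [T2Space X] (a b : X ≃ₜ X) (A B : Subgroup (X ≃ₜ X))
    (hA : IsFragmentation a A) (hB : IsFragmentation b B) :
    PiecewiseDihedral a b (A ⊔ B) := by
  classical
  have hloc : ∀ (c : X ≃ₜ X) (C : Subgroup (X ≃ₜ X)), IsFragmentation c C →
      C ≤ A ⊔ B → ∀ x, c x ≠ x → ∃ g ∈ A ⊔ B, ∀ᶠ y in 𝓝 x, g y = c y := by
    intro c C hC hle x hx
    obtain ⟨h, hh, hhx⟩ := hC.2.2 x
    refine ⟨h, hle hh, ?_⟩
    have hopen : IsOpen {y | h y ≠ y} := isOpen_ne_fun h.continuous continuous_id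
    have hmem : x ∈ {y | h y ≠ y} := by
      rw [Set.mem_setOf_eq, hhx]; exact hx
    filter_upwards [hopen.mem_nhds hmem] with y hy
    exact (hC.2.1 h hh y).resolve_left hy
  refine ⟨?_, hloc a A hA le_sup_left, hloc b B hB le_sup_right⟩
  intro g hg
  rw [Subgroup.sup_eq_closure] at hg
  induction hg using Subgroup.closure_induction with
  | mem g hg =>
    rcases hg with hg | hg
    · refine ⟨{1, a}, ?_, fun x => ?_⟩
      · intro f hf
        rw [Finset.mem_insert, Finset.mem_singleton] at hf
        rcases hf with rfl | rfl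
        · exact one_mem _
        · exact Subgroup.subset_closure (Set.mem_insert _ _)
      · rcases hA.2.1 g hg x with h | h
        · exact ⟨1, Finset.mem_insert_self _ _, h⟩
        · exact ⟨a, Finset.mem_insert_of_mem (Finset.mem_singleton_self _), h⟩
    · refine ⟨{1, b}, ?_, fun x => ?_⟩
      · intro f hf
        rw [Finset.mem_insert, Finset.mem_singleton] at hf
        rcases hf with rfl | rfl
        · exact one_mem _
        · exact Subgroup.subset_closure (Set.mem_insert_of_mem _ (Set.mem_singleton _))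
      · rcases hB.2.1 g hg x with h | h
        · exact ⟨1, Finset.mem_insert_self _ _, h⟩
        · exact ⟨b, Finset.mem_insert_of_mem (Finset.mem_singleton_self _), h⟩
  | one =>
    refine ⟨{1}, ?_, fun x => ⟨1, Finset.mem_singleton_self _, rfl⟩⟩
    intro f hf
    rw [Finset.mem_singleton] at hf
    rw [hf]; exact one_mem _
  | mul g h _ _ ih1 ih2 =>
    obtain ⟨F1, hF1, hF1'⟩ := ih1
    obtain ⟨F2, hF2, hF2'⟩ := ih2
    refine ⟨Finset.image₂ (fun f f' => f * f') F1 F2, ?_, fun x => ?_⟩
    · intro f hf
      rw [Finset.mem_image₂] at hf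
      obtain ⟨f1, h1, f2, h2, rfl⟩ := hf
      exact mul_mem (hF1 f1 h1) (hF2 f2 h2)
    · obtain ⟨f2, h2, h2'⟩ := hF2' x
      obtain ⟨f1, h1, h1'⟩ := hF1' (h x)
      refine ⟨f1 * f2, Finset.mem_image₂_of_mem h1 h2, ?_⟩
      change g (h x) = f1 (f2 x)
      rw [h1', h2']
  | inv g _ ih =>
    obtain ⟨F, hF, hF'⟩ := ih
    refine ⟨F.image (fun f => f⁻¹), ?_, fun x => ?_⟩
    · intro f hf
      rw [Finset.mem_image] at hf
      obtain ⟨f1, h1, rfl⟩ := hf
      exact inv_mem (hF f1 h1)
    · obtain ⟨f, hf, hfx⟩ := hF' (g⁻¹ x)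
      refine ⟨f⁻¹, Finset.mem_image_of_mem _ hf, ?_⟩
      have h1 : g (g⁻¹ x) = x := g.apply_symm_apply x
      rw [h1] at hfx
      have h2 : f⁻¹ (f (g⁻¹ x)) = g⁻¹ x := f.symm_apply_apply _
      rw [← hfx] at h2
      exact h2.symm

/-- **Main theorem.** -/
theorem final [CompactSpace X] [T2Space X] [TotallyDisconnectedSpace X] [Infinite X]
    (a b : X ≃ₜ X) (ha : ∀ x, a (a x) = x) (hb : ∀ x, b (b x) = x)
    (hmin : ∀ x, Dense {y | ∃ g ∈ Subgroup.closure {a, b}, g x = y})
    (G : Subgroup (X ≃ₜ X)) (hG : PiecewiseDihedral a b G) (Γ : Subgroup (X ≃ₜ X))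
    (hA : AltFull G ≤ Γ) (hF : ∀ γ ∈ Γ, InFull G γ) (g : Γ) (hg : g ∈ commutator Γ) :
    ∃ l : List (Γ × Γ), l.length ≤ 6 ∧ g = (l.map fun p => ⁅p.1, p.2⁆).prod := by
  have hD := dih_of a b ha hb hmin
  have h3 : HasThree (fun r : Bool => if r then a else b) Γ := by
    refine hasThree_of hD.inv G Γ ?_ hA
    intro r x hx
    cases r with
    | true => exact hG.2.1 x hx
    | false => exact hG.2.2 x hx
  refine abs_main (ρ := (permHom X).comp Γ.subtype) ?_
    (almostFinite_of hD Γ (fun γ hγ => disp_of a b ha hb G hG γ (hF γ hγ)) h3) g hg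
  intro x y hxy
  apply Subtype.ext
  apply Homeomorph.ext
  intro z
  exact congrArg (fun f : Equiv.Perm X => f z) hxy

end Pool.Agent.DF71
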