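import Pool.Agent.DF71.WalkA

set_option autoImplicit false

/-!
# DF71/SegA: the distance to the cut and the end of the segment  (OPEN MODULE)

Keep the statements exactly; extra lemmas `private`.
-/

namespace Pool.Agent.DF71

open Topology

universe u

variable {X : Type u} [TopologicalSpace X] {st : Bool → X ≃ₜ X} {R M : ℕ} {V : Bool → Set X}

open Classical in
/-- the number of steps in the direction `r` before the first cut edge -/
noncomputable def Cut.dist (hc : Cut st R M V) (r : Bool) (x : X) : ℕ :=
  Nat.find (p := fun i => walk st r i x ∈ V (letter r i))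
    (let ⟨i, _, h⟩ := hc.hit r x; ⟨i, h⟩)

/-- the end of the segment of `x` in the direction `r` -/
noncomputable def Cut.tip (hc : Cut st R M V) (r : Bool) (x : X) : X :=
  walk st r (hc.dist r x) x

/-- PROOF. `Nat.find_spec`. -/
theorem Cut.tip_mem (hc : Cut st R M V) (r : Bool) (x : X) :
    hc.tip r x ∈ V (letter r (hc.dist r x)) := by
  classical
  unfold Cut.tip Cut.dist
  exact Nat.find_spec (p := fun i => walk st r i x ∈ V (letter r i)) _

/-- PROOF. `Nat.find_min`. -/
theorem Cut.dist_min (hc : Cut st R M V) (r : Bool) (x : X) (j : ℕ) (hj : j < hc.dist r x) :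
    walk st r j x ∉ V (letter r j) := by
  classical
  unfold Cut.dist at hj
  exact Nat.find_min _ hj

/-- PROOF. `Nat.find_le`, `hc.hit`. -/
theorem Cut.dist_le (hc : Cut st R M V) (r : Bool) (x : X) : hc.dist r x ≤ M := by
  classical
  obtain ⟨i, hi, h⟩ := hc.hit r x
  unfold Cut.dist
  exact (Nat.find_le h).trans hi

/-- PROOF. `Nat.find_eq_iff`. -/
theorem Cut.dist_eq (hc : Cut st R M V) (r : Bool) (x : X) (i : ℕ)
    (h1 : walk st r i x ∈ V (letter r i)) (h2 : ∀ j, j < i → walk st r j x ∉ V (letter r j)) :
    hc.dist r x = i := by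
  classical
  unfold Cut.dist
  rw [Nat.find_eq_iff]
  exact ⟨h1, h2⟩

/-- PROOF. `{x | hc.dist r x = i}` is the intersection of the preimage of `V (letter r i)` under
`walk st r i` and of the preimages of the complements of `V (letter r j)` under `walk st r j` for
`j < i` (finite intersection of clopen sets). -/
theorem Cut.isClopen_dist (hc : Cut st R M V) (r : Bool) (i : ℕ) :
    IsClopen {x | hc.dist r x = i} := by
  have e : {x | hc.dist r x = i} = (walk st r i ⁻¹' V (letter r i)) ∩
      ⋂ j ∈ Finset.range i, (walk st r j ⁻¹' V (letter r j))ᶜ := by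
    ext x
    rw [Set.mem_inter_iff, Set.mem_iInter₂]
    constructor
    · rintro rfl
      exact ⟨hc.tip_mem r x, fun j hj => hc.dist_min r x j (Finset.mem_range.1 hj)⟩
    · rintro ⟨h1, h2⟩
      exact hc.dist_eq r x i h1 fun j hj => h2 j (Finset.mem_range.2 hj)
  rw [e]
  refine ((hc.clopen _).preimage (walk_continuous st r i)).inter ?_
  exact isClopen_biInter_finset fun j _ =>
    ((hc.clopen _).preimage (walk_continuous st r j)).compl

/-- PROOF. Near `x` the number `hc.dist r` is constant (`isClopen_dist`), so `hc.tip r` is equal to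
the continuous map `walk st r (hc.dist r x)` near `x` (`continuous_iff_continuousAt`,
`ContinuousAt.congr`). -/
theorem Cut.continuous_tip (hc : Cut st R M V) (r : Bool) : Continuous (hc.tip r) := by
  rw [continuous_iff_continuousAt]
  intro x
  refine (walk_continuous st r (hc.dist r x)).continuousAt.congr ?_
  have h1 : {y | hc.dist r y = hc.dist r x} ∈ 𝓝 x :=
    (hc.isClopen_dist r (hc.dist r x)).isOpen.mem_nhds rfl
  filter_upwards [h1] with y hy
  have hy' : hc.dist r y = hc.dist r x := hy
  unfold Cut.tip
  rw [hy']

end Pool.Agent.DF71
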