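import Pool.Agent.DF71.WalkA

set_option autoImplicit false

/-!
# DF71/WalkB: orbits are infinite  (OPEN MODULE)

Keep the statements exactly; extra lemmas `private`.
-/

namespace Pool.Agent.DF71

universe u

variable {X : Type u} [TopologicalSpace X]

/-- There is no finite nonempty invariant set.

PROOF.  A finite set in a Hausdorff (T1) space is closed, so by minimality it is the whole space,
which is infinite. -/
theorem no_finite [T2Space X] [Infinite X] {st : Bool → X ≃ₜ X} (hD : Dih st) (S : Set X)
    (hS : S.Finite) (hne : S.Nonempty) (hinv : ∀ r, ∀ x ∈ S, st r x ∈ S) : False := by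
  have h := hD.min S hS.isClosed hne hinv
  rw [h] at hS
  exact Set.infinite_univ hS

/-- A walk cannot be reflected at both ends.

PROOF.  Let `x_j = walk st (!r) j x` and `S = {x_j : j ≤ i}`, a finite nonempty set.  It is
invariant: `st (letter (!r) j) x_j = x_{j+1}` (`walk_succ'`) for `j < i`, and
`st (letter (!r) i) x_i = x_i`; `st (!(letter (!r) j)) x_j = x_{j-1}` for `j ≥ 1` (because
`!(letter (!r) j) = letter (!r) (j-1)` and `st s` is an involution) and `st r x_0 = x_0`.  Every
Boolean `s` is `letter (!r) j` or its negation.  Contradiction with `no_finite`. -/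
theorem no_fold [T2Space X] [Infinite X] {st : Bool → X ≃ₜ X} (hD : Dih st) (r : Bool) (x : X)
    (i : ℕ) (h0 : st r x = x)
    (hi : st (letter (!r) i) (walk st (!r) i x) = walk st (!r) i x) : False := by
  refine no_finite hD ((fun j => walk st (!r) j x) '' Set.Iic i) ((Set.finite_Iic i).image _)
    ⟨_, i, le_refl i, rfl⟩ ?_
  rintro s _ ⟨j, hj, rfl⟩
  have hj' : j ≤ i := hj
  show st s (walk st (!r) j x) ∈ _
  by_cases hs : s = letter (!r) j
  · rw [hs]
    rcases Nat.lt_or_ge j i with h1 | h1
    · exact ⟨j + 1, h1, walk_succ' st (!r) j x⟩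
    · have h2 : j = i := le_antisymm hj' h1
      rw [h2, hi]
      exact ⟨i, le_refl i, rfl⟩
  · have hs' : s = !(letter (!r) j) := Bool.eq_not_of_ne hs
    cases j with
    | zero =>
      rw [letter_zero, Bool.not_not] at hs'
      rw [hs', walk_zero, h0]
      exact ⟨0, Nat.zero_le i, rfl⟩
    | succ k =>
      rw [letter_succ, Bool.not_not] at hs'
      rw [walk_succ', hs', hD.inv]
      exact ⟨k, by show k ≤ i; omega, rfl⟩

/-- If a walk returns to its origin after `i ≥ 1` steps, then `i = 2 j + 1` is odd and the point
`x_j` in the middle is fixed by its next letter.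

PROOF.  Let `x_k = walk st r k x`.  If `i` is even then `letter r i = r`, so
`walk st r (i + k) x = walk st r k x` (`walk_add`) and the set `{x_k : k < i}` is finite and
invariant: `st (letter r k) x_k = x_{k+1}`, (with `x_i = x_0`), `st (!(letter r k)) x_k = x_{k-1}`
for `k ≥ 1`, and for `k = 0`: `x_0 = x_i = st (letter r (i-1)) x_{i-1}` with
`letter r (i-1) = !r`, so `st (!r) x_0 = x_{i-1}`.  This contradicts `no_finite`.  If `i = 2 j + 1`:
by `walk_back` (with `n = i`, going back `k` steps) `walk st (letter (!r) i) k x_i = x_{i-k}`, and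
`letter (!r) i = r` (odd) and `x_i = x_0`, so `x_k = x_{i-k}` for all `k ≤ i`.  Take `k = j`:
`x_j = x_{j+1} = st (letter r j) x_j`. -/
theorem no_loop [T2Space X] [Infinite X] {st : Bool → X ≃ₜ X} (hD : Dih st) (r : Bool) (x : X)
    (i : ℕ) (hi : 1 ≤ i) (h : walk st r i x = x) :
    ∃ j, i = 2 * j + 1 ∧ st (letter r j) (walk st r j x) = walk st r j x := by
  rcases Nat.even_or_odd' i with ⟨m, hm | hm⟩
  · exfalso
    refine no_finite hD ((fun j => walk st r j x) '' Set.Iio i) ((Set.finite_Iio i).image _)
      ⟨_, 0, by show 0 < i; omega, rfl⟩ ?_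
    rintro s _ ⟨k, hk, rfl⟩
    have hk' : k < i := hk
    show st s (walk st r k x) ∈ _
    by_cases hs : s = letter r k
    · rw [hs, ← walk_succ']
      rcases Nat.lt_or_ge (k + 1) i with h1 | h1
      · exact ⟨k + 1, h1, rfl⟩
      · have h2 : k + 1 = i := by omega
        rw [h2, h]
        exact ⟨0, by show 0 < i; omega, rfl⟩
    · have hs' : s = !(letter r k) := Bool.eq_not_of_ne hs
      cases k with
      | zero =>
        rw [letter_zero] at hs'
        obtain ⟨i', rfl⟩ : ∃ i', i = i' + 1 := ⟨i - 1, by omega⟩
        have h1 : letter r (i' + 1) = r := by rw [hm]; exact letter_even r m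
        rw [letter_succ] at h1
        have h2 : letter r i' = !r := by
          have h3 := congrArg not h1
          rw [Bool.not_not] at h3
          exact h3
        have h3 : st (!r) x = walk st r i' x := by
          have h4 := walk_succ' st r i' x
          rw [h, h2] at h4
          conv_lhs => rw [h4]
          rw [hD.inv]
        rw [hs', walk_zero, h3]
        exact ⟨i', by show i' < i' + 1; omega, rfl⟩
      | succ k =>
        rw [letter_succ, Bool.not_not] at hs'
        rw [walk_succ', hs', hD.inv]
        exact ⟨k, by show k < i; omega, rfl⟩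
  · refine ⟨m, hm, ?_⟩
    have h1 := walk_back st hD.inv r i m (by omega) x
    have h2 : letter (!r) i = r := by
      rw [hm, letter_succ, letter_even, Bool.not_not]
    rw [h2, h, show i - m = m + 1 by omega, walk_succ'] at h1
    exact h1.symm

end Pool.Agent.DF71
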