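import Pool.Agent.DF71.SegA
import Pool.Agent.DF71.WalkB

set_option autoImplicit false

/-!
# DF71/SegB: the geometry of the segments  

Keep the statements exactly; extra lemmas `private`.
-/

namespace Pool.Agent.DF71

universe u

variable {X : Type u} [TopologicalSpace X] {st : Bool → X ≃ₜ X} {R M : ℕ} {V : Bool → Set X}

private theorem letter_par (r : Bool) (n : ℕ) : letter r n = if n % 2 = 0 then r else !r := by
  induction n with
  | zero => rfl
  | succ n ih =>
    rw [letter_succ, ih]
    rcases Nat.mod_two_eq_zero_or_one n with h | h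
    · have h' : (n + 1) % 2 = 1 := by omega
      simp [h, h']
    · have h' : (n + 1) % 2 = 0 := by omega
      simp [h, h']

private theorem letter_pp (r : Bool) (i : ℕ) : letter (letter r i) i = r := by
  rw [← letter_add, ← two_mul, letter_even]

private theorem letter_back (r : Bool) (i j : ℕ) (hj : j < i) :
    letter (letter r i) j = letter (!r) (i - j - 1) := by
  rw [← letter_add, letter_par, letter_par]
  rcases Nat.mod_two_eq_zero_or_one (i + j) with h | h
  · have h' : (i - j - 1) % 2 = 1 := by omega
    simp [h, h']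
  · have h' : (i - j - 1) % 2 = 0 := by omega
    simp [h, h']

private theorem pull_back (hc : Cut st R M V) (hinv : ∀ r x, st r (st r x) = x) (r : Bool)
    (y : X) (p : ℕ) (hp : 1 ≤ p) (h : walk st r p y ∈ V (letter r (p - 1))) :
    walk st r (p - 1) y ∈ V (letter r (p - 1)) := by
  obtain ⟨q, rfl⟩ : ∃ q, p = q + 1 := ⟨p - 1, by omega⟩
  simp only [Nat.add_sub_cancel] at h ⊢
  rw [walk_succ'] at h
  have h2 := hc.inv _ _ h
  rwa [hinv] at h2

/-- PROOF.  Put `i = hc.dist (!r) y`, `walk st (!r) i y ∈ V (letter (!r) i)`.  If `i = 0` then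
`y ∈ V (!r)`, contradicting `hc.disj`.  If `1 ≤ i ≤ R` this contradicts `hc.ret`. -/
theorem Cut.seg_len (hc : Cut st R M V) {r : Bool} {y : X} (hy : y ∈ V r) :
    R < hc.dist (!r) y := by
  by_contra hcon
  have hle : hc.dist (!r) y ≤ R := by omega
  have h := hc.tip_mem (!r) y
  unfold Cut.tip at h
  rcases Nat.eq_zero_or_pos (hc.dist (!r) y) with h0 | h0
  · rw [h0] at h
    exact hc.disj r y hy h
  · exact hc.ret r y hy _ h0 hle _ h

/-- Looking back from a point of the segment beginning at `y`.

PROOF.  Let `x_j = walk st (!r) j y`.  By `walk_back` (for `!r`, `Bool.not_not`)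
`walk st (letter r i) j x_i = x_{i-j}` for `j ≤ i`.  For `j = i` this is `y ∈ V r` and
`letter (letter r i) i = letter r (2 i) = r` (`letter_add`, `letter_even`).  For `j < i` put
`p = i - j ≥ 1`; the letter `letter (letter r i) j = letter r (i + j)` equals
`letter (!r) (p - 1)` (parity), and `x_p = st (letter (!r) (p - 1)) x_{p-1}` (`walk_succ'`); if
`x_p ∈ V (letter (!r) (p-1))` then also `x_{p-1} ∈ V (letter (!r) (p-1))` (`hc.inv`, `hinv`),
contradicting `hc.dist_min` since `p - 1 < i ≤ hc.dist (!r) y`.  Now use `hc.dist_eq`. -/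
theorem Cut.seg_back (hc : Cut st R M V) (hinv : ∀ r x, st r (st r x) = x) {r : Bool} {y : X}
    (hy : y ∈ V r) (i : ℕ) (hi : i ≤ hc.dist (!r) y) :
    hc.dist (letter r i) (walk st (!r) i y) = i ∧
      hc.tip (letter r i) (walk st (!r) i y) = y := by
  have key : ∀ j, j ≤ i → walk st (letter r i) j (walk st (!r) i y) = walk st (!r) (i - j) y := by
    intro j hj
    have h := walk_back st hinv (!r) i j hj y
    rwa [Bool.not_not] at h
  have hd : hc.dist (letter r i) (walk st (!r) i y) = i := by
    apply hc.dist_eq
    · rw [key i le_rfl, Nat.sub_self, walk_zero, letter_pp]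
      exact hy
    · intro j hj hmem
      rw [key j hj.le, letter_back r i j hj] at hmem
      have h2 := pull_back hc hinv (!r) y (i - j) (by omega) hmem
      exact hc.dist_min (!r) y (i - j - 1) (by omega) h2
  refine ⟨hd, ?_⟩
  unfold Cut.tip
  rw [hd, key i le_rfl, Nat.sub_self, walk_zero]

/-- Looking forward from a point of the segment beginning at `y`.

PROOF.  By `walk_add` and `letter_add` the walk from `x_i = walk st (!r) i y` with first letter
`letter (!r) i` is the rest of the walk from `y`; use `hc.dist_eq`, `hc.tip_mem`,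
`hc.dist_min`. -/
theorem Cut.seg_fwd (hc : Cut st R M V) {r : Bool} {y : X}
    (i : ℕ) (hi : i ≤ hc.dist (!r) y) :
    hc.dist (letter (!r) i) (walk st (!r) i y) = hc.dist (!r) y - i ∧
      hc.tip (letter (!r) i) (walk st (!r) i y) = hc.tip (!r) y := by
  have key : ∀ j, walk st (letter (!r) i) j (walk st (!r) i y) = walk st (!r) (i + j) y := by
    intro j
    rw [walk_add]
  have hd : hc.dist (letter (!r) i) (walk st (!r) i y) = hc.dist (!r) y - i := by
    apply hc.dist_eq
    · rw [key, ← letter_add, Nat.add_sub_cancel' hi]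
      exact hc.tip_mem (!r) y
    · intro j hj
      rw [key, ← letter_add]
      exact hc.dist_min (!r) y (i + j) (by omega)
  refine ⟨hd, ?_⟩
  unfold Cut.tip
  rw [hd, key, Nat.add_sub_cancel' hi]

/-- The points of a segment are different.

PROOF.  Let `x_j = walk st (!r) j y` and suppose `x_i = x_j`, `i < j ≤ hc.dist (!r) y`.  By
`walk_add`, `walk st (letter (!r) i) (j - i) x_i = x_j = x_i`, so by `no_loop` `j - i = 2 k + 1` and
the point `walk st (letter (!r) i) k x_i = x_{i+k}` is fixed by the letter
`letter (letter (!r) i) k = letter (!r) (i + k)`, hence `x_{i+k} ∈ V (letter (!r) (i+k))` by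
`hc.fix`, contradicting `hc.dist_min` as `i + k < j`. -/
theorem Cut.seg_inj [T2Space X] [Infinite X] (hD : Dih st) (hc : Cut st R M V) {r : Bool}
    {y : X} (i j : ℕ) (hi : i ≤ hc.dist (!r) y) (hj : j ≤ hc.dist (!r) y)
    (h : walk st (!r) i y = walk st (!r) j y) : i = j := by
  have main : ∀ i j, i < j → j ≤ hc.dist (!r) y → walk st (!r) i y = walk st (!r) j y → False := by
    intro i j hij hj h
    have h1 : walk st (letter (!r) i) (j - i) (walk st (!r) i y) = walk st (!r) i y := by
      rw [← walk_add, Nat.add_sub_cancel' hij.le, h]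
    obtain ⟨k, hk, hfix⟩ := no_loop hD (letter (!r) i) (walk st (!r) i y) (j - i) (by omega) h1
    rw [← walk_add, ← letter_add] at hfix
    exact hc.dist_min (!r) y (i + k) (by omega) (hc.fix _ _ hfix)
  rcases lt_trichotomy i j with hij | hij | hij
  · exact (main i j hij hj h).elim
  · exact hij
  · exact (main j i hij hi h.symm).elim

/-- Every point `x` is in the segment beginning at its tip `y` (in the direction `t`).

PROOF.  Let `i = hc.dist t x`, `y = walk st t i x ∈ V (letter t i)`.  By `walk_back`,
`walk st (!(letter t i)) j y = walk st t (i - j) x` for `j ≤ i` (note `letter (!t) i =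
!(letter t i)`, `letter_not`).  `j = i` gives the third claim, and `letter (letter t i) i = t`
(`letter_add`, `letter_even`).  For the second claim let `j < i` with
`walk st (!(letter t i)) j y ∈ V (letter (!(letter t i)) j)` (if `hc.dist (!(letter t i)) y < i`
take this number as `j`, by `hc.tip_mem`): the point is `x_{p}`, `p = i - j ≥ 1`,
`x_k = walk st t k x`, and the letter is `letter t (p - 1)` (parity), so
`x_{p-1} = st (letter t (p-1)) x_p ∈ V (letter t (p-1))`, contradicting `hc.dist_min`. -/
theorem Cut.tip_back (hc : Cut st R M V) (hinv : ∀ r x, st r (st r x) = x) (t : Bool) (x : X) :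
    letter (letter t (hc.dist t x)) (hc.dist t x) = t ∧
      hc.dist t x ≤ hc.dist (!(letter t (hc.dist t x))) (hc.tip t x) ∧
      walk st (!(letter t (hc.dist t x))) (hc.dist t x) (hc.tip t x) = x := by
  have key : ∀ j, j ≤ hc.dist t x →
      walk st (!(letter t (hc.dist t x))) j (hc.tip t x) = walk st t (hc.dist t x - j) x := by
    intro j hj
    have h := walk_back st hinv t (hc.dist t x) j hj x
    rw [letter_not] at h
    exact h
  refine ⟨letter_pp _ _, ?_, ?_⟩
  · by_contra hcon
    push Not at hcon
    generalize hj : hc.dist (!(letter t (hc.dist t x))) (hc.tip t x) = j at hcon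
    have hm := hc.tip_mem (!(letter t (hc.dist t x))) (hc.tip t x)
    unfold Cut.tip at hm
    rw [show walk st t (hc.dist t x) x = hc.tip t x from rfl, hj, key j hcon.le, letter_not,
      letter_back t _ j hcon, letter_not, Bool.not_not] at hm
    have h2 := pull_back hc hinv t x (hc.dist t x - j) (by omega) hm
    exact hc.dist_min t x (hc.dist t x - j - 1) (by omega) h2
  · rw [key _ le_rfl, Nat.sub_self, walk_zero]

end Pool.Agent.DF71
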