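import Pool.Agent.DF71.Base
import Pool.Agent.DF71.CutC

set_option autoImplicit false

/-!
# DF71/TowM: decompositions into long segments exist  (OPEN MODULE)

Keep the statement exactly; extra lemmas `private`.
-/

namespace Pool.Agent.DF71

universe u

variable {X : Type u} [TopologicalSpace X]

/-- **Segments.**  For every `R` there is a decomposition into segments of length more than `R`.

PROOF.  Take `M, V, hc` from `exists_cut hD R` and `P` from `exists_base hD hc`.  Put
`cl y = true` if `y ∈ V true`, `false` otherwise, and `len y = hc.dist (!(cl y)) y`.  For `y ∈ P` and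
`y ∈ V r` we have `cl y = r` (`hc.disj`).
`clopen`: `{y ∈ P | cl y = r ∧ len y = k} = P ∩ V r ∩ {y | hc.dist (!r) y = k}`
(`hc.isClopen_dist`).  `long`: `hc.seg_len`.  `bdd`: `hc.dist_le`.
`cover`: for `x` there is `t` with `hc.tip t x ∈ P`; `y = hc.tip t x ∈ V (letter t (hc.dist t x))`,
so `cl y = letter t (hc.dist t x)`, and `hc.tip_back` gives the claim with `i = hc.dist t x`.
`inj`: let `x = walk st (!(cl y)) i y = walk st (!(cl z)) j z`.  By `hc.seg_back` (with
`r = cl y`, `y ∈ V r`) `hc.dist (letter (cl y) i) x = i` and `hc.tip (letter (cl y) i) x = y ∈ P`,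
similarly `hc.dist (letter (cl z) j) x = j` and `hc.tip (letter (cl z) j) x = z ∈ P`; since only one
of `hc.tip true x`, `hc.tip false x` is in `P`, the letters are equal, hence `y = z`, `i = j`. -/
theorem exists_tow [CompactSpace X] [T2Space X] [TotallyDisconnectedSpace X] [Infinite X]
    {st : Bool → X ≃ₜ X} (hD : Dih st) (R : ℕ) :
    ∃ (M : ℕ) (P : Set X) (cl : X → Bool) (len : X → ℕ), Tow st R M P cl len := by
  classical
  obtain ⟨M, V, hc⟩ := exists_cut hD R
  obtain ⟨P, hP, hPV, hPx⟩ := exists_base hD hc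
  have hcl : ∀ (r : Bool) (y : X), y ∈ V r → decide (y ∈ V true) = r := by
    intro r y hy
    cases r with
    | true => exact decide_eq_true hy
    | false => exact decide_eq_false (hc.disj false y hy)
  have hclP : ∀ y, y ∈ P → y ∈ V (decide (y ∈ V true)) := by
    intro y hy
    rcases hPV hy with h | h
    · rw [hcl true y h]; exact h
    · rw [hcl false y h]; exact h
  have huniq : ∀ (s t : Bool) (x : X), hc.tip s x ∈ P → hc.tip t x ∈ P → s = t := by
    intro s t x hs ht
    have h := hPx x
    cases s <;> cases t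
    · rfl
    · exact absurd hs (h.1 ht)
    · exact absurd ht (h.1 hs)
    · rfl
  have hex : ∀ x, ∃ t, hc.tip t x ∈ P := by
    intro x
    by_cases h : hc.tip true x ∈ P
    · exact ⟨true, h⟩
    · refine ⟨false, ?_⟩
      by_contra h2
      exact h ((hPx x).2 h2)
  refine ⟨M, P, fun y => decide (y ∈ V true), fun y => hc.dist (!(decide (y ∈ V true))) y, ?_⟩
  refine ⟨hP, ?_, ?_, ?_, ?_, ?_⟩
  · intro x
    obtain ⟨t, ht⟩ := hex x
    have h1 := hcl _ _ (hc.tip_mem t x)
    obtain ⟨_, b2, b3⟩ := hc.tip_back hD.inv t x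
    refine ⟨hc.tip t x, ht, hc.dist t x, ?_, ?_⟩
    · show hc.dist t x ≤ hc.dist (!(decide (hc.tip t x ∈ V true))) (hc.tip t x)
      rw [h1]
      exact b2
    · show walk st (!(decide (hc.tip t x ∈ V true))) (hc.dist t x) (hc.tip t x) = x
      rw [h1]
      exact b3
  · intro y hy z hz i j hi hj h
    have h1 := hc.seg_back hD.inv (hclP y hy) i hi
    have h2 := hc.seg_back hD.inv (hclP z hz) j hj
    have h' : walk st (!(decide (y ∈ V true))) i y = walk st (!(decide (z ∈ V true))) j z := h
    rw [h'] at h1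
    have h3 : letter (decide (y ∈ V true)) i = letter (decide (z ∈ V true)) j := by
      apply huniq _ _ (walk st (!(decide (z ∈ V true))) j z)
      · rw [h1.2]; exact hy
      · rw [h2.2]; exact hz
    rw [h3] at h1
    exact ⟨h1.2.symm.trans h2.2, h1.1.symm.trans h2.1⟩
  · intro r k
    have e : {y | y ∈ P ∧ decide (y ∈ V true) = r ∧ hc.dist (!(decide (y ∈ V true))) y = k} =
        P ∩ V r ∩ {y | hc.dist (!r) y = k} := by
      ext y
      constructor
      · rintro ⟨h1, h2, h3⟩
        have h4 := hclP y h1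
        rw [h2] at h4 h3
        exact ⟨⟨h1, h4⟩, h3⟩
      · rintro ⟨⟨h1, h2⟩, h3⟩
        have h4 := hcl r y h2
        have h3' : hc.dist (!r) y = k := h3
        refine ⟨h1, h4, ?_⟩
        rw [h4]
        exact h3'
    show IsClopen {y | y ∈ P ∧ decide (y ∈ V true) = r ∧ hc.dist (!(decide (y ∈ V true))) y = k}
    rw [e]
    exact (hP.inter (hc.clopen r)).inter (hc.isClopen_dist (!r) k)
  · intro y hy
    exact hc.seg_len (hclP y hy)
  · intro y _
    exact hc.dist_le _ y

end Pool.Agent.DF71
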