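import Pool.Agent.DF71.DDefs

set_option autoImplicit false

/-!
# DF71/WalkA: the algebra of walks  (OPEN MODULE)

Keep the statements exactly; extra lemmas `private`.
-/

namespace Pool.Agent.DF71

universe u

variable {X : Type u} [TopologicalSpace X]

/-- PROOF. Induction on `n`. -/
theorem letter_not (r : Bool) (n : ℕ) : letter (!r) n = !(letter r n) := by
  induction n with
  | zero => rfl
  | succ n ih => rw [letter_succ, letter_succ, ih]

/-- PROOF. Induction on `n`. -/
theorem letter_add (r : Bool) (m n : ℕ) : letter r (m + n) = letter (letter r m) n := by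
  induction n with
  | zero => rfl
  | succ n ih => rw [← Nat.add_assoc, letter_succ, letter_succ, ih]

/-- PROOF. `letter r n = r` for `n` even (induction on `k`, `n = 2 k`). -/
theorem letter_even (r : Bool) (k : ℕ) : letter r (2 * k) = r := by
  induction k with
  | zero => rfl
  | succ k ih =>
    rw [show 2 * (k + 1) = 2 * k + 1 + 1 by ring, letter_succ, letter_succ, ih, Bool.not_not]

/-- PROOF. Induction on `n`, generalizing `r` and `x`. -/
theorem walk_succ' (st : Bool → X ≃ₜ X) (r : Bool) (n : ℕ) (x : X) :
    walk st r (n + 1) x = st (letter r n) (walk st r n x) := by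
  induction n generalizing r x with
  | zero => rfl
  | succ n ih =>
    rw [walk_succ, ih, letter_not, ← letter_succ, ← walk_succ]

/-- PROOF. Induction on `n` with `walk_succ'`, `letter_add`. -/
theorem walk_add (st : Bool → X ≃ₜ X) (r : Bool) (m n : ℕ) (x : X) :
    walk st r (m + n) x = walk st (letter r m) n (walk st r m x) := by
  induction n with
  | zero => rfl
  | succ n ih => rw [← Nat.add_assoc, walk_succ', ih, letter_add, ← walk_succ']

/-- Going back.  PROOF.  Induction on `i`: for `i = 0` trivial.  Step (`i + 1 ≤ n`): by `walk_succ'`
the left-hand side is `st (letter (letter (!r) n) i) (walk st r (n - i) x)`, and with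
`n - i = (n - i - 1) + 1` this is `st s (st (letter r (n - i - 1)) (walk st r (n - i - 1) x))`, where
`s = letter (!r) (n + i) = letter r (n - i - 1)` (the parities of `n + i + 1` and `n - i - 1` are
equal); conclude by `hinv`. -/
theorem walk_back (st : Bool → X ≃ₜ X) (hinv : ∀ r x, st r (st r x) = x) (r : Bool) (n i : ℕ)
    (hi : i ≤ n) (x : X) :
    walk st (letter (!r) n) i (walk st r n x) = walk st r (n - i) x := by
  induction i with
  | zero => rfl
  | succ i ih =>
    obtain ⟨k, rfl⟩ : ∃ k, n = k + i + 1 := ⟨n - (i + 1), by omega⟩
    have h1 : k + i + 1 - i = k + 1 := by omega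
    have h2 : k + i + 1 - (i + 1) = k := by omega
    have h3 : letter (letter (!r) (k + i + 1)) i = letter r k := by
      rw [← letter_add, letter_not, show k + i + 1 + i = 2 * i + k + 1 by ring, letter_succ,
        Bool.not_not, letter_add, letter_even]
    rw [walk_succ', ih (by omega), h1, h2, h3, walk_succ', hinv]

/-- PROOF. Induction on `n`. -/
theorem walk_continuous (st : Bool → X ≃ₜ X) (r : Bool) (n : ℕ) : Continuous (walk st r n) := by
  induction n generalizing r with
  | zero => exact continuous_id
  | succ n ih => exact (ih (!r)).comp (st r).continuous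

/-- PROOF. Induction on `n` (each `st r` is injective). -/
theorem walk_injective (st : Bool → X ≃ₜ X) (r : Bool) (n : ℕ) :
    Function.Injective (walk st r n) := by
  induction n generalizing r with
  | zero => exact Function.injective_id
  | succ n ih => exact (ih (!r)).comp (st r).injective

/-- PROOF. Induction on `n`: `walk st r (n+1) '' S = walk st (!r) n '' (st r '' S)`, and the image
of a clopen set under a homeomorphism is clopen. -/
theorem walk_isClopen_image (st : Bool → X ≃ₜ X) (r : Bool) (n : ℕ) {S : Set X}
    (hS : IsClopen S) : IsClopen (walk st r n '' S) := by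
  induction n generalizing r S with
  | zero =>
    have h : walk st r 0 '' S = S := by
      ext x
      simp
    rw [h]
    exact hS
  | succ n ih =>
    have h : walk st r (n + 1) '' S = walk st (!r) n '' (st r '' S) := by
      rw [Set.image_image]
      rfl
    rw [h]
    exact ih (!r) ⟨(st r).isClosed_image.2 hS.1, (st r).isOpen_image.2 hS.2⟩

end Pool.Agent.DF71
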